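import Mathlib

/-!
# Triple meet of harmonic measures of disjoint fine domains: definitions and outline

Notation: `p_t` heat kernel (`hk`), `P_t` heat semigroup (`PP`, `PR`), `c` the constant `cN` with
`|x-y|^(2-n) = c ∫_0^∞ p_t(x-y) dt`, `K_s = ∫_0^s p_t dt` (`KK`), `K_s * μ` (`KM`),
`T_s φ = (P_s φ - φ)/(c s)` (`TT`).

* Potentials: `P_s pot μ + c K_s * μ = pot μ`; `pot μ` is lower semicontinuous and continuous in the
  mean (with respect to `K_s/s`) where it is finite (`MC_pot`).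
* Kato (`kato`): for `w = pot μp - pot μm` and test functions `φ ≥ 0`,
  `liminf ∫ |w| T_s φ ≥ ∫ φ (1 - 2·1[w>0]) dμp - ∫ φ dμm` as `s → 0`.
* `split`: if `μp ⟂ μm`, then
  `∫ ψ (1 - 2·1[w>0]) dμp + ∫ ψ (1 - 2·1[w<0]) dμm ≤ limsup ∫ |w| T_s ψ`.
* `sing`: `ω` is singular with respect to Lebesgue measure (iteration at density points of `g = 0`).
* `half`: `limsup_{v → 0} ∫ q(z) (1 - 1[g(z+v)>0] - 1[g(z-v)>0]) dω(z) ≤ 0`.
* `inf_zero`: three such measures with a.e. disjoint sets `{g_j > 0}` have infimum `0`.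
-/

open MeasureTheory Set Filter Topology
open scoped ENNReal NNReal

namespace TM291

/-- `ℝⁿ`. -/
abbrev Sp (n : ℕ) := EuclideanSpace ℝ (Fin n)

/-- The Newtonian kernel `|x - y|^(2 - n)` (`= ∞` on the diagonal when `n ≥ 3`). -/
noncomputable def kernel {n : ℕ} (x y : Sp n) : ℝ≥0∞ := edist x y ^ ((2 : ℝ) - n)

/-- The Newtonian potential of a measure. -/
noncomputable def pot {n : ℕ} (μ : Measure (Sp n)) (y : Sp n) : ℝ≥0∞ := ∫⁻ z, kernel y z ∂μ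

/-- Heat kernel (used for `0 < s` only). -/
noncomputable def hk {n : ℕ} (s : ℝ) (y : Sp n) : ℝ :=
  (4 * Real.pi * s) ^ (-(n : ℝ) / 2) * Real.exp (-‖y‖ ^ 2 / (4 * s))

/-- `ENNReal`-valued heat kernel. -/
noncomputable def hkE {n : ℕ} (s : ℝ) (y : Sp n) : ℝ≥0∞ := ENNReal.ofReal (hk s y)

/-- `K_s(y) = ∫_0^s p_t(y) dt`. -/
noncomputable def KK {n : ℕ} (s : ℝ) (y : Sp n) : ℝ≥0∞ := ∫⁻ t in Ioc (0 : ℝ) s, hkE t y

/-- `P_s f(y) = ∫ p_s(y-z) f(z) dz` for `[0,∞]`-valued `f`. -/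
noncomputable def PP {n : ℕ} (s : ℝ) (f : Sp n → ℝ≥0∞) (y : Sp n) : ℝ≥0∞ :=
  ∫⁻ z, hkE s (y - z) * f z

/-- `(K_s * μ)(y)`. -/
noncomputable def KM {n : ℕ} (s : ℝ) (μ : Measure (Sp n)) (y : Sp n) : ℝ≥0∞ :=
  ∫⁻ z, KK s (y - z) ∂μ

/-- The constant with `|x-y|^(2-n) = cN * ∫_0^∞ p_t(x-y) dt`. -/
noncomputable def cN (n : ℕ) : ℝ≥0∞ :=
  (∫⁻ t in Ioi (0 : ℝ), ENNReal.ofReal
    ((4 * Real.pi * t) ^ (-(n : ℝ) / 2) * Real.exp (-1 / (4 * t))))⁻¹

/-- `P_s φ` for real-valued `φ`. -/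
noncomputable def PR {n : ℕ} (s : ℝ) (φ : Sp n → ℝ) (y : Sp n) : ℝ := ∫ z, hk s (y - z) * φ z

/-- `T_s φ = (P_s φ - φ)/(c s)`. -/
noncomputable def TT {n : ℕ} (s : ℝ) (φ : Sp n → ℝ) (y : Sp n) : ℝ :=
  (PR s φ y - φ y) / ((cN n).toReal * s)

/-- Difference of two potentials (real valued; junk value where a potential is `∞`). -/
noncomputable def dw {n : ℕ} (μp μm : Measure (Sp n)) (y : Sp n) : ℝ :=
  (pot μp y).toReal - (pot μm y).toReal

/-- Indicator of `(0,∞)`. -/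
noncomputable def ind (t : ℝ) : ℝ := if 0 < t then 1 else 0

/-- Nonnegative `C²` test functions of compact support. -/
structure IsTest {n : ℕ} (φ : Sp n → ℝ) : Prop where
  smooth : ContDiff ℝ 2 φ
  cpt : HasCompactSupport φ
  nonneg : ∀ y, 0 ≤ φ y

/-- `F` is continuous at `z` in the mean with respect to the kernels `K_s/s`. -/
def MC {n : ℕ} (F : Sp n → ℝ) (z : Sp n) : Prop :=
  Tendsto (fun s : ℝ => (∫⁻ y, KK s (y - z) * ENNReal.ofReal |F y - F z|) / ENNReal.ofReal s)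
    (𝓝[>] 0) (𝓝 0)

/-- What is used about the harmonic measure `ω` with pole `x`. -/
structure Pair {n : ℕ} (x : Sp n) (ω : Measure (Sp n)) : Prop where
  fin : IsFiniteMeasure ω
  noatom : ∀ z, ω {z} = 0
  pot_le : ∀ y, pot ω y ≤ kernel x y
  pot_eq : ∀ᵐ y ∂ω, pot ω y = kernel x y

/-- The (real valued) Green function `g = N(x,·) - pot ω`. -/
noncomputable def gf {n : ℕ} (x : Sp n) (ω : Measure (Sp n)) (y : Sp n) : ℝ :=
  (kernel x y).toReal - (pot ω y).toReal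

end TM291
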