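import Pool.Agent.Lib.MP_291eb9_an.HalfB

open MeasureTheory Set Filter Topology
open scoped ENNReal NNReal

namespace TM291

variable {n : ℕ}

/-- translates of a Lebesgue-null set are `ν`-null for a.e. translation. -/
theorem ae_null_of (ν : Measure (Sp n)) [IsFiniteMeasure ν] {N : Set (Sp n)}
    (hN : volume N = 0) (T : Sp n → Sp n → Sp n)
    (hT : Measurable (fun p : Sp n × Sp n => T p.1 p.2))
    (hmp : ∀ z, MeasurePreserving (T z) (volume : Measure (Sp n)) volume) :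
    ∀ᵐ v : Sp n, ν {z | T z v ∈ N} = 0 := by
  obtain ⟨N', hNN', hN'm, hN'0⟩ := exists_measurable_superset_of_null hN
  have hm : MeasurableSet {p : Sp n × Sp n | T p.1 p.2 ∈ N'} := hT hN'm
  have h1 : (ν.prod volume) {p : Sp n × Sp n | T p.1 p.2 ∈ N'} = 0 := by
    rw [Measure.measure_prod_null hm]
    refine Eventually.of_forall fun z => ?_
    change volume (T z ⁻¹' N') = 0
    rw [(hmp z).measure_preimage hN'm.nullMeasurableSet, hN'0]
  have hm2 : MeasurableSet {p : Sp n × Sp n | T p.2 p.1 ∈ N'} := measurable_swap hm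
  have h2 : ((volume : Measure (Sp n)).prod ν) {p : Sp n × Sp n | T p.2 p.1 ∈ N'} = 0 := by
    rw [← Measure.prod_swap, Measure.map_apply measurable_swap hm2]
    exact h1
  rw [Measure.measure_prod_null hm2] at h2
  filter_upwards [h2] with v hv
  exact measure_mono_null (t := {z | T z v ∈ N'}) (fun z (hz : T z v ∈ N) => hNN' hz) hv

theorem ind_sum_le {a b c : ℝ} (h1 : ¬ (0 < a ∧ 0 < b)) (h2 : ¬ (0 < a ∧ 0 < c))
    (h3 : ¬ (0 < b ∧ 0 < c)) : ind a + ind b + ind c ≤ 1 := by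
  unfold ind
  by_cases ha : 0 < a
  · have hb : ¬ 0 < b := fun h => h1 ⟨ha, h⟩
    have hc : ¬ 0 < c := fun h => h2 ⟨ha, h⟩
    simp [ha, hb, hc]
  · by_cases hb : 0 < b
    · have hc : ¬ 0 < c := fun h => h3 ⟨hb, h⟩
      simp [ha, hb, hc]
    · by_cases hc : 0 < c <;> simp [ha, hb, hc]

/-- `ν = ω₀ ⊓ ω₁ ⊓ ω₂ = q_j ω_j`; `half` for `q_j`, sum over `j`, a.e. disjointness + Fubini. -/
theorem inf_zero (hn : 3 ≤ n) (x : Fin 3 → Sp n) (ω : Fin 3 → Measure (Sp n))
    (hp : ∀ j, Pair (x j) (ω j))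
    (hdisj : ∀ j k, j ≠ k →
      volume ({y | 0 < gf (x j) (ω j) y} ∩ {y | 0 < gf (x k) (ω k) y}) = 0) :
    ω 0 ⊓ ω 1 ⊓ ω 2 = 0 := by
  set ν := ω 0 ⊓ ω 1 ⊓ ω 2 with hν
  have hf : ∀ j, IsFiniteMeasure (ω j) := fun j => (hp j).fin
  have hle : ∀ j, ν ≤ ω j := by
    intro j
    fin_cases j
    · exact inf_le_left.trans inf_le_left
    · exact inf_le_left.trans inf_le_right
    · exact inf_le_right
  have : IsFiniteMeasure ν := isFiniteMeasure_of_le _ (hle 0)
  by_contra hne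
  have hpos : 0 < (ν univ).toReal := by
    rw [ENNReal.toReal_pos_iff]
    exact ⟨pos_iff_ne_zero.2 (fun h => hne (Measure.measure_univ_eq_zero.1 h)),
      measure_lt_top ν _⟩
  set m := (ν univ).toReal with hm
  have hac : ∀ j, ν ≪ ω j := fun j => Measure.absolutelyContinuous_of_le (hle j)
  have hhalf : ∀ j, ∃ ρ > 0, ∀ v : Sp n, v ≠ 0 → ‖v‖ < ρ → ω j ⟂ₘ (ω j).map (fun z => z - v) →
      ∫ z, (1 - ind (gf (x j) (ω j) (z + v)) - ind (gf (x j) (ω j) (z - v))) ∂ν ≤ m / 4 := by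
    intro j
    have := hf j
    obtain ⟨ρ, hρ, h⟩ := half hn (hp j) (q := fun z => (ν.rnDeriv (ω j) z).toReal)
      Measure.integrable_toReal_rnDeriv (fun z => ENNReal.toReal_nonneg) (η := m / 4)
      (by positivity)
    refine ⟨ρ, hρ, fun v hv0 hv hs => ?_⟩
    have := h v hv0 hv hs
    have hL : ν.HaveLebesgueDecomposition (ω j) :=
      Measure.haveLebesgueDecomposition_of_sigmaFinite _ _
    have e := integral_rnDeriv_smul (hac j)
      (f := fun z => 1 - ind (gf (x j) (ω j) (z + v)) - ind (gf (x j) (ω j) (z - v)))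
    simp only [smul_eq_mul] at e
    rwa [e] at this
  choose ρ hρ hρ' using hhalf
  have hgood : ∀ j, ∀ᵐ v : Sp n, ω j ⟂ₘ (ω j).map (fun z => z - v) := fun j => by
    have := hf j
    exact ae_good (sing hn (hp j))
  have hne0 : ∀ᵐ v : Sp n, v ≠ 0 := by
    have : Nontrivial (Sp n) := by
      have : Nonempty (Fin n) := ⟨⟨0, by omega⟩⟩
      infer_instance
    rw [ae_iff]
    simp
  have hplus : ∀ j k, j ≠ k → ∀ᵐ v : Sp n, ν {z | z + v ∈
      ({y | 0 < gf (x j) (ω j) y} ∩ {y | 0 < gf (x k) (ω k) y})} = 0 := fun j k hjk =>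
    ae_null_of ν (hdisj j k hjk) (fun z v => z + v) (by fun_prop)
      (fun z => measurePreserving_add_left volume z)
  have hminus : ∀ j k, j ≠ k → ∀ᵐ v : Sp n, ν {z | z - v ∈
      ({y | 0 < gf (x j) (ω j) y} ∩ {y | 0 < gf (x k) (ω k) y})} = 0 := fun j k hjk =>
    ae_null_of ν (hdisj j k hjk) (fun z v => z - v) (by fun_prop)
      (fun z => Measure.measurePreserving_sub_left volume z)
  have hall : ∀ᵐ v : Sp n, v ≠ 0 ∧ (∀ j, ω j ⟂ₘ (ω j).map (fun z => z - v)) ∧
      (∀ j k, j ≠ k → ν {z | z + v ∈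
        ({y | 0 < gf (x j) (ω j) y} ∩ {y | 0 < gf (x k) (ω k) y})} = 0) ∧
      (∀ j k, j ≠ k → ν {z | z - v ∈
        ({y | 0 < gf (x j) (ω j) y} ∩ {y | 0 < gf (x k) (ω k) y})} = 0) := by
    have h1 : ∀ᵐ v : Sp n, ∀ j, ω j ⟂ₘ (ω j).map (fun z => z - v) := ae_all_iff.2 hgood
    have h2 : ∀ᵐ v : Sp n, ∀ j k, j ≠ k → ν {z | z + v ∈
        ({y | 0 < gf (x j) (ω j) y} ∩ {y | 0 < gf (x k) (ω k) y})} = 0 := by
      rw [ae_all_iff]; intro j; rw [ae_all_iff]; intro k
      by_cases hjk : j = k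
      · exact Eventually.of_forall fun v h => absurd hjk h
      · filter_upwards [hplus j k hjk] with v hv _ using hv
    have h3 : ∀ᵐ v : Sp n, ∀ j k, j ≠ k → ν {z | z - v ∈
        ({y | 0 < gf (x j) (ω j) y} ∩ {y | 0 < gf (x k) (ω k) y})} = 0 := by
      rw [ae_all_iff]; intro j; rw [ae_all_iff]; intro k
      by_cases hjk : j = k
      · exact Eventually.of_forall fun v h => absurd hjk h
      · filter_upwards [hminus j k hjk] with v hv _ using hv
    filter_upwards [hne0, h1, h2, h3] with v a b c d using ⟨a, b, c, d⟩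
  set r := min (ρ 0) (min (ρ 1) (ρ 2)) with hr
  have hrpos : 0 < r := lt_min (hρ 0) (lt_min (hρ 1) (hρ 2))
  have hrle : ∀ j, r ≤ ρ j := by
    intro j
    fin_cases j
    · exact min_le_left _ _
    · exact (min_le_right _ _).trans (min_le_left _ _)
    · exact (min_le_right _ _).trans (min_le_right _ _)
  obtain ⟨v, ⟨hv0, hvs, hvp, hvm⟩, hvball⟩ :=
    (Measure.dense_of_ae hall).exists_mem_open Metric.isOpen_ball
      ⟨(0 : Sp n), Metric.mem_ball_self hrpos⟩
  rw [mem_ball_zero_iff] at hvball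
  set F : Fin 3 → Sp n → ℝ := fun j z =>
    1 - ind (gf (x j) (ω j) (z + v)) - ind (gf (x j) (ω j) (z - v)) with hF
  have hgm : ∀ j, Measurable (gf (x j) (ω j)) := fun j => by
    have := hf j
    exact measurable_gf _ _
  have hFm : ∀ j, Measurable (F j) := fun j =>
    (measurable_const.sub (measurable_ind.comp ((hgm j).comp (measurable_id.add_const v)))).sub
      (measurable_ind.comp ((hgm j).comp (measurable_id.sub_const v)))
  have hind : ∀ t, 0 ≤ ind t ∧ ind t ≤ 1 := fun t => by unfold ind; split_ifs <;> norm_num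
  have hFi : ∀ j, Integrable (F j) ν := fun j => by
    refine Integrable.of_bound (hFm j).aestronglyMeasurable 1 (Eventually.of_forall fun z => ?_)
    have h1 := hind (gf (x j) (ω j) (z + v))
    have h2 := hind (gf (x j) (ω j) (z - v))
    rw [Real.norm_eq_abs, abs_le]
    simp only [hF]
    constructor <;> linarith [h1.1, h1.2, h2.1, h2.2]
  have hI : ∀ j, ∫ z, F j z ∂ν ≤ m / 4 := fun j =>
    hρ' j v hv0 (hvball.trans_le (hrle j)) (hvs j)
  have hsum : ∫ z, (F 0 z + F 1 z + F 2 z) ∂ν = (∫ z, F 0 z ∂ν) + (∫ z, F 1 z ∂ν) +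
      ∫ z, F 2 z ∂ν := by
    have h01 : Integrable (fun z => F 0 z + F 1 z) ν := (hFi 0).add (hFi 1)
    rw [integral_add h01 (hFi 2), integral_add (hFi 0) (hFi 1)]
  have hzp : ∀ j k, j ≠ k → ∀ᵐ z ∂ν, ¬ (0 < gf (x j) (ω j) (z + v) ∧
      0 < gf (x k) (ω k) (z + v)) := by
    intro j k hjk
    rw [ae_iff]
    simp only [not_not]
    exact hvp j k hjk
  have hzm : ∀ j k, j ≠ k → ∀ᵐ z ∂ν, ¬ (0 < gf (x j) (ω j) (z - v) ∧
      0 < gf (x k) (ω k) (z - v)) := by
    intro j k hjk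
    rw [ae_iff]
    simp only [not_not]
    exact hvm j k hjk
  have hge : ∀ᵐ z ∂ν, (1 : ℝ) ≤ F 0 z + F 1 z + F 2 z := by
    filter_upwards [hzp 0 1 (by decide), hzp 0 2 (by decide), hzp 1 2 (by decide),
      hzm 0 1 (by decide), hzm 0 2 (by decide), hzm 1 2 (by decide)] with z a1 a2 a3 b1 b2 b3
    have h1 := ind_sum_le a1 a2 a3
    have h2 := ind_sum_le b1 b2 b3
    simp only [hF]
    linarith
  have hlow : m ≤ ∫ z, (F 0 z + F 1 z + F 2 z) ∂ν := by
    have : ∫ _z, (1 : ℝ) ∂ν ≤ ∫ z, (F 0 z + F 1 z + F 2 z) ∂ν :=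
      integral_mono_ae (integrable_const _) (((hFi 0).add (hFi 1)).add (hFi 2)) hge
    rw [integral_const, smul_eq_mul, mul_one] at this
    exact this
  have h0 := hI 0
  have h1 := hI 1
  have h2 := hI 2
  rw [hsum] at hlow
  linarith

end TM291
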