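import Pool.Agent.Lib.MP_291eb9_an.Defs

open MeasureTheory Set Filter Topology
open scoped ENNReal NNReal

namespace TM291

variable {n : ℕ}

theorem hk_pos {s : ℝ} (hs : 0 < s) (y : Sp n) : 0 < hk s y := by
  unfold hk
  positivity

theorem hk_neg (s : ℝ) (y : Sp n) : hk s (-y) = hk s y := by
  simp [hk]

theorem hk_sub_comm (s : ℝ) (y z : Sp n) : hk s (y - z) = hk s (z - y) := by
  rw [← hk_neg, neg_sub]

theorem continuous_hk (s : ℝ) : Continuous (hk s : Sp n → ℝ) := by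
  unfold hk
  fun_prop

theorem measurable_hk_uncurry : Measurable (fun p : ℝ × Sp n => hk p.1 p.2) := by
  unfold hk
  fun_prop

theorem measurable_hkE_uncurry : Measurable (fun p : ℝ × Sp n => hkE p.1 p.2) := by
  unfold hkE
  exact measurable_hk_uncurry.ennreal_ofReal

theorem hk_le {s : ℝ} (hs : 0 < s) (y : Sp n) : hk s y ≤ (4 * Real.pi * s) ^ (-(n : ℝ) / 2) := by
  unfold hk
  have h1 : Real.exp (-‖y‖ ^ 2 / (4 * s)) ≤ 1 := by
    rw [Real.exp_le_one_iff]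
    have : 0 ≤ ‖y‖ ^ 2 / (4 * s) := by positivity
    rw [neg_div]; linarith
  have h0 : (0 : ℝ) ≤ (4 * Real.pi * s) ^ (-(n : ℝ) / 2) := by positivity
  calc _ ≤ (4 * Real.pi * s) ^ (-(n : ℝ) / 2) * 1 := mul_le_mul_of_nonneg_left h1 h0
    _ = _ := mul_one _

theorem hk_eq_gauss {s : ℝ} (hs : 0 < s) (y : Sp n) :
    hk s y = (4 * Real.pi * s) ^ (-(n : ℝ) / 2) * Real.exp (-(1 / (4 * s)) * ‖y‖ ^ 2) := by
  unfold hk
  congr 2
  field_simp

/-- use `GaussianFourier.integral_rexp_neg_mul_sq_norm`. -/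
theorem integral_hk {s : ℝ} (hs : 0 < s) : ∫ y : Sp n, hk s y = 1 := by
  simp_rw [hk_eq_gauss hs]
  rw [integral_const_mul, GaussianFourier.integral_rexp_neg_mul_sq_norm (by positivity)]
  have e1 : Real.pi / (1 / (4 * s)) = 4 * Real.pi * s := by field_simp
  rw [e1, ← Real.rpow_add (by positivity)]
  have e2 : -(n : ℝ) / 2 + (Module.finrank ℝ (Sp n) : ℝ) / 2 = 0 := by
    simp; ring
  rw [e2, Real.rpow_zero]

theorem integrable_hk {s : ℝ} (hs : 0 < s) : Integrable (hk s : Sp n → ℝ) := by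
  by_contra h
  have := integral_undef h
  rw [integral_hk hs] at this
  exact one_ne_zero this

theorem lintegral_hkE {s : ℝ} (hs : 0 < s) : ∫⁻ y : Sp n, hkE s y = 1 := by
  unfold hkE
  rw [← ofReal_integral_eq_lintegral_ofReal (integrable_hk hs)
    (ae_of_all _ fun y => (hk_pos hs y).le), integral_hk hs, ENNReal.ofReal_one]

/-- `p_s(y) = 2^{n/2} p_{2s}(y) e^{-|y|²/(8s)}`. -/
theorem hk_eq_double {s : ℝ} (hs : 0 < s) (y : Sp n) :
    hk s y = 2 ^ ((n : ℝ) / 2) * hk (2 * s) y * Real.exp (-‖y‖ ^ 2 / (8 * s)) := by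
  unfold hk
  have e1 : (4 * Real.pi * (2 * s)) ^ (-(n : ℝ) / 2)
      = (2 : ℝ) ^ (-(n : ℝ) / 2) * (4 * Real.pi * s) ^ (-(n : ℝ) / 2) := by
    rw [← Real.mul_rpow (by positivity) (by positivity)]
    congr 1; ring
  have e2 : (2 : ℝ) ^ ((n : ℝ) / 2) * (2 : ℝ) ^ (-(n : ℝ) / 2) = 1 := by
    rw [← Real.rpow_add (by norm_num)]
    have : (n : ℝ) / 2 + -(n : ℝ) / 2 = 0 := by ring
    rw [this, Real.rpow_zero]
  have e3 : Real.exp (-‖y‖ ^ 2 / (4 * s))
      = Real.exp (-‖y‖ ^ 2 / (4 * (2 * s))) * Real.exp (-‖y‖ ^ 2 / (8 * s)) := by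
    rw [← Real.exp_add]
    congr 1
    field_simp
    ring
  rw [e1, e3]
  calc _ = (1 : ℝ) * (4 * Real.pi * s) ^ (-(n : ℝ) / 2) *
        (Real.exp (-‖y‖ ^ 2 / (4 * (2 * s))) * Real.exp (-‖y‖ ^ 2 / (8 * s))) := by ring
    _ = _ := by rw [← e2]; ring

/-- `p_{4s}(z-u) ≤ 2^{n/2} p_{8s}(y-u) e^{|y-z|²/(16s)}`. -/
theorem hk_harnack {s : ℝ} (hs : 0 < s) (y z u : Sp n) :
    hk (4 * s) (z - u) ≤
      2 ^ ((n : ℝ) / 2) * hk (8 * s) (y - u) * Real.exp (‖y - z‖ ^ 2 / (16 * s)) := by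
  unfold hk
  have e1 : (4 * Real.pi * (8 * s)) ^ (-(n : ℝ) / 2)
      = (2 : ℝ) ^ (-(n : ℝ) / 2) * (4 * Real.pi * (4 * s)) ^ (-(n : ℝ) / 2) := by
    rw [← Real.mul_rpow (by positivity) (by positivity)]
    congr 1; ring
  have e2 : (2 : ℝ) ^ ((n : ℝ) / 2) * (2 : ℝ) ^ (-(n : ℝ) / 2) = 1 := by
    rw [← Real.rpow_add (by norm_num)]
    have : (n : ℝ) / 2 + -(n : ℝ) / 2 = 0 := by ring
    rw [this, Real.rpow_zero]
  rw [e1]
  have h1 : ‖y - u‖ ^ 2 ≤ 2 * ‖z - u‖ ^ 2 + 2 * ‖y - z‖ ^ 2 := by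
    have h := norm_add_le (y - z) (z - u)
    rw [sub_add_sub_cancel] at h
    have h' : ‖y - u‖ ^ 2 ≤ (‖y - z‖ + ‖z - u‖) ^ 2 := by gcongr
    nlinarith [sq_nonneg (‖y - z‖ - ‖z - u‖)]
  have h2 : Real.exp (-‖z - u‖ ^ 2 / (4 * (4 * s))) ≤
      Real.exp (-‖y - u‖ ^ 2 / (4 * (8 * s))) * Real.exp (‖y - z‖ ^ 2 / (16 * s)) := by
    rw [← Real.exp_add, Real.exp_le_exp]
    have e4 : -‖y - u‖ ^ 2 / (4 * (8 * s)) + ‖y - z‖ ^ 2 / (16 * s) - -‖z - u‖ ^ 2 / (4 * (4 * s))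
        = (2 * ‖z - u‖ ^ 2 + 2 * ‖y - z‖ ^ 2 - ‖y - u‖ ^ 2) / (32 * s) := by
      field_simp
      ring
    have : 0 ≤ (2 * ‖z - u‖ ^ 2 + 2 * ‖y - z‖ ^ 2 - ‖y - u‖ ^ 2) / (32 * s) := by
      apply div_nonneg _ (by positivity)
      linarith
    linarith
  have h0 : (0 : ℝ) ≤ (4 * Real.pi * (4 * s)) ^ (-(n : ℝ) / 2) := by positivity
  calc (4 * Real.pi * (4 * s)) ^ (-(n : ℝ) / 2) * Real.exp (-‖z - u‖ ^ 2 / (4 * (4 * s)))
      ≤ (4 * Real.pi * (4 * s)) ^ (-(n : ℝ) / 2) *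
        (Real.exp (-‖y - u‖ ^ 2 / (4 * (8 * s))) * Real.exp (‖y - z‖ ^ 2 / (16 * s))) :=
        mul_le_mul_of_nonneg_left h2 h0
    _ = 1 * (4 * Real.pi * (4 * s)) ^ (-(n : ℝ) / 2) *
        (Real.exp (-‖y - u‖ ^ 2 / (4 * (8 * s))) * Real.exp (‖y - z‖ ^ 2 / (16 * s))) := by ring
    _ = _ := by rw [← e2]; ring

theorem hk_mul_hk {s t : ℝ} (hs : 0 < s) (ht : 0 < t) (y z u : Sp n) :
    hk s (y - z) * hk t (z - u) =
      hk (s + t) (y - u) * hk (s * t / (s + t)) (z - ((t / (s + t)) • y + (s / (s + t)) • u)) := by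
  have hst : 0 < s + t := by positivity
  unfold hk
  have e1 : (4 * Real.pi * s) ^ (-(n : ℝ) / 2) * (4 * Real.pi * t) ^ (-(n : ℝ) / 2)
      = (4 * Real.pi * (s + t)) ^ (-(n : ℝ) / 2) *
        (4 * Real.pi * (s * t / (s + t))) ^ (-(n : ℝ) / 2) := by
    rw [← Real.mul_rpow (by positivity) (by positivity),
      ← Real.mul_rpow (by positivity) (by positivity)]
    congr 1
    field_simp
  have e2 : Real.exp (-‖y - z‖ ^ 2 / (4 * s)) * Real.exp (-‖z - u‖ ^ 2 / (4 * t))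
      = Real.exp (-‖y - u‖ ^ 2 / (4 * (s + t))) *
        Real.exp (-‖z - ((t / (s + t)) • y + (s / (s + t)) • u)‖ ^ 2
          / (4 * (s * t / (s + t)))) := by
    rw [← Real.exp_add, ← Real.exp_add]
    congr 1
    -- put a = y - z, b = z - u
    have hyu : y - u = (y - z) + (z - u) := by abel
    have hm : z - ((t / (s + t)) • y + (s / (s + t)) • u)
        = (s / (s + t)) • (z - u) - (t / (s + t)) • (y - z) := by
      have h1 : (1 : ℝ) = s / (s + t) + t / (s + t) := by field_simp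
      have h2 : z = (s / (s + t)) • z + (t / (s + t)) • z := by
        rw [← add_smul, ← h1, one_smul]
      calc z - ((t / (s + t)) • y + (s / (s + t)) • u)
          = ((s / (s + t)) • z + (t / (s + t)) • z)
            - ((t / (s + t)) • y + (s / (s + t)) • u) := by rw [← h2]
        _ = _ := by rw [smul_sub, smul_sub]; abel
    rw [hyu, hm, norm_add_sq_real,
      norm_sub_sq_real ((s / (s + t)) • (z - u)) ((t / (s + t)) • (y - z))]
    simp only [norm_smul, inner_smul_left, inner_smul_right, Real.norm_eq_abs, mul_pow, sq_abs,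
      conj_trivial]
    rw [real_inner_comm (y - z) (z - u)]
    field_simp
    ring
  calc _ = ((4 * Real.pi * s) ^ (-(n : ℝ) / 2) * (4 * Real.pi * t) ^ (-(n : ℝ) / 2)) *
        (Real.exp (-‖y - z‖ ^ 2 / (4 * s)) * Real.exp (-‖z - u‖ ^ 2 / (4 * t))) := by ring
    _ = _ := by rw [e1, e2]; ring

/-- Chapman-Kolmogorov (complete the square, translate, `integral_rexp_neg_mul_sq_norm`). -/
theorem hkE_semigroup {s t : ℝ} (hs : 0 < s) (ht : 0 < t) (y u : Sp n) :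
    ∫⁻ z, hkE s (y - z) * hkE t (z - u) = hkE (s + t) (y - u) := by
  have hst : 0 < s * t / (s + t) := by positivity
  have h1 : ∀ z : Sp n, hkE s (y - z) * hkE t (z - u) = hkE (s + t) (y - u) *
      hkE (s * t / (s + t)) (z - ((t / (s + t)) • y + (s / (s + t)) • u)) := by
    intro z
    unfold hkE
    rw [← ENNReal.ofReal_mul (hk_pos hs _).le, ← ENNReal.ofReal_mul (hk_pos (by positivity) _).le,
      hk_mul_hk hs ht]
  simp_rw [h1]
  rw [lintegral_const_mul' _ _ (by unfold hkE; exact ENNReal.ofReal_ne_top),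
    lintegral_sub_right_eq_self (fun z => hkE (s * t / (s + t)) z), lintegral_hkE hst, mul_one]

/-- Gaussian tail bound, from `hk_eq_double`. -/
theorem hk_tail {s L : ℝ} (hs : 0 < s) (hL : 0 ≤ L) :
    ∫⁻ y in {y : Sp n | L ≤ ‖y‖}, hkE s y ≤
      ENNReal.ofReal (2 ^ ((n : ℝ) / 2) * Real.exp (-L ^ 2 / (8 * s))) := by
  have hm : MeasurableSet {y : Sp n | L ≤ ‖y‖} := measurableSet_le measurable_const (by fun_prop)
  calc ∫⁻ y in {y : Sp n | L ≤ ‖y‖}, hkE s y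
      ≤ ∫⁻ y in {y : Sp n | L ≤ ‖y‖},
          ENNReal.ofReal (2 ^ ((n : ℝ) / 2) * Real.exp (-L ^ 2 / (8 * s))) * hkE (2 * s) y := by
        apply setLIntegral_mono' hm
        intro y hy
        unfold hkE
        rw [← ENNReal.ofReal_mul (by positivity)]
        apply ENNReal.ofReal_le_ofReal
        rw [hk_eq_double hs]
        have h1 : Real.exp (-‖y‖ ^ 2 / (8 * s)) ≤ Real.exp (-L ^ 2 / (8 * s)) := by
          rw [Real.exp_le_exp]
          have : L ^ 2 ≤ ‖y‖ ^ 2 := by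
            have : L ≤ ‖y‖ := hy
            gcongr
          gcongr
        have h2 := (hk_pos (n := n) (show 0 < 2 * s by positivity) y).le
        have h3 : (0 : ℝ) ≤ 2 ^ ((n : ℝ) / 2) * hk (2 * s) y := by positivity
        calc _ ≤ 2 ^ ((n : ℝ) / 2) * hk (2 * s) y * Real.exp (-L ^ 2 / (8 * s)) :=
              mul_le_mul_of_nonneg_left h1 h3
          _ = _ := by ring
    _ ≤ ∫⁻ y,
          ENNReal.ofReal (2 ^ ((n : ℝ) / 2) * Real.exp (-L ^ 2 / (8 * s))) * hkE (2 * s) y :=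
        setLIntegral_le_lintegral _ _
    _ = _ := by
        rw [lintegral_const_mul' _ _ ENNReal.ofReal_ne_top, lintegral_hkE (by positivity), mul_one]

/-- second moment, from `hk_eq_double` and `x e^{-x} ≤ 1`. -/
theorem hk_moment {s : ℝ} (hs : 0 < s) :
    Integrable (fun y : Sp n => hk s y * ‖y‖ ^ 2) ∧
      ∫ y : Sp n, hk s y * ‖y‖ ^ 2 ≤ 8 * 2 ^ ((n : ℝ) / 2) * s := by
  have hb : ∀ y : Sp n, hk s y * ‖y‖ ^ 2 ≤ (8 * 2 ^ ((n : ℝ) / 2) * s) * hk (2 * s) y := by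
    intro y
    rw [hk_eq_double hs]
    have h1 : ‖y‖ ^ 2 * Real.exp (-‖y‖ ^ 2 / (8 * s)) ≤ 8 * s := by
      have h2 := Real.add_one_le_exp (‖y‖ ^ 2 / (8 * s))
      have h3 : ‖y‖ ^ 2 / (8 * s) ≤ Real.exp (‖y‖ ^ 2 / (8 * s)) := by linarith
      have h4 : ‖y‖ ^ 2 ≤ 8 * s * Real.exp (‖y‖ ^ 2 / (8 * s)) := by
        rw [div_le_iff₀ (by positivity)] at h3
        linarith
      have h5 : Real.exp (‖y‖ ^ 2 / (8 * s)) * Real.exp (-‖y‖ ^ 2 / (8 * s)) = 1 := by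
        rw [← Real.exp_add]
        have : ‖y‖ ^ 2 / (8 * s) + -‖y‖ ^ 2 / (8 * s) = 0 := by ring
        rw [this, Real.exp_zero]
      calc ‖y‖ ^ 2 * Real.exp (-‖y‖ ^ 2 / (8 * s))
          ≤ (8 * s * Real.exp (‖y‖ ^ 2 / (8 * s))) * Real.exp (-‖y‖ ^ 2 / (8 * s)) :=
            mul_le_mul_of_nonneg_right h4 (Real.exp_pos _).le
        _ = 8 * s * (Real.exp (‖y‖ ^ 2 / (8 * s)) * Real.exp (-‖y‖ ^ 2 / (8 * s))) := by ring
        _ = 8 * s := by rw [h5, mul_one]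
    have h2 := (hk_pos (n := n) (show 0 < 2 * s by positivity) y).le
    have h3 : (0 : ℝ) ≤ 2 ^ ((n : ℝ) / 2) * hk (2 * s) y := by positivity
    calc _ = (2 ^ ((n : ℝ) / 2) * hk (2 * s) y) * (‖y‖ ^ 2 * Real.exp (-‖y‖ ^ 2 / (8 * s))) := by
          ring
      _ ≤ (2 ^ ((n : ℝ) / 2) * hk (2 * s) y) * (8 * s) := mul_le_mul_of_nonneg_left h1 h3
      _ = _ := by ring
  have hI : Integrable (fun y : Sp n => (8 * 2 ^ ((n : ℝ) / 2) * s) * hk (2 * s) y) :=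
    (integrable_hk (by positivity)).const_mul _
  have hi : Integrable (fun y : Sp n => hk s y * ‖y‖ ^ 2) := by
    refine hI.mono' ?_ (ae_of_all _ fun y => ?_)
    · exact ((continuous_hk s).mul (by fun_prop)).aestronglyMeasurable
    · rw [Real.norm_of_nonneg (mul_nonneg (hk_pos hs y).le (by positivity))]
      exact hb y
  refine ⟨hi, ?_⟩
  calc _ ≤ ∫ y : Sp n, (8 * 2 ^ ((n : ℝ) / 2) * s) * hk (2 * s) y :=
        integral_mono hi hI hb
    _ = _ := by rw [integral_const_mul, integral_hk (by positivity), mul_one]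

end TM291
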