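import Pool.Agent.Lib.MP_291eb9_an.Pot

open MeasureTheory Set Filter Topology
open scoped ENNReal NNReal

namespace TM291

variable {n : ℕ}

theorem measurable_gf (x : Sp n) (ω : Measure (Sp n)) [SFinite ω] : Measurable (gf x ω) := by
  unfold gf
  exact ((measurable_kernel_uncurry.comp measurable_prodMk_left).ennreal_toReal).sub
    (measurable_pot ω).ennreal_toReal

theorem measurable_ind : Measurable ind := by
  unfold ind
  exact Measurable.ite measurableSet_Ioi measurable_const measurable_const

/-- continuity of translations in `L¹` on a ball. -/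
theorem trans_cont {g : Sp n → ℝ} (hg : Measurable g)
    (hint : ∀ R : ℝ, IntegrableOn g (Metric.ball (0 : Sp n) R)) (R : ℝ) {η : ℝ} (hη : 0 < η) :
    ∃ ρ > 0, ∀ v : Sp n, ‖v‖ < ρ →
      ∫ y in Metric.ball (0 : Sp n) R, |g (y + v) - g y| ≤ η := by
  set G : Sp n → ℝ := (Metric.ball (0 : Sp n) (R + 1)).indicator g with hG
  have hGi : Integrable G := (hint (R + 1)).integrable_indicator measurableSet_ball
  obtain ⟨f, hfc, hfG, hfcont, hfi⟩ :=
    hGi.exists_hasCompactSupport_integral_sub_le (ε := η / 4) (by positivity)
  set V := (volume (Metric.ball (0 : Sp n) R)).toReal with hV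
  have hV0 : 0 ≤ V := ENNReal.toReal_nonneg
  have huc : UniformContinuous f := hfc.uniformContinuous_of_continuous hfcont
  obtain ⟨ρ, hρ, hρf⟩ := Metric.uniformContinuous_iff.1 huc (η / (2 * (V + 1))) (by positivity)
  refine ⟨min ρ 1, lt_min hρ one_pos, fun v hv => ?_⟩
  have hv1 : ‖v‖ < 1 := hv.trans_le (min_le_right _ _)
  have hvρ : ‖v‖ < ρ := hv.trans_le (min_le_left _ _)
  have hGfi : Integrable (fun y => |G y - f y|) := (hGi.sub hfi).abs
  have hGfi' : Integrable (fun y => |G (y + v) - f (y + v)|) := hGfi.comp_add_right v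
  have hpt : ∀ y ∈ Metric.ball (0 : Sp n) R, |g (y + v) - g y| ≤
      |G (y + v) - f (y + v)| + η / (2 * (V + 1)) + |G y - f y| := by
    intro y hy
    rw [mem_ball_zero_iff] at hy
    have e1 : G y = g y := indicator_of_mem (by rw [mem_ball_zero_iff]; linarith) g
    have e2 : G (y + v) = g (y + v) := indicator_of_mem (by
      rw [mem_ball_zero_iff]; linarith [norm_add_le y v]) g
    have h3 : |f (y + v) - f y| ≤ η / (2 * (V + 1)) := by
      have := hρf (a := y + v) (b := y) (by rw [dist_eq_norm]; simpa using hvρ)
      rw [Real.dist_eq] at this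
      exact this.le
    rw [← e1, ← e2]
    calc |G (y + v) - G y| = |(G (y + v) - f (y + v)) + (f (y + v) - f y) - (G y - f y)| := by
          congr 1; ring
      _ ≤ |(G (y + v) - f (y + v)) + (f (y + v) - f y)| + |G y - f y| := abs_sub _ _
      _ ≤ |G (y + v) - f (y + v)| + |f (y + v) - f y| + |G y - f y| := by
          gcongr; exact abs_add_le _ _
      _ ≤ _ := by gcongr
  have hconst : IntegrableOn (fun _ : Sp n => η / (2 * (V + 1))) (Metric.ball (0 : Sp n) R) :=
    integrableOn_const measure_ball_lt_top.ne
  have hlhs : IntegrableOn (fun y => |g (y + v) - g y|) (Metric.ball (0 : Sp n) R) := by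
    refine Integrable.mono' ((hGfi'.integrableOn.add hconst).add hGfi.integrableOn) ?_ ?_
    · exact ((hg.comp (measurable_id.add_const v)).sub hg).abs.aestronglyMeasurable
    · refine (ae_restrict_iff' measurableSet_ball).2 (Eventually.of_forall fun y hy => ?_)
      rw [Real.norm_eq_abs, abs_abs]
      exact hpt y hy
  calc ∫ y in Metric.ball (0 : Sp n) R, |g (y + v) - g y|
      ≤ ∫ y in Metric.ball (0 : Sp n) R,
        (|G (y + v) - f (y + v)| + η / (2 * (V + 1)) + |G y - f y|) :=
        setIntegral_mono_on hlhs ((hGfi'.integrableOn.add hconst).add hGfi.integrableOn)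
          measurableSet_ball hpt
    _ = (∫ y in Metric.ball (0 : Sp n) R, |G (y + v) - f (y + v)|) +
        (∫ y in Metric.ball (0 : Sp n) R, η / (2 * (V + 1))) +
        ∫ y in Metric.ball (0 : Sp n) R, |G y - f y| := by
        have hA : IntegrableOn (fun y => |G (y + v) - f (y + v)| + η / (2 * (V + 1)))
          (Metric.ball (0 : Sp n) R) := hGfi'.integrableOn.add hconst
        rw [integral_add hA hGfi.integrableOn, integral_add hGfi'.integrableOn hconst]
    _ ≤ η / 4 + η / 2 + η / 4 := by
        gcongr
        · calc ∫ y in Metric.ball (0 : Sp n) R, |G (y + v) - f (y + v)|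
              ≤ ∫ y, |G (y + v) - f (y + v)| :=
                setIntegral_le_integral hGfi' (Eventually.of_forall fun y => abs_nonneg _)
            _ = ∫ y, |G y - f y| := integral_add_right_eq_self (fun y => |G y - f y|) v
            _ ≤ η / 4 := hfG
        · rw [setIntegral_const, smul_eq_mul, Measure.real, ← hV]
          rw [mul_div_assoc', div_le_div_iff₀ (by positivity) (by norm_num)]
          nlinarith
        · exact (setIntegral_le_integral hGfi (Eventually.of_forall fun y => abs_nonneg _)).trans
            hfG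
    _ = η := by ring

end TM291
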