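import Pool.Agent.Lib.MP_291eb9_an.SingB

open MeasureTheory Set Filter Topology
open scoped ENNReal NNReal

namespace TM291

variable {n : ℕ}

theorem singC_meas_T {x : Sp n} {ω : Measure (Sp n)} [IsFiniteMeasure ω] :
    MeasurableSet {z : Sp n | kernel x z - pot ω z ≠ 0} := by
  have h0 := (measurable_kernel_uncurry (n := n)).comp (measurable_prodMk_left (x := x))
  have h1 : Measurable (fun z : Sp n => kernel x z) := h0
  have h2 : Measurable (fun z : Sp n => kernel x z - pot ω z) := h1.sub (measurable_pot ω)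
  exact h2 (measurableSet_singleton (0 : ℝ≥0∞)).compl

/-- at a density point of `{g = 0}`, `K_s * ω (y) / s → 0` along `s = 8^{-m}`. -/
theorem singC_KM (hn : 3 ≤ n) {x : Sp n} {ω : Measure (Sp n)} (hp : Pair x ω) {y : Sp n}
    (hyx : y ≠ x) (hy : kernel x y - pot ω y = 0)
    (hd : Tendsto (fun r => volume ({z | kernel x z - pot ω z ≠ 0} ∩ Metric.closedBall y r) /
      volume (Metric.closedBall y r)) (𝓝[>] 0) (𝓝 0)) :
    Tendsto (fun m : ℕ => KM ((1 / 8 : ℝ) ^ m) ω y / ENNReal.ofReal ((1 / 8 : ℝ) ^ m))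
      atTop (𝓝 0) := by
  have h1 := green_decay hn hp hyx hd
  have hseq : Tendsto (fun m : ℕ => (1 / 8 : ℝ) ^ m) atTop (𝓝[>] 0) := by
    rw [tendsto_nhdsWithin_iff]
    refine ⟨tendsto_pow_atTop_nhds_zero_of_lt_one (by norm_num) (by norm_num), ?_⟩
    exact Eventually.of_forall fun m => by
      show (0 : ℝ) < _
      positivity
  have h2 := (KK_point (n := n) (y := y - x) (sub_ne_zero.mpr hyx)).comp hseq
  have h3 : Tendsto (fun m : ℕ => (cN n)⁻¹ * (PP ((1 / 8 : ℝ) ^ m)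
      (fun z => kernel x z - pot ω z) y / ENNReal.ofReal ((1 / 8 : ℝ) ^ m)) +
      KK ((1 / 8 : ℝ) ^ m) (y - x) / ENNReal.ofReal ((1 / 8 : ℝ) ^ m)) atTop (𝓝 0) := by
    have h4 : Tendsto (fun m : ℕ => (cN n)⁻¹ * (PP ((1 / 8 : ℝ) ^ m)
        (fun z => kernel x z - pot ω z) y / ENNReal.ofReal ((1 / 8 : ℝ) ^ m))) atTop
        (𝓝 ((cN n)⁻¹ * 0)) :=
      ENNReal.Tendsto.const_mul h1 (Or.inr (ENNReal.inv_ne_top.mpr (cN_ne_zero hn)))
    have h5 := h4.add h2
    simpa using h5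
  refine h3.congr fun m => ?_
  have hs : (0 : ℝ) < (1 / 8 : ℝ) ^ m := by positivity
  have h6 := green_identity hn hp hs y
  rw [hy, zero_add] at h6
  have hc0 := cN_ne_zero (n := n) hn
  have hct := cN_ne_top (n := n) hn
  have h7 : KM ((1 / 8 : ℝ) ^ m) ω y = (cN n)⁻¹ * PP ((1 / 8 : ℝ) ^ m)
      (fun z => kernel x z - pot ω z) y + KK ((1 / 8 : ℝ) ^ m) (y - x) := by
    have h8 : (cN n)⁻¹ * (PP ((1 / 8 : ℝ) ^ m) (fun z => kernel x z - pot ω z) y +
        cN n * KK ((1 / 8 : ℝ) ^ m) (y - x)) = (cN n)⁻¹ * (cN n * KM ((1 / 8 : ℝ) ^ m) ω y) := by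
      rw [h6]
    rw [← mul_assoc, ENNReal.inv_mul_cancel hc0 hct, one_mul, mul_add, ← mul_assoc,
      ENNReal.inv_mul_cancel hc0 hct, one_mul] at h8
    exact h8.symm
  rw [h7, ENNReal.add_div, mul_div_assoc]

/-- lower bound for `K_s * ω`. -/
theorem singC_lower : ∃ c : ℝ, 0 < c ∧ ∀ (ω : Measure (Sp n)) (s : ℝ), 0 < s → ∀ y : Sp n,
    ENNReal.ofReal (c * s ^ (1 - (n : ℝ) / 2)) * ω (Metric.closedBall y (Real.sqrt s)) ≤
      KM s ω y := by
  obtain ⟨c, hc, hK⟩ := KK_lower (n := n)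
  refine ⟨c, hc, fun ω s hs y => ?_⟩
  unfold KM
  calc ENNReal.ofReal (c * s ^ (1 - (n : ℝ) / 2)) * ω (Metric.closedBall y (Real.sqrt s))
      = ∫⁻ _ in Metric.closedBall y (Real.sqrt s),
          ENNReal.ofReal (c * s ^ (1 - (n : ℝ) / 2)) ∂ω := by
        rw [setLIntegral_const]
    _ ≤ ∫⁻ z in Metric.closedBall y (Real.sqrt s), KK s (y - z) ∂ω := by
        refine setLIntegral_mono' Metric.isClosed_closedBall.measurableSet fun z hz => ?_
        refine hK s hs (y - z) ?_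
        rw [Metric.mem_closedBall, dist_comm, dist_eq_norm] at hz
        calc ‖y - z‖ ^ 2 ≤ Real.sqrt s ^ 2 := by
              exact pow_le_pow_left₀ (norm_nonneg _) hz 2
          _ = s := Real.sq_sqrt hs.le
    _ ≤ ∫⁻ z, KK s (y - z) ∂ω := setLIntegral_le_lintegral _ _

theorem singC_ratio (hn : 3 ≤ n) {x : Sp n} {ω : Measure (Sp n)} (hp : Pair x ω) {y : Sp n}
    (hyx : y ≠ x) (hy : kernel x y - pot ω y = 0)
    (hd : Tendsto (fun r => volume ({z | kernel x z - pot ω z ≠ 0} ∩ Metric.closedBall y r) /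
      volume (Metric.closedBall y r)) (𝓝[>] 0) (𝓝 0)) :
    Tendsto (fun m : ℕ => ω (Metric.closedBall y (Real.sqrt ((1 / 8 : ℝ) ^ m))) /
      volume (Metric.closedBall y (Real.sqrt ((1 / 8 : ℝ) ^ m)))) atTop (𝓝 0) := by
  obtain ⟨c, hc, hlow⟩ := singC_lower (n := n)
  have h1 := singC_KM hn hp hyx hy hd
  have : Nonempty (Fin n) := ⟨⟨0, by omega⟩⟩
  set v : ℝ≥0∞ := volume (Metric.ball (0 : Sp n) 1) with hv
  have hv0 : v ≠ 0 := (Metric.measure_ball_pos volume _ one_pos).ne'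
  have hvt : v ≠ ⊤ := measure_ball_lt_top.ne
  have h2 : Tendsto (fun m : ℕ => (ENNReal.ofReal c)⁻¹ * v⁻¹ *
      (KM ((1 / 8 : ℝ) ^ m) ω y / ENNReal.ofReal ((1 / 8 : ℝ) ^ m))) atTop (𝓝 0) := by
    have h3 := ENNReal.Tendsto.const_mul (a := (ENNReal.ofReal c)⁻¹ * v⁻¹) h1
      (Or.inr (ENNReal.mul_ne_top (ENNReal.inv_ne_top.mpr (ENNReal.ofReal_pos.mpr hc).ne')
        (ENNReal.inv_ne_top.mpr hv0)))
    simpa using h3
  refine tendsto_of_tendsto_of_tendsto_of_le_of_le tendsto_const_nhds h2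
    (fun _ => bot_le) fun m => ?_
  simp only
  set s : ℝ := (1 / 8 : ℝ) ^ m with hs_def
  have hs : 0 < s := by positivity
  have h4 := hlow ω s hs y
  have hvol : volume (Metric.closedBall y (Real.sqrt s)) =
      ENNReal.ofReal (s ^ ((n : ℝ) / 2)) * v := by
    rw [Measure.addHaar_closedBall volume y (Real.sqrt_nonneg s), finrank_euclideanSpace,
      Fintype.card_fin]
    congr 2
    rw [Real.sqrt_eq_rpow, ← Real.rpow_natCast, ← Real.rpow_mul hs.le]
    congr 1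
    ring
  rw [hvol]
  have hsn : 0 < s ^ ((n : ℝ) / 2) := Real.rpow_pos_of_pos hs _
  have hprod : s ^ (1 - (n : ℝ) / 2) = s * (s ^ ((n : ℝ) / 2))⁻¹ := by
    rw [Real.rpow_sub hs, Real.rpow_one, div_eq_mul_inv]
  have h5 : ENNReal.ofReal (c * s ^ (1 - (n : ℝ) / 2)) =
      ENNReal.ofReal c * ENNReal.ofReal s * (ENNReal.ofReal (s ^ ((n : ℝ) / 2)))⁻¹ := by
    rw [hprod, ENNReal.ofReal_mul hc.le, ENNReal.ofReal_mul hs.le,
      ENNReal.ofReal_inv_of_pos hsn, mul_assoc]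
  rw [h5] at h4
  set W := ω (Metric.closedBall y (Real.sqrt s))
  set A := ENNReal.ofReal (s ^ ((n : ℝ) / 2)) with hA
  have hA0 : A ≠ 0 := (ENNReal.ofReal_pos.mpr hsn).ne'
  have hAt : A ≠ ⊤ := ENNReal.ofReal_ne_top
  have hC0 : ENNReal.ofReal c ≠ 0 := (ENNReal.ofReal_pos.mpr hc).ne'
  have hCt : ENNReal.ofReal c ≠ ⊤ := ENNReal.ofReal_ne_top
  have hS0 : ENNReal.ofReal s ≠ 0 := (ENNReal.ofReal_pos.mpr hs).ne'
  have hSt : ENNReal.ofReal s ≠ ⊤ := ENNReal.ofReal_ne_top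
  calc W / (A * v) = (ENNReal.ofReal c)⁻¹ * v⁻¹ *
        ((ENNReal.ofReal c * ENNReal.ofReal s * A⁻¹ * W) / ENNReal.ofReal s) := by
        rw [div_eq_mul_inv, div_eq_mul_inv, ENNReal.mul_inv (Or.inl hA0) (Or.inl hAt)]
        calc W * (A⁻¹ * v⁻¹) = (ENNReal.ofReal c)⁻¹ * ENNReal.ofReal c *
              (ENNReal.ofReal s * (ENNReal.ofReal s)⁻¹) * (W * (A⁻¹ * v⁻¹)) := by
              rw [ENNReal.inv_mul_cancel hC0 hCt, ENNReal.mul_inv_cancel hS0 hSt, one_mul,
                one_mul]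
          _ = _ := by ring
    _ ≤ (ENNReal.ofReal c)⁻¹ * v⁻¹ * (KM s ω y / ENNReal.ofReal s) := by
        gcongr

theorem sing (hn : 3 ≤ n) {x : Sp n} {ω : Measure (Sp n)} (hp : Pair x ω) :
    ω ⟂ₘ (volume : Measure (Sp n)) := by
  have := hp.fin
  have : Nonempty (Fin n) := ⟨⟨0, by omega⟩⟩
  set T : Set (Sp n) := {z | kernel x z - pot ω z ≠ 0} with hT
  have hTm : MeasurableSet T := singC_meas_T
  have hωT : ω T = 0 := by
    have h1 : ∀ᵐ y ∂ω, y ∉ T := by
      filter_upwards [hp.pot_eq] with y hy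
      simp only [hT, mem_ofPred_eq, not_not, hy, tsub_self]
    exact measure_eq_zero_iff_ae_notMem.mpr h1
  have hrn : ∀ᵐ y ∂(volume : Measure (Sp n)), y ∈ Tᶜ → ω.rnDeriv volume y = 0 := by
    have h1 := Besicovitch.ae_tendsto_measure_inter_div_of_measurableSet
      (volume : Measure (Sp n)) hTm
    have h2 := Besicovitch.ae_tendsto_rnDeriv ω (volume : Measure (Sp n))
    have h3 : ∀ᵐ y ∂(volume : Measure (Sp n)), y ≠ x := by
      rw [ae_iff]
      simp
    filter_upwards [h1, h2, h3] with y h1 h2 h3 hy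
    rw [indicator_of_notMem hy] at h1
    have hy0 : kernel x y - pot ω y = 0 := by
      simpa [hT] using hy
    have h4 := singC_ratio hn hp h3 hy0 h1
    have hseq : Tendsto (fun m : ℕ => Real.sqrt ((1 / 8 : ℝ) ^ m)) atTop (𝓝[>] 0) := by
      rw [tendsto_nhdsWithin_iff]
      constructor
      · have h5 : Tendsto (fun m : ℕ => (1 / 8 : ℝ) ^ m) atTop (𝓝 0) :=
          tendsto_pow_atTop_nhds_zero_of_lt_one (by norm_num) (by norm_num)
        have h6 := (Real.continuous_sqrt.tendsto 0).comp h5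
        rw [Real.sqrt_zero] at h6
        exact h6
      · exact Eventually.of_forall fun m => by
          show (0 : ℝ) < _
          positivity
    exact tendsto_nhds_unique (h2.comp hseq) h4
  have hdens : ω.rnDeriv volume =ᵐ[volume] 0 := by
    have h1 : ∫⁻ y in T, ω.rnDeriv volume y = 0 := by
      refine le_antisymm ?_ bot_le
      calc ∫⁻ y in T, ω.rnDeriv volume y ≤ ω T := Measure.setLIntegral_rnDeriv_le T
        _ = 0 := hωT
    have h2 : ∀ᵐ y ∂(volume.restrict T), ω.rnDeriv volume y = 0 := by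
      rw [lintegral_eq_zero_iff (Measure.measurable_rnDeriv _ _)] at h1
      exact h1
    rw [ae_restrict_iff' hTm] at h2
    filter_upwards [hrn, h2] with y h3 h4
    by_cases hy : y ∈ T
    · exact h4 hy
    · exact h3 hy
  have h1 := Measure.haveLebesgueDecomposition_add ω (volume : Measure (Sp n))
  rw [withDensity_congr_ae hdens, withDensity_zero, add_zero] at h1
  rw [h1]
  exact Measure.mutuallySingular_singularPart _ _

/-- Fubini. -/
theorem ae_good {ω : Measure (Sp n)} [IsFiniteMeasure ω] (h : ω ⟂ₘ (volume : Measure (Sp n))) :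
    ∀ᵐ v : Sp n, ω ⟂ₘ ω.map (fun z => z - v) := by
  obtain ⟨s, hs, hs1, hs2⟩ := h
  have hmeas : Measurable (fun p : Sp n × Sp n => sᶜ.indicator (1 : Sp n → ℝ≥0∞) (p.1 - p.2)) :=
    ((measurable_one.indicator hs.compl).comp (measurable_fst.sub measurable_snd))
  have h1 : ∫⁻ v : Sp n, ∫⁻ z, sᶜ.indicator (1 : Sp n → ℝ≥0∞) (z - v) ∂ω = 0 := by
    rw [lintegral_lintegral_swap]
    · have h2 : ∀ z : Sp n, ∫⁻ v : Sp n, sᶜ.indicator (1 : Sp n → ℝ≥0∞) (z - v) = 0 := by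
        intro z
        rw [lintegral_sub_left_eq_self (fun v : Sp n => sᶜ.indicator (1 : Sp n → ℝ≥0∞) v) z,
          lintegral_indicator_one hs.compl, hs2]
      simp [h2]
    · exact (hmeas.comp (measurable_snd.prodMk measurable_fst)).aemeasurable
  rw [lintegral_eq_zero_iff] at h1
  · filter_upwards [h1] with v hv
    refine ⟨s, hs, hs1, ?_⟩
    have h3 : Measurable (fun z : Sp n => z - v) := measurable_id.sub_const v
    rw [Measure.map_apply h3 hs.compl]
    have h4 : ∫⁻ z, ((fun z : Sp n => z - v) ⁻¹' sᶜ).indicator 1 z ∂ω = 0 := hv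
    rwa [lintegral_indicator_one (h3 hs.compl)] at h4
  · exact (hmeas.comp (measurable_snd.prodMk measurable_fst)).lintegral_prod_right'

end TM291
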