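import Pool.Agent.Lib.MP_291eb9_an.Defs

open MeasureTheory Set Filter Topology
open scoped ENNReal NNReal Manifold

namespace TM291

variable {n : ℕ}

/-- smooth Urysohn between a compact set and an open set (`exists_contMDiffMap_...`). -/
theorem smooth_urysohn {K U : Set (Sp n)} (hK : IsCompact K) (hU : IsOpen U) (h : K ⊆ U) :
    ∃ χ : Sp n → ℝ, ContDiff ℝ 2 χ ∧ (∀ y, 0 ≤ χ y) ∧ (∀ y, χ y ≤ 1) ∧ (∀ y ∈ K, χ y = 1) ∧
      (∀ y, y ∉ U → χ y = 0) := by
  obtain ⟨f, h0, h1, hf⟩ := exists_contMDiffMap_zero_one_of_isClosed (n := 2) 𝓘(ℝ, Sp n)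
    hU.isClosed_compl hK.isClosed (disjoint_compl_left_iff_subset.2 h)
  exact ⟨f, f.contMDiff.contDiff, fun y => (hf y).1, fun y => (hf y).2, fun y hy => h1 hy,
    fun y hy => h0 hy⟩

/-- test functions are dense in `L¹(μ)` (nonnegative, vanishing near `x` when `μ{x} = 0`). -/
theorem test_dense (μ : Measure (Sp n)) [IsFiniteMeasure μ] {x : Sp n} (hx : μ {x} = 0)
    {q : Sp n → ℝ} (hq : Integrable q μ) (hq0 : ∀ z, 0 ≤ q z) {η : ℝ} (hη : 0 < η) :
    ∃ ψ : Sp n → ℝ, IsTest ψ ∧ (∀ᶠ y in 𝓝 x, ψ y = 0) ∧ ∫ z, |q z - ψ z| ∂μ ≤ η := by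
  -- continuous approximation
  obtain ⟨g, hgc, hgq, hgcont, hgi⟩ := hq.exists_hasCompactSupport_integral_sub_le
    (ε := η / 3) (by positivity)
  set f : Sp n → ℝ := fun y => Real.sqrt (max (g y) 0) with hf
  have hfcont : Continuous f := Real.continuous_sqrt.comp (hgcont.max continuous_const)
  have hfsupp : Function.support f ⊆ Function.support g := by
    intro y hy hgy
    apply hy
    simp only [hf]
    rw [show g y = 0 from hgy, max_self, Real.sqrt_zero]
  obtain ⟨A, hA⟩ := hgc.exists_bound_of_continuous hgcont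
  have hA0 : 0 ≤ A := (norm_nonneg _).trans (hA x)
  have hfA : ∀ y, f y ≤ A + 1 := by
    intro y
    have h1 : max (g y) 0 ≤ (A + 1) ^ 2 := by
      refine max_le ?_ (by positivity)
      have := (le_abs_self (g y)).trans (hA y)
      nlinarith
    calc f y ≤ Real.sqrt ((A + 1) ^ 2) := Real.sqrt_le_sqrt h1
      _ = A + 1 := Real.sqrt_sq (by positivity)
  set m : ℝ := μ.real univ with hm
  have hm0 : 0 ≤ m := measureReal_nonneg
  set ε : ℝ := min 1 (η / (3 * (2 * A + 3) * (m + 1))) with hε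
  have hεpos : 0 < ε := lt_min one_pos (by positivity)
  have hε1 : ε ≤ 1 := min_le_left _ _
  have hε2 : ε * ((2 * A + 3) * (m + 1)) ≤ η / 3 := by
    have h1 : ε ≤ η / (3 * (2 * A + 3) * (m + 1)) := min_le_right _ _
    calc ε * ((2 * A + 3) * (m + 1)) ≤
        η / (3 * (2 * A + 3) * (m + 1)) * ((2 * A + 3) * (m + 1)) :=
          mul_le_mul_of_nonneg_right h1 (by positivity)
      _ = η / 3 := by field_simp
  obtain ⟨k, hks, hkf, hksupp⟩ := hfcont.exists_contDiff_approx 2 (ε := fun _ => ε)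
    continuous_const (fun _ => hεpos)
  have hkf' : ∀ y, |k y - f y| ≤ ε := fun y => by
    have := hkf y; rw [Real.dist_eq] at this; exact this.le
  have hf0 : ∀ y, 0 ≤ f y := fun y => Real.sqrt_nonneg _
  have hk2 : ∀ y, |k y ^ 2 - max (g y) 0| ≤ ε * (2 * A + 3) := by
    intro y
    have e : max (g y) 0 = f y ^ 2 := (Real.sq_sqrt (le_max_right _ _)).symm
    rw [e, sq_sub_sq, abs_mul, mul_comm]
    refine mul_le_mul (hkf' y) ?_ (abs_nonneg _) hεpos.le
    have h1 := abs_le.1 (hkf' y)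
    rw [abs_le]
    constructor <;> linarith [hfA y, hf0 y, h1.1, h1.2]
  have hkA : ∀ y, k y ^ 2 ≤ 3 * A + 3 := by
    intro y
    have h1 := (abs_le.1 (hk2 y)).2
    have h2 : max (g y) 0 ≤ A := max_le ((le_abs_self _).trans (hA y)) hA0
    nlinarith
  -- cutoff at `x`
  set δ : ℝ := η / (3 * (3 * A + 3)) with hδ
  have hδpos : 0 < δ := by positivity
  have hδE : μ {x} < ENNReal.ofReal δ := by rw [hx]; exact ENNReal.ofReal_pos.2 hδpos
  obtain ⟨U, hxU, hUo, hU⟩ := Set.exists_isOpen_lt_of_lt _ _ hδE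
  obtain ⟨r, hr, hrU⟩ := Metric.isOpen_iff.1 hUo x (hxU rfl)
  obtain ⟨χ, hχs, hχ0, hχ1, hχK, hχU⟩ := smooth_urysohn (isCompact_closedBall x (r / 2)) hUo
    ((Metric.closedBall_subset_ball (half_lt_self hr)).trans hrU)
  have hksc : HasCompactSupport fun y => k y ^ 2 := by
    refine hgc.mono' ?_
    intro y hy
    apply subset_closure
    apply hfsupp
    apply hksupp
    intro h0
    apply hy
    simp only [h0]; norm_num
  refine ⟨fun y => k y ^ 2 * (1 - χ y), ⟨(hks.pow 2).mul (contDiff_const.sub hχs),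
    hksc.mul_right, fun y => mul_nonneg (sq_nonneg _) (sub_nonneg.2 (hχ1 y))⟩, ?_, ?_⟩
  · filter_upwards [Metric.closedBall_mem_nhds x (half_pos hr)] with y hy
    rw [hχK y hy, sub_self, mul_zero]
  · have i1 : Integrable (fun z => ‖q z - g z‖) μ := (hq.sub hgi).norm
    have hUm : MeasurableSet U := hUo.measurableSet
    have i2 : Integrable (fun z => ‖q z - g z‖ + (ε * (2 * A + 3) +
        U.indicator (fun _ => (3 * A + 3 : ℝ)) z)) μ :=
      i1.add ((integrable_const _).add ((integrable_const _).indicator hUm))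
    have hle : ∀ z, |q z - k z ^ 2 * (1 - χ z)| ≤ ‖q z - g z‖ + (ε * (2 * A + 3) +
        U.indicator (fun _ => (3 * A + 3 : ℝ)) z) := by
      intro z
      have e : q z - k z ^ 2 * (1 - χ z) =
          (q z - max (g z) 0) + ((-(k z ^ 2 - max (g z) 0)) + k z ^ 2 * χ z) := by ring
      rw [e]
      refine (abs_add_le _ _).trans (add_le_add ?_ ((abs_add_le _ _).trans (add_le_add ?_ ?_)))
      · rw [Real.norm_eq_abs]
        rcases le_total (g z) 0 with h | h
        · rw [max_eq_right h, sub_zero, abs_of_nonneg (hq0 z)]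
          rw [abs_of_nonneg (by linarith [hq0 z])]; linarith
        · rw [max_eq_left h]
      · rw [abs_neg]; exact hk2 z
      · rw [abs_of_nonneg (mul_nonneg (sq_nonneg _) (hχ0 z))]
        by_cases hz : z ∈ U
        · rw [indicator_of_mem hz]
          calc k z ^ 2 * χ z ≤ k z ^ 2 * 1 := mul_le_mul_of_nonneg_left (hχ1 z) (sq_nonneg _)
            _ ≤ 3 * A + 3 := by rw [mul_one]; exact hkA z
        · rw [indicator_of_notMem hz, hχU z hz, mul_zero]
    have hmain : ∫ z, |q z - k z ^ 2 * (1 - χ z)| ∂μ ≤ ∫ z, (‖q z - g z‖ + (ε * (2 * A + 3) +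
        U.indicator (fun _ => (3 * A + 3 : ℝ)) z)) ∂μ := by
      refine integral_mono_of_nonneg (Eventually.of_forall fun z => abs_nonneg _) i2
        (Eventually.of_forall hle)
    refine hmain.trans ?_
    have i3 : Integrable (fun z => U.indicator (fun _ => (3 * A + 3 : ℝ)) z) μ :=
      (integrable_const _).indicator hUm
    have i4 : Integrable (fun z => ε * (2 * A + 3) +
        U.indicator (fun _ => (3 * A + 3 : ℝ)) z) μ := (integrable_const _).add i3
    rw [integral_add i1 i4, integral_add (integrable_const _) i3,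
      integral_indicator_const _ hUm, integral_const, smul_eq_mul, smul_eq_mul]
    have hUr : μ.real U ≤ δ := ENNReal.toReal_le_of_le_ofReal hδpos.le hU.le
    have h3 : μ.real U * (3 * A + 3) ≤ η / 3 := by
      calc μ.real U * (3 * A + 3) ≤ δ * (3 * A + 3) :=
            mul_le_mul_of_nonneg_right hUr (by positivity)
        _ = η / 3 := by rw [hδ]; field_simp
    have h2 : m * (ε * (2 * A + 3)) ≤ η / 3 := by
      refine le_trans ?_ hε2
      have : 0 ≤ ε * (2 * A + 3) := by positivity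
      nlinarith
    linarith

end TM291
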