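import Pool.Agent.Lib.MP_291eb9_an.KatoLim
import Pool.Agent.Lib.MP_291eb9_an.TestC

open MeasureTheory Set Filter Topology
open scoped ENNReal NNReal

namespace TM291

variable {n : ℕ}

private lemma split_integrable_hk_mul {φ : Sp n → ℝ} (hφ : IsTest φ) (s : ℝ) (y : Sp n) :
    Integrable (fun z => hk s (y - z) * φ z) := by
  have hc : Continuous fun z => hk s (y - z) * φ z :=
    ((continuous_hk s).comp (continuous_const.sub continuous_id)).mul hφ.smooth.continuous
  exact hc.integrable_of_hasCompactSupport hφ.cpt.mul_left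

private lemma split_TT_add {φ₁ φ₂ ψ : Sp n → ℝ} (h1 : IsTest φ₁) (h2 : IsTest φ₂)
    (h : ∀ y, ψ y = φ₁ y + φ₂ y) (s : ℝ) (y : Sp n) : TT s ψ y = TT s φ₁ y + TT s φ₂ y := by
  have e : PR s ψ y = PR s φ₁ y + PR s φ₂ y := by
    unfold PR
    rw [← integral_add (split_integrable_hk_mul h1 s y) (split_integrable_hk_mul h2 s y)]
    refine integral_congr_ae (Eventually.of_forall fun z => ?_)
    simp only [h z]; ring
  unfold TT
  rw [e, h y, ← add_div]; congr 1; ring

private lemma split_bdd {ψ : Sp n → ℝ} (hψ : IsTest ψ) : ∃ A : ℝ, 0 ≤ A ∧ ∀ y, ψ y ≤ A := by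
  obtain ⟨C, hC⟩ := hψ.cpt.exists_bound_of_continuous hψ.smooth.continuous
  refine ⟨C, (norm_nonneg _).trans (hC 0), fun y => (le_abs_self _).trans (hC y)⟩

private lemma split_ind_bdd (t : ℝ) : |1 - 2 * ind t| ≤ 1 := by
  unfold ind; split_ifs <;> norm_num

private lemma split_measurable_ind : Measurable ind := by
  unfold ind
  exact Measurable.ite measurableSet_Ioi measurable_const measurable_const

private lemma split_integrable (μ : Measure (Sp n)) [IsFiniteMeasure μ] {ψ w : Sp n → ℝ}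
    (hψ : IsTest ψ) (hw : Measurable w) :
    Integrable (fun z => ψ z * (1 - 2 * ind (w z))) μ := by
  obtain ⟨A, hA0, hA⟩ := split_bdd hψ
  have hm : Measurable fun z => ψ z * (1 - 2 * ind (w z)) :=
    hψ.smooth.continuous.measurable.mul
      (measurable_const.sub (measurable_const.mul (split_measurable_ind.comp hw)))
  refine Integrable.of_bound hm.aestronglyMeasurable A (Eventually.of_forall fun z => ?_)
  rw [Real.norm_eq_abs, abs_mul, abs_of_nonneg (hψ.nonneg z)]
  calc ψ z * |1 - 2 * ind (w z)| ≤ ψ z * 1 :=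
        mul_le_mul_of_nonneg_left (split_ind_bdd _) (hψ.nonneg z)
    _ ≤ A := by rw [mul_one]; exact hA z

private lemma split_integrable_test (μ : Measure (Sp n)) [IsFiniteMeasure μ] {ψ : Sp n → ℝ}
    (hψ : IsTest ψ) : Integrable ψ μ :=
  hψ.smooth.continuous.integrable_of_hasCompactSupport hψ.cpt

/-- localisation error -/
private lemma split_err (μ : Measure (Sp n)) [IsFiniteMeasure μ] {ψ φ w : Sp n → ℝ}
    (hψ : IsTest ψ) (hφ : IsTest φ) (hw : Measurable w) {A : ℝ} (hA : ∀ y, ψ y ≤ A) {S : Set (Sp n)}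
    (hS : MeasurableSet S) (hle : ∀ y, φ y ≤ ψ y) (heq : ∀ y, y ∉ S → φ y = ψ y) :
    (∫ z, ψ z * (1 - 2 * ind (w z)) ∂μ) - A * μ.real S ≤
      ∫ z, φ z * (1 - 2 * ind (w z)) ∂μ := by
  have i1 := split_integrable μ hψ hw
  have i2 := split_integrable μ hφ hw
  have : (∫ z, ψ z * (1 - 2 * ind (w z)) ∂μ) - (∫ z, φ z * (1 - 2 * ind (w z)) ∂μ) ≤
      ∫ z, S.indicator (fun _ => A) z ∂μ := by
    rw [← integral_sub i1 i2]
    refine integral_mono (i1.sub i2) ((integrable_const A).indicator hS) fun z => ?_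
    by_cases hz : z ∈ S
    · simp only [indicator_of_mem hz]
      rw [← sub_mul]
      have h0 : 0 ≤ ψ z - φ z := sub_nonneg.2 (hle z)
      calc (ψ z - φ z) * (1 - 2 * ind (w z)) ≤ (ψ z - φ z) * 1 :=
            mul_le_mul_of_nonneg_left ((le_abs_self _).trans (split_ind_bdd _)) h0
        _ ≤ A := by rw [mul_one]; linarith [hA z, hφ.nonneg z]
    · simp only [indicator_of_notMem hz, heq z hz, sub_self, le_refl]
  rw [integral_indicator_const A hS, smul_eq_mul] at this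
  linarith

private lemma split_small (μ : Measure (Sp n)) [IsFiniteMeasure μ] {ψ φ : Sp n → ℝ}
    (hφ : IsTest φ) {A : ℝ} (hA : ∀ y, ψ y ≤ A) {S : Set (Sp n)}
    (hS : MeasurableSet S) (hle : ∀ y, φ y ≤ ψ y) (h0 : ∀ y, y ∉ S → φ y = 0) :
    ∫ z, φ z ∂μ ≤ A * μ.real S := by
  have : ∫ z, φ z ∂μ ≤ ∫ z, S.indicator (fun _ => A) z ∂μ := by
    refine integral_mono (split_integrable_test μ hφ) ((integrable_const A).indicator hS)
      fun z => ?_
    by_cases hz : z ∈ S
    · simp only [indicator_of_mem hz]; exact (hle z).trans (hA z)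
    · simp only [indicator_of_notMem hz, h0 z hz, le_refl]
  rw [integral_indicator_const A hS, smul_eq_mul] at this
  linarith

/-- `kato` for `(μp, μm, ψχ)` and `(μm, μp, ψ(1-χ))`, `χ` from `smooth_urysohn` with `K` compact
inside the carrier of `μp` (`μm`-null) and `U ⊇ K` open with `μm U` small. -/
theorem split (hn : 3 ≤ n) (μp μm : Measure (Sp n)) [IsFiniteMeasure μp] [IsFiniteMeasure μm]
    (hsing : μp ⟂ₘ μm) {ψ : Sp n → ℝ} (hψ : IsTest ψ)
    (hfp : ∀ᵐ z ∂μp, ψ z ≠ 0 → pot μp z < ⊤ ∧ pot μm z < ⊤)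
    (hfm : ∀ᵐ z ∂μm, ψ z ≠ 0 → pot μp z < ⊤ ∧ pot μm z < ⊤) {M : ℝ}
    (hM : ∀ᶠ s in 𝓝[>] (0 : ℝ), ∫ y, |dw μp μm y| * TT s ψ y ≤ M) :
    (∫ z, ψ z * (1 - 2 * ind (dw μp μm z)) ∂μp) +
      (∫ z, ψ z * (1 - 2 * ind (-(dw μp μm z))) ∂μm) ≤ M := by
  obtain ⟨A, hA0, hA⟩ := split_bdd hψ
  refine le_of_forall_pos_le_add fun ε hε => ?_
  set η : ℝ := ε / (4 * (A + 1)) with hη
  have hηpos : 0 < η := by positivity
  -- the carrier
  set S := hsing.nullSetᶜ with hS
  have hSm : MeasurableSet S := hsing.measurableSet_nullSet.compl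
  have hμpS : μp Sᶜ = 0 := by rw [hS, compl_compl]; exact hsing.measure_nullSet
  have hμmS : μm S = 0 := hsing.measure_compl_nullSet
  have hηE : ENNReal.ofReal η ≠ 0 := by
    rw [Ne, ENNReal.ofReal_eq_zero, not_le]; exact hηpos
  obtain ⟨K, hKS, hKc, hK⟩ := hSm.exists_isCompact_lt_add (μ := μp) (measure_ne_top μp S) hηE
  have hKm : MeasurableSet K := hKc.measurableSet
  have hμmK : μm K = 0 := measure_mono_null hKS hμmS
  have hμpK : μp Kᶜ ≤ ENNReal.ofReal η := by
    have e1 : μp Kᶜ ≤ μp (S \ K) + μp Sᶜ := by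
      refine (measure_mono ?_).trans (measure_union_le _ _)
      intro z hz
      by_cases hzS : z ∈ S
      · exact Or.inl ⟨hzS, hz⟩
      · exact Or.inr hzS
    rw [hμpS, add_zero, measure_sdiff hKS hKm.nullMeasurableSet (measure_ne_top μp K)] at e1
    exact e1.trans (tsub_le_iff_left.2 hK.le)
  obtain ⟨U, hKU, hUo, hU⟩ := K.exists_isOpen_lt_add (μ := μm) (measure_ne_top μm K) hηE
  rw [hμmK, zero_add] at hU
  have hpK : μp.real Kᶜ ≤ η := ENNReal.toReal_le_of_le_ofReal hηpos.le hμpK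
  have hmU : μm.real U ≤ η := ENNReal.toReal_le_of_le_ofReal hηpos.le hU.le
  obtain ⟨χ, hχs, hχ0, hχ1, hχK, hχU⟩ := smooth_urysohn hKc hUo hKU
  have t1 : IsTest fun y => ψ y * χ y :=
    ⟨hψ.smooth.mul hχs, hψ.cpt.mul_right, fun y => mul_nonneg (hψ.nonneg y) (hχ0 y)⟩
  have t2 : IsTest fun y => ψ y * (1 - χ y) :=
    ⟨hψ.smooth.mul (contDiff_const.sub hχs), hψ.cpt.mul_right,
      fun y => mul_nonneg (hψ.nonneg y) (sub_nonneg.2 (hχ1 y))⟩
  have hle1 : ∀ y, ψ y * χ y ≤ ψ y := fun y => mul_le_of_le_one_right (hψ.nonneg y) (hχ1 y)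
  have hle2 : ∀ y, ψ y * (1 - χ y) ≤ ψ y := fun y =>
    mul_le_of_le_one_right (hψ.nonneg y) (by linarith [hχ0 y])
  have k1 := kato hn μp μm t1 (hfp.mono fun z hz h => hz (left_ne_zero_of_mul h)) hηpos
  have k2 := kato hn μm μp t2 (hfm.mono fun z hz h => (hz (left_ne_zero_of_mul h)).symm) hηpos
  have k0 : ∀ᶠ s in 𝓝[>] (0 : ℝ), 0 < s := self_mem_nhdsWithin
  obtain ⟨s, hs0, h1, h2, h3⟩ := (k0.and (k1.and (k2.and hM))).exists
  have hdw : ∀ y, dw μm μp y = -(dw μp μm y) := fun y => by unfold dw; ring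
  simp only [hdw, abs_neg] at h2
  have mw := measurable_dw μp μm
  -- sum of the right hand sides
  have hsum : (∫ y, |dw μp μm y| * TT s (fun y => ψ y * χ y) y) +
      (∫ y, |dw μp μm y| * TT s (fun y => ψ y * (1 - χ y)) y) =
      ∫ y, |dw μp μm y| * TT s ψ y := by
    rw [← integral_add (integrable_mul_TT hn μp μm t1 hs0 mw.abs (fun y => (abs_abs _).le))
      (integrable_mul_TT hn μp μm t2 hs0 mw.abs (fun y => (abs_abs _).le))]
    refine integral_congr_ae (Eventually.of_forall fun y => ?_)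
    simp only
    rw [split_TT_add t1 t2 (ψ := ψ) (fun y => by ring) s y]; ring
  have e1 := split_err μp hψ t1 mw hA hKm.compl hle1 (fun y hy => by
    rw [hχK y (not_not.1 hy), mul_one])
  have e2 := split_err μm hψ t2 mw.neg hA hUo.measurableSet hle2 (fun y hy => by
    rw [hχU y hy, sub_zero, mul_one])
  have e3 := split_small μm t1 hA hUo.measurableSet hle1 (fun y hy => by
    rw [hχU y hy, mul_zero])
  have e4 := split_small μp t2 hA hKm.compl hle2 (fun y hy => by
    rw [hχK y (not_not.1 hy), sub_self, mul_zero])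
  simp only [Pi.neg_apply] at e2
  have b1 : A * μp.real Kᶜ ≤ A * η := mul_le_mul_of_nonneg_left hpK hA0
  have b2 : A * μm.real U ≤ A * η := mul_le_mul_of_nonneg_left hmU hA0
  have hfinal : 4 * (A + 1) * η = ε := by rw [hη]; field_simp
  nlinarith [h1, h2, h3, hsum, e1, e2, e3, e4, b1, b2, hfinal, hηpos]

/-- upper bound for the right side. -/
theorem upper (hn : 3 ≤ n) (μp μm : Measure (Sp n)) [IsFiniteMeasure μp] [IsFiniteMeasure μm]
    {ψ : Sp n → ℝ} (hψ : IsTest ψ) {R : ℝ} (hR : 0 < R) {C : ℝ}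
    (hC : ∀ s ∈ Ioc (0 : ℝ) 1, (∀ y, |TT s ψ y| ≤ C) ∧ Continuous (TT s ψ) ∧
      Integrable (TT s ψ) ∧ ∫ y in {y : Sp n | 2 * R ≤ ‖y‖}, |TT s ψ y| ≤ C * s)
    (hw : ∀ y, 2 * R ≤ ‖y‖ → |dw μp μm y| ≤ 1) {η : ℝ} (hη : 0 < η) :
    ∀ᶠ s in 𝓝[>] (0 : ℝ), ∫ y, |dw μp μm y| * TT s ψ y ≤
      C * (∫ y in Metric.ball (0 : Sp n) (2 * R), |dw μp μm y|) + η := by
  have hC0 : 0 ≤ C := (abs_nonneg _).trans ((hC 1 ⟨one_pos, le_rfl⟩).1 0)
  have mw := measurable_dw μp μm
  have hwint : IntegrableOn (fun y => |dw μp μm y|) (Metric.ball (0 : Sp n) (2 * R)) := by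
    refine ⟨mw.abs.aestronglyMeasurable, ?_⟩
    have h1 := lintegral_pot_ball_lt_top hn μp (2 * R)
    have h2 := lintegral_pot_ball_lt_top hn μm (2 * R)
    refine lt_of_le_of_lt (lintegral_mono (g := fun y => pot μp y + pot μm y) fun y => ?_) ?_
    · have e0 : ‖|dw μp μm y|‖ₑ = ‖dw μp μm y‖ₑ := by
        rw [← ofReal_norm, ← ofReal_norm, norm_abs_eq_norm]
      rw [e0]
      unfold dw
      refine (enorm_sub_le).trans (add_le_add ?_ ?_)
      · rw [Real.enorm_eq_ofReal ENNReal.toReal_nonneg]; exact ENNReal.ofReal_toReal_le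
      · rw [Real.enorm_eq_ofReal ENNReal.toReal_nonneg]; exact ENNReal.ofReal_toReal_le
    · rw [lintegral_add_left (measurable_pot μp)]
      exact ENNReal.add_lt_top.2 ⟨h1, h2⟩
  have hev : ∀ᶠ s in 𝓝[>] (0 : ℝ), s ∈ Ioc (0 : ℝ) (min 1 (η / (C + 1))) :=
    Ioc_mem_nhdsGT (lt_min one_pos (by positivity))
  filter_upwards [hev] with s hs
  have hs1 : s ∈ Ioc (0 : ℝ) 1 := ⟨hs.1, hs.2.trans (min_le_left _ _)⟩
  obtain ⟨c1, c2, c3, c4⟩ := hC s hs1
  have hint : Integrable (fun y => |dw μp μm y| * |TT s ψ y|) := by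
    have := (integrable_mul_TT hn μp μm hψ hs.1 mw.abs (fun y => (abs_abs _).le)).abs
    refine this.congr (Eventually.of_forall fun y => ?_)
    simp only [abs_mul, abs_abs]
  have hcompl : (Metric.ball (0 : Sp n) (2 * R))ᶜ = {y : Sp n | 2 * R ≤ ‖y‖} := by
    ext y; simp
  calc ∫ y, |dw μp μm y| * TT s ψ y ≤ ∫ y, |dw μp μm y| * |TT s ψ y| :=
        integral_mono (integrable_mul_TT hn μp μm hψ hs.1 mw.abs (fun y => (abs_abs _).le)) hint
          fun y => mul_le_mul_of_nonneg_left (le_abs_self _) (abs_nonneg _)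
    _ = (∫ y in Metric.ball (0 : Sp n) (2 * R), |dw μp μm y| * |TT s ψ y|) +
        ∫ y in (Metric.ball (0 : Sp n) (2 * R))ᶜ, |dw μp μm y| * |TT s ψ y| :=
        (integral_add_compl Metric.isOpen_ball.measurableSet hint).symm
    _ ≤ (∫ y in Metric.ball (0 : Sp n) (2 * R), C * |dw μp μm y|) +
        ∫ y in {y : Sp n | 2 * R ≤ ‖y‖}, |TT s ψ y| := by
        refine add_le_add ?_ ?_
        · refine integral_mono hint.integrableOn (hwint.const_mul C) fun y => ?_
          simp only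
          rw [mul_comm C]
          exact mul_le_mul_of_nonneg_left (c1 y) (abs_nonneg _)
        · rw [hcompl]
          refine setIntegral_mono_on hint.integrableOn c3.abs.integrableOn ?_ fun y hy => ?_
          · rw [← hcompl]; exact Metric.isOpen_ball.measurableSet.compl
          · exact mul_le_of_le_one_left (abs_nonneg _) (hw y hy)
    _ ≤ C * (∫ y in Metric.ball (0 : Sp n) (2 * R), |dw μp μm y|) + η := by
        rw [integral_const_mul]
        refine add_le_add le_rfl (c4.trans ?_)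
        have : s ≤ η / (C + 1) := hs.2.trans (min_le_right _ _)
        calc C * s ≤ (C + 1) * s := by nlinarith [hs.1]
          _ ≤ (C + 1) * (η / (C + 1)) := mul_le_mul_of_nonneg_left this (by positivity)
          _ = η := by field_simp

end TM291
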