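import Pool.Agent.Lib.MP_291eb9_an.HalfA
import Pool.Agent.Lib.MP_291eb9_an.Split
import Pool.Agent.Lib.MP_291eb9_an.SingC

open MeasureTheory Set Filter Topology
open scoped ENNReal NNReal

namespace TM291

variable {n : ℕ}

section aux

theorem halfB_kernel_lt_top {x y : Sp n} (h : y ≠ x) : kernel x y < ⊤ := by
  unfold kernel
  rw [lt_top_iff_ne_top]
  intro hc
  rcases ENNReal.rpow_eq_top_iff.1 hc with ⟨h1, _⟩ | ⟨h1, _⟩
  · rw [edist_eq_zero] at h1
    exact h h1.symm
  · exact edist_ne_top _ _ h1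

theorem halfB_kernel_shift (x v y : Sp n) : kernel (x - v) y = kernel x (y + v) := by
  unfold kernel
  congr 1
  rw [edist_dist, edist_dist, dist_eq_norm, dist_eq_norm]
  congr 2
  abel

theorem halfB_ind_nonneg (t : ℝ) : 0 ≤ ind t := by
  unfold ind; split_ifs <;> norm_num

theorem halfB_ind_le (t : ℝ) : ind t ≤ 1 := by
  unfold ind; split_ifs <;> norm_num

theorem halfB_abs_ind (a b : ℝ) : |1 - ind a - ind b| ≤ 1 := by
  have h1 := halfB_ind_nonneg a
  have h2 := halfB_ind_nonneg b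
  have h3 := halfB_ind_le a
  have h4 := halfB_ind_le b
  rw [abs_le]; constructor <;> linarith

theorem halfB_kernel_le_one (hn : 3 ≤ n) {x y : Sp n} (h : 1 ≤ dist x y) : kernel x y ≤ 1 := by
  unfold kernel
  have h1 : (1 : ℝ≥0∞) ≤ edist x y := by
    rw [edist_dist]
    simpa using ENNReal.ofReal_le_ofReal h
  have h2 : ((2 : ℝ) - n) ≤ 0 := by
    have : (3 : ℝ) ≤ n := by exact_mod_cast hn
    linarith
  calc edist x y ^ ((2 : ℝ) - n) ≤ edist x y ^ (0 : ℝ) :=
        ENNReal.rpow_le_rpow_of_exponent_le h1 h2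
    _ = 1 := by simp

end aux

section dwformula

variable {x : Sp n} {ω : Measure (Sp n)}

theorem halfB_gf_nonneg (hp : Pair x ω) {y : Sp n} (hy : y ≠ x) : 0 ≤ gf x ω y := by
  unfold gf
  have := ENNReal.toReal_mono (halfB_kernel_lt_top hy).ne (hp.pot_le y)
  linarith

theorem halfB_gf_le (x : Sp n) (ω : Measure (Sp n)) (y : Sp n) :
    gf x ω y ≤ (kernel x y).toReal := by
  unfold gf
  have : 0 ≤ (pot ω y).toReal := ENNReal.toReal_nonneg
  linarith

theorem halfB_fin_p (hp : Pair x ω) {v y : Sp n} (hy : y ≠ x) (hyv : y ≠ x - v) :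
    pot (Measure.dirac (x - v) + ω) y < ⊤ := by
  rw [pot_add, pot_dirac]
  exact ENNReal.add_lt_top.2 ⟨halfB_kernel_lt_top hyv, lt_of_le_of_lt (hp.pot_le y)
    (halfB_kernel_lt_top hy)⟩

theorem halfB_fin_m (hp : Pair x ω) {v y : Sp n} (hy : y ≠ x) (hyv : y ≠ x - v) :
    pot (Measure.dirac x + ω.map (fun z => z - v)) y < ⊤ := by
  rw [pot_add, pot_dirac, pot_translate]
  refine ENNReal.add_lt_top.2 ⟨halfB_kernel_lt_top hy, lt_of_le_of_lt (hp.pot_le _)
    (halfB_kernel_lt_top ?_)⟩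
  intro h
  exact hyv (by rw [← h]; abel)

theorem halfB_dw (hp : Pair x ω) {v y : Sp n} (hy : y ≠ x) (hyv : y ≠ x - v) :
    dw (Measure.dirac (x - v) + ω) (Measure.dirac x + ω.map (fun z => z - v)) y
      = gf x ω (y + v) - gf x ω y := by
  have hyv' : y + v ≠ x := by
    intro h
    exact hyv (by rw [← h]; abel)
  have k1 := halfB_kernel_lt_top hy
  have k2 := halfB_kernel_lt_top hyv
  have k3 := halfB_kernel_lt_top hyv'
  have p1 : pot ω y < ⊤ := lt_of_le_of_lt (hp.pot_le _) k1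
  have p2 : pot ω (y + v) < ⊤ := lt_of_le_of_lt (hp.pot_le _) k3
  unfold dw gf
  rw [pot_add, pot_dirac, pot_add, pot_dirac, pot_translate, ENNReal.toReal_add k2.ne p1.ne,
    ENNReal.toReal_add k1.ne p2.ne, halfB_kernel_shift]
  ring

theorem halfB_gf_zero (hp : Pair x ω) : ∀ᵐ z ∂ω, gf x ω z = 0 := by
  filter_upwards [hp.pot_eq] with z hz
  unfold gf
  rw [hz]; ring

theorem halfB_sing (hp : Pair x ω) {v : Sp n} (hv : v ≠ 0)
    (h : ω ⟂ₘ ω.map (fun z => z - v)) :
    (Measure.dirac (x - v) + ω) ⟂ₘ (Measure.dirac x + ω.map (fun z => z - v)) := by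
  have hmeas : Measurable (fun z : Sp n => z - v) := by fun_prop
  have hxv : x - v ≠ x := by
    intro hc
    exact hv (by simpa using hc)
  rw [Measure.MutuallySingular.add_left_iff, Measure.MutuallySingular.add_right_iff,
    Measure.MutuallySingular.add_right_iff]
  refine ⟨⟨?_, ?_⟩, ⟨?_, h⟩⟩
  · refine ⟨{x - v}ᶜ, (measurableSet_singleton _).compl, ?_, ?_⟩
    · simp
    · rw [compl_compl, Measure.dirac_apply' _ (measurableSet_singleton _)]
      simp [hxv.symm]
  · refine ⟨{x - v}ᶜ, (measurableSet_singleton _).compl, ?_, ?_⟩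
    · simp
    · rw [compl_compl, Measure.map_apply hmeas (measurableSet_singleton _)]
      have : (fun z : Sp n => z - v) ⁻¹' {x - v} = {x} := by
        ext z; simp
      rw [this]
      exact hp.noatom x
  · refine ⟨{x}, measurableSet_singleton _, hp.noatom x, ?_⟩
    simp

end dwformula

/-- local integrability of the Green function. -/
theorem halfB_gf_int (hn : 3 ≤ n) {x : Sp n} {ω : Measure (Sp n)} (hp : Pair x ω) (R : ℝ) :
    IntegrableOn (gf x ω) (Metric.ball (0 : Sp n) R) := by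
  have := hp.fin
  have hfin : ∫⁻ y in Metric.ball (0 : Sp n) R, kernel x y < ⊤ := by
    have := lintegral_pot_ball_lt_top hn (Measure.dirac x) R
    simpa only [pot_dirac] using this
  refine ⟨(measurable_gf x ω).aestronglyMeasurable, ?_⟩
  refine lt_of_le_of_lt ?_ hfin
  refine lintegral_mono_ae ?_
  refine ae_restrict_of_ae ?_
  have : Nonempty (Fin n) := ⟨⟨0, by omega⟩⟩
  have hx : ∀ᵐ y : Sp n, y ≠ x := by
    have : (volume : Measure (Sp n)) {x} = 0 := by
      have : Nontrivial (Sp n) := by infer_instance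
      exact measure_singleton x
    rw [ae_iff]; simp
  filter_upwards [hx] with y hy
  have h0 := halfB_gf_nonneg hp hy
  have h1 := halfB_gf_le x ω y
  rw [Real.enorm_eq_ofReal h0]
  calc ENNReal.ofReal (gf x ω y) ≤ ENNReal.ofReal (kernel x y).toReal :=
        ENNReal.ofReal_le_ofReal h1
    _ ≤ kernel x y := ENNReal.ofReal_toReal_le

theorem halfB_tc {x : Sp n} {ω : Measure (Sp n)} (hn : 3 ≤ n) (hp : Pair x ω) (R : ℝ) {η : ℝ}
    (hη : 0 < η) :
    ∃ ρ > 0, ∀ v : Sp n, ‖v‖ < ρ →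
      ∫ y in Metric.ball (0 : Sp n) R, |dw (Measure.dirac (x - v) + ω)
        (Measure.dirac x + ω.map (fun z => z - v)) y| ≤ η := by
  have := hp.fin
  obtain ⟨ρ, hρ, h⟩ := trans_cont (measurable_gf x ω) (halfB_gf_int hn hp) R hη
  refine ⟨ρ, hρ, fun v hv => ?_⟩
  refine le_trans (le_of_eq ?_) (h v hv)
  refine integral_congr_ae ?_
  refine ae_restrict_of_ae ?_
  have : Nonempty (Fin n) := ⟨⟨0, by omega⟩⟩
  have hx : ∀ x : Sp n, ∀ᵐ y : Sp n, y ≠ x := by
    intro x
    have : (volume : Measure (Sp n)) {x} = 0 := by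
      have : Nontrivial (Sp n) := by infer_instance
      exact measure_singleton x
    rw [ae_iff]; simp
  filter_upwards [hx x, hx (x - v)] with y hy hy'
  rw [halfB_dw hp hy hy']

/-- `μp = δ_{x-v} + ω`, `μm = δ_x + (ω translated)`; `split`, `upper`, `trans_cont`. -/
theorem half_smooth (hn : 3 ≤ n) {x : Sp n} {ω : Measure (Sp n)} (hp : Pair x ω) {ψ : Sp n → ℝ}
    (hψ : IsTest ψ) (hψx : ∀ᶠ y in 𝓝 x, ψ y = 0) {η : ℝ} (hη : 0 < η) :
    ∃ ρ > 0, ∀ v : Sp n, v ≠ 0 → ‖v‖ < ρ → ω ⟂ₘ ω.map (fun z => z - v) →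
      ∫ z, ψ z * (1 - ind (gf x ω (z + v)) - ind (gf x ω (z - v))) ∂ω ≤ η := by
  have := hp.fin
  -- radius
  obtain ⟨R₀, hR₀⟩ : ∃ R₀ : ℝ, ∀ y, R₀ ≤ ‖y‖ → ψ y = 0 := by
    obtain ⟨R₀, hR₀⟩ := hψ.cpt.isCompact.isBounded.exists_norm_le
    refine ⟨R₀ + 1, fun y hy => ?_⟩
    by_contra hne
    have := hR₀ y (subset_tsupport _ hne)
    linarith
  set R : ℝ := max R₀ (‖x‖ + 2) with hRdef
  have hR : 0 < R := lt_of_lt_of_le (by positivity) (le_max_right _ _)
  have hRx : ‖x‖ + 2 ≤ R := le_max_right _ _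
  have hsupp : ∀ y, R ≤ ‖y‖ → ψ y = 0 := fun y hy => hR₀ y (le_trans (le_max_left _ _) hy)
  obtain ⟨C, hC0, hC⟩ := TT_bound hn hψ hR hsupp
  obtain ⟨ρ₀, hρ₀, hψρ⟩ := Metric.eventually_nhds_iff.1 hψx
  -- uniform continuity
  have huc : UniformContinuous ψ := hψ.cpt.uniformContinuous_of_continuous hψ.smooth.continuous
  set m : ℝ := (ω univ).toReal with hm
  have hm0 : 0 ≤ m := ENNReal.toReal_nonneg
  obtain ⟨ρ₁, hρ₁, hucρ⟩ := Metric.uniformContinuous_iff.1 huc (η / (2 * (m + 1)))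
    (by positivity)
  obtain ⟨ρ₂, hρ₂, htc⟩ := halfB_tc hn hp (2 * R) (η := η / (2 * (C + 1))) (by positivity)
  refine ⟨min (min ρ₀ 1) (min ρ₁ ρ₂), by positivity, fun v hv0 hv hsing => ?_⟩
  have hv1 : ‖v‖ < ρ₀ := lt_of_lt_of_le hv ((min_le_left _ _).trans (min_le_left _ _))
  have hv2 : ‖v‖ < 1 := lt_of_lt_of_le hv ((min_le_left _ _).trans (min_le_right _ _))
  have hv3 : ‖v‖ < ρ₁ := lt_of_lt_of_le hv ((min_le_right _ _).trans (min_le_left _ _))
  have hv4 : ‖v‖ < ρ₂ := lt_of_lt_of_le hv ((min_le_right _ _).trans (min_le_right _ _))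
  set μp : Measure (Sp n) := Measure.dirac (x - v) + ω with hμp
  set μm : Measure (Sp n) := Measure.dirac x + ω.map (fun z => z - v) with hμm
  have hmeasv : Measurable (fun z : Sp n => z - v) := by fun_prop
  have : IsFiniteMeasure (ω.map (fun z : Sp n => z - v)) :=
    Measure.isFiniteMeasure_map ω _
  have hψx0 : ψ x = 0 := hψρ (by simpa using hρ₀)
  have hψxv : ψ (x - v) = 0 := hψρ (by simpa [dist_eq_norm] using hv1)
  have hne : ∀ z, ψ z ≠ 0 → z ≠ x ∧ z ≠ x - v := by
    intro z hz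
    exact ⟨fun h => hz (by rw [h]; exact hψx0), fun h => hz (by rw [h]; exact hψxv)⟩
  have hfin : ∀ z, ψ z ≠ 0 → pot μp z < ⊤ ∧ pot μm z < ⊤ := fun z hz =>
    ⟨halfB_fin_p hp (hne z hz).1 (hne z hz).2, halfB_fin_m hp (hne z hz).1 (hne z hz).2⟩
  -- bound far away
  have hw : ∀ y, 2 * R ≤ ‖y‖ → |dw μp μm y| ≤ 1 := by
    intro y hy
    have hd1 : 1 ≤ dist x y := by
      rw [dist_eq_norm]
      have := norm_sub_norm_le y x
      rw [norm_sub_rev]
      linarith [norm_nonneg x]
    have hd2 : 1 ≤ dist x (y + v) := by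
      rw [dist_eq_norm, norm_sub_rev]
      have h1 : ‖y‖ ≤ ‖y + v - x‖ + ‖v‖ + ‖x‖ := by
        calc ‖y‖ = ‖(y + v - x) - v + x‖ := by congr 1; abel
          _ ≤ ‖(y + v - x) - v‖ + ‖x‖ := norm_add_le _ _
          _ ≤ ‖y + v - x‖ + ‖v‖ + ‖x‖ := by gcongr; exact norm_sub_le _ _
      linarith [norm_nonneg x]
    have hy1 : y ≠ x := by
      intro h; rw [h, dist_self] at hd1; linarith
    have hy2' : y + v ≠ x := by
      intro h; rw [h, dist_self] at hd2; linarith
    have hy2 : y ≠ x - v := by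
      intro h; exact hy2' (by rw [h]; abel)
    rw [halfB_dw hp hy1 hy2]
    have a1 := halfB_gf_nonneg hp hy1
    have a2 := halfB_gf_nonneg hp hy2'
    have a3 := halfB_gf_le x ω y
    have a4 := halfB_gf_le x ω (y + v)
    have a5 : (kernel x y).toReal ≤ 1 := by
      simpa using ENNReal.toReal_mono ENNReal.one_ne_top (halfB_kernel_le_one hn hd1)
    have a6 : (kernel x (y + v)).toReal ≤ 1 := by
      simpa using ENNReal.toReal_mono ENNReal.one_ne_top (halfB_kernel_le_one hn hd2)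
    rw [abs_le]; constructor <;> linarith
  -- upper bound
  have hup := upper hn μp μm hψ hR hC hw (η := η / 2) (by positivity)
  have hspl := split hn μp μm (halfB_sing hp hv0 hsing) hψ (Eventually.of_forall hfin)
    (Eventually.of_forall hfin) hup
  have hB := htc v hv4
  have hCB : C * (∫ y in Metric.ball (0 : Sp n) (2 * R), |dw μp μm y|) ≤ η / 2 := by
    calc C * (∫ y in Metric.ball (0 : Sp n) (2 * R), |dw μp μm y|)
        ≤ C * (η / (2 * (C + 1))) := mul_le_mul_of_nonneg_left hB hC0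
      _ ≤ (C + 1) * (η / (2 * (C + 1))) := by
          apply mul_le_mul_of_nonneg_right (by linarith) (by positivity)
      _ = η / 2 := by field_simp
  -- measurability
  have hgm : Measurable (gf x ω) := measurable_gf x ω
  have hindm := measurable_ind
  have hψm : Measurable ψ := hψ.smooth.continuous.measurable
  have hdwm : Measurable (dw μp μm) := by
    unfold dw
    exact ((measurable_pot μp).ennreal_toReal).sub ((measurable_pot μm).ennreal_toReal)
  obtain ⟨Cψ, hCψ⟩ : ∃ Cψ : ℝ, ∀ y, |ψ y| ≤ Cψ := by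
    obtain ⟨Cψ, h⟩ := hψ.cpt.exists_bound_of_continuous hψ.smooth.continuous
    exact ⟨Cψ, fun y => by simpa using h y⟩
  have hCψ0 : 0 ≤ Cψ := le_trans (abs_nonneg _) (hCψ x)
  -- first integral
  have hbd : ∀ (a b : ℝ), |a| ≤ Cψ → |a * (1 - 2 * ind b)| ≤ Cψ := by
    intro a b ha
    rw [abs_mul]
    have h1 := halfB_ind_nonneg b
    have h2 := halfB_ind_le b
    have h3 : |1 - 2 * ind b| ≤ 1 := by rw [abs_le]; constructor <;> linarith
    calc |a| * |1 - 2 * ind b| ≤ Cψ * 1 := mul_le_mul ha h3 (abs_nonneg _) hCψ0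
      _ = Cψ := mul_one _
  have I1 : ∫ z, ψ z * (1 - 2 * ind (dw μp μm z)) ∂μp =
      ∫ z, ψ z * (1 - 2 * ind (gf x ω (z + v))) ∂ω := by
    have hint : ∀ ν : Measure (Sp n), IsFiniteMeasure ν →
        Integrable (fun z => ψ z * (1 - 2 * ind (dw μp μm z))) ν := by
      intro ν hν
      refine Integrable.of_bound
        ((hψm.mul (measurable_const.sub ((hindm.comp hdwm).const_mul 2))).aestronglyMeasurable)
        Cψ (Eventually.of_forall fun z => ?_)
      rw [Real.norm_eq_abs]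
      exact hbd _ _ (hCψ z)
    rw [hμp, integral_add_measure (hint _ inferInstance) (hint _ inferInstance), integral_dirac,
      hψxv]
    simp only [zero_mul, zero_add]
    refine integral_congr_ae ?_
    filter_upwards [halfB_gf_zero hp] with z hz
    by_cases hψz : ψ z = 0
    · simp [hψz]
    · have hh : dw μp μm z = gf x ω (z + v) - gf x ω z :=
        halfB_dw hp (hne z hψz).1 (hne z hψz).2
      rw [hh, hz, sub_zero]
  have I2 : ∫ z, ψ z * (1 - 2 * ind (-(dw μp μm z))) ∂μm =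
      ∫ z, ψ (z - v) * (1 - 2 * ind (gf x ω (z - v))) ∂ω := by
    have hint : ∀ ν : Measure (Sp n), IsFiniteMeasure ν →
        Integrable (fun z => ψ z * (1 - 2 * ind (-(dw μp μm z)))) ν := by
      intro ν hν
      refine Integrable.of_bound
        ((hψm.mul (measurable_const.sub ((hindm.comp hdwm.neg).const_mul 2))).aestronglyMeasurable)
        Cψ (Eventually.of_forall fun z => ?_)
      rw [Real.norm_eq_abs]
      exact hbd _ _ (hCψ z)
    rw [hμm, integral_add_measure (hint _ inferInstance) (hint _ inferInstance), integral_dirac,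
      hψx0]
    simp only [zero_mul, zero_add]
    rw [integral_map hmeasv.aemeasurable (hint _ inferInstance).aestronglyMeasurable]
    refine integral_congr_ae ?_
    filter_upwards [halfB_gf_zero hp] with z hz
    by_cases hψz : ψ (z - v) = 0
    · simp [hψz]
    · have h1 := (hne _ hψz).1
      have h2 := (hne _ hψz).2
      have hh : dw μp μm (z - v) = gf x ω (z - v + v) - gf x ω (z - v) := halfB_dw hp h1 h2
      rw [hh, sub_add_cancel, hz, zero_sub, neg_neg]
  rw [I1, I2] at hspl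
  -- compare psi (z - v) with psi z
  have hi1 : Integrable (fun z => ψ z * (1 - 2 * ind (gf x ω (z + v)))) ω := by
    refine Integrable.of_bound ((hψm.mul (measurable_const.sub ((hindm.comp
      (hgm.comp (measurable_id.add_const v))).const_mul 2))).aestronglyMeasurable)
      Cψ (Eventually.of_forall fun z => ?_)
    rw [Real.norm_eq_abs]
    exact hbd _ _ (hCψ z)
  have hi2 : Integrable (fun z => ψ (z - v) * (1 - 2 * ind (gf x ω (z - v)))) ω := by
    refine Integrable.of_bound (((hψm.comp hmeasv).mul (measurable_const.sub ((hindm.comp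
      (hgm.comp hmeasv)).const_mul 2))).aestronglyMeasurable)
      Cψ (Eventually.of_forall fun z => ?_)
    rw [Real.norm_eq_abs]
    exact hbd _ _ (hCψ _)
  have hi3 : Integrable (fun z => (ψ z - ψ (z - v)) * (1 - 2 * ind (gf x ω (z - v)))) ω := by
    refine Integrable.of_bound (((hψm.sub (hψm.comp hmeasv)).mul (measurable_const.sub ((hindm.comp
      (hgm.comp hmeasv)).const_mul 2))).aestronglyMeasurable)
      (2 * Cψ) (Eventually.of_forall fun z => ?_)
    rw [Real.norm_eq_abs, abs_mul]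
    have h1 := halfB_ind_nonneg (gf x ω (z - v))
    have h2 := halfB_ind_le (gf x ω (z - v))
    have h3 : |1 - 2 * ind (gf x ω (z - v))| ≤ 1 := by rw [abs_le]; constructor <;> linarith
    have h4 : |ψ z - ψ (z - v)| ≤ 2 * Cψ := by
      have := abs_sub (ψ z) (ψ (z - v))
      linarith [hCψ z, hCψ (z - v)]
    calc |ψ z - ψ (z - v)| * |1 - 2 * ind (gf x ω (z - v))| ≤ (2 * Cψ) * 1 :=
          mul_le_mul h4 h3 (abs_nonneg _) (by positivity)
      _ = 2 * Cψ := mul_one _
  have hb3 : ∫ z, (ψ z - ψ (z - v)) * (1 - 2 * ind (gf x ω (z - v))) ∂ω ≤ η / 2 := by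
    have h1 : ∫ z, (ψ z - ψ (z - v)) * (1 - 2 * ind (gf x ω (z - v))) ∂ω ≤
        ∫ _z, (η / (2 * (m + 1))) ∂ω := by
      refine integral_mono hi3 (integrable_const _) fun z => ?_
      have h1 := halfB_ind_nonneg (gf x ω (z - v))
      have h2 := halfB_ind_le (gf x ω (z - v))
      have h3 : |1 - 2 * ind (gf x ω (z - v))| ≤ 1 := by rw [abs_le]; constructor <;> linarith
      have h4 : |ψ z - ψ (z - v)| ≤ η / (2 * (m + 1)) := by
        have := hucρ (a := z) (b := z - v) (by simpa [dist_eq_norm] using hv3)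
        rw [Real.dist_eq] at this
        exact this.le
      calc (ψ z - ψ (z - v)) * (1 - 2 * ind (gf x ω (z - v)))
          ≤ |(ψ z - ψ (z - v)) * (1 - 2 * ind (gf x ω (z - v)))| := le_abs_self _
        _ = |ψ z - ψ (z - v)| * |1 - 2 * ind (gf x ω (z - v))| := abs_mul _ _
        _ ≤ (η / (2 * (m + 1))) * 1 := mul_le_mul h4 h3 (abs_nonneg _) (by positivity)
        _ = η / (2 * (m + 1)) := mul_one _
    refine h1.trans ?_
    rw [integral_const, smul_eq_mul]
    have : ω.real univ = m := rfl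
    rw [this]
    calc m * (η / (2 * (m + 1))) ≤ (m + 1) * (η / (2 * (m + 1))) := by
          apply mul_le_mul_of_nonneg_right (by linarith) (by positivity)
      _ = η / 2 := by field_simp
  have hsum : 2 * ∫ z, ψ z * (1 - ind (gf x ω (z + v)) - ind (gf x ω (z - v))) ∂ω =
      (∫ z, ψ z * (1 - 2 * ind (gf x ω (z + v))) ∂ω) +
      (∫ z, ψ (z - v) * (1 - 2 * ind (gf x ω (z - v))) ∂ω) +
      ∫ z, (ψ z - ψ (z - v)) * (1 - 2 * ind (gf x ω (z - v))) ∂ω := by
    have e2 := integral_add (hi1.add hi2) hi3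
    simp only [Pi.add_apply] at e2
    rw [← integral_add hi1 hi2, ← e2, ← integral_const_mul]
    refine integral_congr_ae (Eventually.of_forall fun z => ?_)
    simp only
    ring
  linarith

theorem half (hn : 3 ≤ n) {x : Sp n} {ω : Measure (Sp n)} (hp : Pair x ω) {q : Sp n → ℝ}
    (hq : Integrable q ω) (hq0 : ∀ z, 0 ≤ q z) {η : ℝ} (hη : 0 < η) :
    ∃ ρ > 0, ∀ v : Sp n, v ≠ 0 → ‖v‖ < ρ → ω ⟂ₘ ω.map (fun z => z - v) →
      ∫ z, q z * (1 - ind (gf x ω (z + v)) - ind (gf x ω (z - v))) ∂ω ≤ η := by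
  have := hp.fin
  obtain ⟨ψ, hψ, hψx, hqψ⟩ := test_dense ω (hp.noatom x) hq hq0 (η := η / 2) (by positivity)
  obtain ⟨ρ, hρ, h⟩ := half_smooth hn hp hψ hψx (η := η / 2) (by positivity)
  refine ⟨ρ, hρ, fun v hv0 hv hsing => ?_⟩
  have h1 := h v hv0 hv hsing
  have hgm : Measurable (gf x ω) := measurable_gf x ω
  have hindm := measurable_ind
  have hψm : Measurable ψ := hψ.smooth.continuous.measurable
  have hmeasv : Measurable (fun z : Sp n => z - v) := by fun_prop
  set J : Sp n → ℝ := fun z => 1 - ind (gf x ω (z + v)) - ind (gf x ω (z - v)) with hJ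
  have hJm : Measurable J := (measurable_const.sub (hindm.comp
    (hgm.comp (measurable_id.add_const v)))).sub (hindm.comp (hgm.comp hmeasv))
  have hJb : ∀ z, |J z| ≤ 1 := fun z => halfB_abs_ind _ _
  have hψint : Integrable ψ ω := hψ.smooth.continuous.integrable_of_hasCompactSupport hψ.cpt
  have hi1 : Integrable (fun z => ψ z * J z) ω := by
    refine hψint.mul_bdd (c := 1) hJm.aestronglyMeasurable (Eventually.of_forall fun z => ?_)
    rw [Real.norm_eq_abs]; exact hJb z
  have hi2 : Integrable (fun z => q z * J z) ω := by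
    refine hq.mul_bdd (c := 1) hJm.aestronglyMeasurable (Eventually.of_forall fun z => ?_)
    rw [Real.norm_eq_abs]; exact hJb z
  have hi3 : Integrable (fun z => |q z - ψ z|) ω := (hq.sub hψint).abs
  have h2 : ∫ z, q z * J z ∂ω ≤ ∫ z, (ψ z * J z + |q z - ψ z|) ∂ω := by
    refine integral_mono hi2 (hi1.add hi3) fun z => ?_
    have : (q z - ψ z) * J z ≤ |q z - ψ z| := by
      calc (q z - ψ z) * J z ≤ |(q z - ψ z) * J z| := le_abs_self _
        _ = |q z - ψ z| * |J z| := abs_mul _ _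
        _ ≤ |q z - ψ z| * 1 := mul_le_mul_of_nonneg_left (hJb z) (abs_nonneg _)
        _ = |q z - ψ z| := mul_one _
    simp only
    linarith
  rw [integral_add hi1 hi3] at h2
  linarith

end TM291
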