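import Pool.Agent.Lib.MP_291eb9_an.Gauss

open MeasureTheory Set Filter Topology
open scoped ENNReal NNReal

namespace TM291

variable {n : ℕ}

/-- second differences of a `C²` function of compact support. -/
theorem second_diff {φ : Sp n → ℝ} (hφ : ContDiff ℝ 2 φ) (hc : HasCompactSupport φ) :
    ∃ C : ℝ, 0 ≤ C ∧ ∀ y z : Sp n, |φ (y + z) + φ (y - z) - 2 * φ y| ≤ C * ‖z‖ ^ 2 := by
  have h1 : ContDiff ℝ 1 (fderiv ℝ φ) := hφ.fderiv_right (by norm_num)
  obtain ⟨L, hL⟩ := h1.lipschitzWith_of_hasCompactSupport (hc.fderiv ℝ) (by norm_num)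
  have hd : Differentiable ℝ φ := hφ.differentiable (by norm_num)
  refine ⟨2 * L, by positivity, fun y z => ?_⟩
  set g : ℝ → ℝ := fun t => φ (y + t • z) + φ (y - t • z) with hg
  have hder : ∀ t : ℝ, HasDerivAt g (fderiv ℝ φ (y + t • z) z - fderiv ℝ φ (y - t • z) z) t := by
    intro t
    have a1 : HasDerivAt (fun t : ℝ => y + t • z) z t := by
      have := ((hasDerivAt_id t).smul_const z).const_add y
      simpa using this
    have a2 : HasDerivAt (fun t : ℝ => y - t • z) (-z) t := by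
      have := ((hasDerivAt_id t).smul_const z).const_sub y
      simpa using this
    have b1 := (hd (y + t • z)).hasFDerivAt.comp_hasDerivAt t a1
    have b2 := (hd (y - t • z)).hasFDerivAt.comp_hasDerivAt t a2
    have b3 := b1.add b2
    have e : fderiv ℝ φ (y + t • z) z - fderiv ℝ φ (y - t • z) z =
        fderiv ℝ φ (y + t • z) z + fderiv ℝ φ (y - t • z) (-z) := by
      rw [map_neg, sub_eq_add_neg]
    rw [e]
    exact b3
  have hbound : ∀ t ∈ Ico (0 : ℝ) 1,
      ‖fderiv ℝ φ (y + t • z) z - fderiv ℝ φ (y - t • z) z‖ ≤ 2 * L * ‖z‖ ^ 2 := by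
    intro t ht
    have e1 : ‖fderiv ℝ φ (y + t • z) - fderiv ℝ φ (y - t • z)‖ ≤ L * ‖(2 * t) • z‖ := by
      have := hL.dist_le_mul (y + t • z) (y - t • z)
      rw [dist_eq_norm, dist_eq_norm] at this
      have e : y + t • z - (y - t • z) = (2 * t) • z := by
        rw [two_mul, add_smul]; abel
      rwa [e] at this
    have e2 : ‖(2 * t) • z‖ ≤ 2 * ‖z‖ := by
      rw [norm_smul, Real.norm_eq_abs, abs_of_nonneg (by linarith [ht.1])]
      nlinarith [ht.2, norm_nonneg z]
    rw [← sub_apply]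
    calc ‖(fderiv ℝ φ (y + t • z) - fderiv ℝ φ (y - t • z)) z‖
        ≤ ‖fderiv ℝ φ (y + t • z) - fderiv ℝ φ (y - t • z)‖ * ‖z‖ :=
          ContinuousLinearMap.le_opNorm _ _
      _ ≤ (L * (2 * ‖z‖)) * ‖z‖ := mul_le_mul_of_nonneg_right
          (e1.trans (mul_le_mul_of_nonneg_left e2 L.2)) (norm_nonneg _)
      _ = 2 * L * ‖z‖ ^ 2 := by ring
  have := norm_image_sub_le_of_norm_deriv_le_segment_01'
    (fun t _ => (hder t).hasDerivWithinAt) hbound
  simp only [hg, one_smul, zero_smul, add_zero, sub_zero, Real.norm_eq_abs] at this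
  have e : φ (y + z) + φ (y - z) - 2 * φ y = φ (y + z) + φ (y - z) - (φ y + φ y) := by ring
  rw [e]; exact this

/-- `|P_sφ - φ| ≤ C s`: `second_diff`, evenness of `hk`, `hk_moment`. -/
theorem PR_sub_le {φ : Sp n → ℝ} (hφ : ContDiff ℝ 2 φ) (hc : HasCompactSupport φ) :
    ∃ C : ℝ, 0 ≤ C ∧ ∀ s : ℝ, 0 < s → ∀ y : Sp n, |PR s φ y - φ y| ≤ C * s := by
  obtain ⟨C, hC0, hC⟩ := second_diff hφ hc
  obtain ⟨A, hA⟩ := hc.exists_bound_of_continuous hφ.continuous
  refine ⟨1 / 2 * (C * (8 * 2 ^ ((n : ℝ) / 2))), by positivity, fun s hs y => ?_⟩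
  have hint : ∀ f : Sp n → Sp n, Continuous f → Integrable (fun u => hk s u * φ (f u)) := by
    intro f hf
    refine ((integrable_hk hs).mul_const A).mono'
      ((continuous_hk s).mul (hφ.continuous.comp hf)).aestronglyMeasurable
      (Eventually.of_forall fun u => ?_)
    rw [norm_mul, Real.norm_of_nonneg (hk_pos hs u).le]
    exact mul_le_mul_of_nonneg_left (hA _) (hk_pos hs u).le
  have i1 := hint (fun u => y - u) (continuous_const.sub continuous_id)
  have i2 := hint (fun u => y + u) (continuous_const.add continuous_id)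
  have i3 := hint (fun _ => y) continuous_const
  have e1 : PR s φ y = ∫ u, hk s u * φ (y - u) := by
    have := integral_sub_left_eq_self (fun u : Sp n => hk s u * φ (y - u)) volume y
    rw [← this]; unfold PR
    refine integral_congr_ae (Eventually.of_forall fun z => ?_)
    simp only [sub_sub_cancel]
  have e2 : ∫ u, hk s u * φ (y - u) = ∫ u, hk s u * φ (y + u) := by
    rw [← integral_neg_eq_self (fun u : Sp n => hk s u * φ (y + u))]
    refine integral_congr_ae (Eventually.of_forall fun z => ?_)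
    simp only [hk_neg, sub_eq_add_neg]
  have e3 : ∫ u : Sp n, hk s u * φ y = φ y := by
    rw [integral_mul_const, integral_hk hs, one_mul]
  have e4 : PR s φ y - φ y = 1 / 2 * ∫ u, hk s u * (φ (y + u) + φ (y - u) - 2 * φ y) := by
    have : ∫ u, hk s u * (φ (y + u) + φ (y - u) - 2 * φ y) =
        (∫ u, hk s u * φ (y + u)) + (∫ u, hk s u * φ (y - u)) - 2 * ∫ u : Sp n, hk s u * φ y := by
      have i12 : Integrable (fun u => hk s u * φ (y + u) + hk s u * φ (y - u)) := i2.add i1
      rw [← integral_const_mul, ← integral_add i2 i1, ← integral_sub i12 (i3.const_mul 2)]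
      refine integral_congr_ae (Eventually.of_forall fun u => ?_)
      simp only; ring
    rw [this, ← e2, ← e1, e3]; ring
  obtain ⟨m1, m2⟩ := hk_moment (n := n) hs
  have e5 : |∫ u, hk s u * (φ (y + u) + φ (y - u) - 2 * φ y)| ≤
      ∫ u : Sp n, C * (hk s u * ‖u‖ ^ 2) := by
    rw [← Real.norm_eq_abs]
    refine norm_integral_le_of_norm_le (m1.const_mul C) (Eventually.of_forall fun u => ?_)
    rw [norm_mul, Real.norm_of_nonneg (hk_pos hs u).le, Real.norm_eq_abs]
    calc hk s u * |φ (y + u) + φ (y - u) - 2 * φ y| ≤ hk s u * (C * ‖u‖ ^ 2) :=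
          mul_le_mul_of_nonneg_left (hC y u) (hk_pos hs u).le
      _ = C * (hk s u * ‖u‖ ^ 2) := by ring
  rw [integral_const_mul] at e5
  rw [e4, abs_mul, abs_of_nonneg (by norm_num : (0 : ℝ) ≤ 1 / 2)]
  calc 1 / 2 * |∫ u, hk s u * (φ (y + u) + φ (y - u) - 2 * φ y)|
      ≤ 1 / 2 * (C * (8 * 2 ^ ((n : ℝ) / 2) * s)) :=
        mul_le_mul_of_nonneg_left (e5.trans (mul_le_mul_of_nonneg_left m2 hC0)) (by norm_num)
    _ = 1 / 2 * (C * (8 * 2 ^ ((n : ℝ) / 2))) * s := by ring

end TM291
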