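import Pool.Agent.Lib.MP_291eb9_an.KernA
import Pool.Agent.Lib.MP_291eb9_an.TestA

open MeasureTheory Set Filter Topology
open scoped ENNReal NNReal

namespace TM291

variable {n : ℕ}

theorem measurable_hkE_sub0 (s : ℝ) : Measurable (fun p : Sp n × Sp n => hkE s (p.1 - p.2)) := by
  unfold hkE
  exact (((continuous_hk s).comp (continuous_fst.sub continuous_snd)).measurable).ennreal_ofReal

theorem enorm_PR_le {φ : Sp n → ℝ} {s : ℝ} (hs : 0 < s) (y : Sp n) :
    ‖PR s φ y‖ₑ ≤ ∫⁻ z, hkE s (y - z) * ‖φ z‖ₑ := by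
  unfold PR
  refine (enorm_integral_le_lintegral_enorm _).trans (le_of_eq (lintegral_congr fun z => ?_))
  rw [enorm_mul, Real.enorm_of_nonneg (hk_pos hs _).le]
  rfl

theorem lintegral_hkE_sub {s : ℝ} (hs : 0 < s) (z : Sp n) : ∫⁻ y, hkE s (y - z) = 1 := by
  rw [lintegral_sub_right_eq_self (fun y => hkE s y) z, lintegral_hkE hs]

theorem lintegral_swap_PR {φ : Sp n → ℝ} (hφ : Continuous φ) (s : ℝ) (A : Set (Sp n)) :
    ∫⁻ y in A, ∫⁻ z, hkE s (y - z) * ‖φ z‖ₑ = ∫⁻ z, ‖φ z‖ₑ * ∫⁻ y in A, hkE s (y - z) := by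
  rw [lintegral_lintegral_swap]
  · refine lintegral_congr fun z => ?_
    have hm : Measurable (fun y : Sp n => hkE s (y - z)) := by
      unfold hkE
      exact ((continuous_hk s).comp (continuous_id.sub continuous_const)).measurable.ennreal_ofReal
    rw [← lintegral_const_mul _ hm]
    refine lintegral_congr fun y => ?_
    rw [mul_comm]
  · have hm : Measurable (fun p : Sp n × Sp n => hkE s (p.1 - p.2) * ‖φ p.2‖ₑ) :=
      (measurable_hkE_sub0 s).mul ((hφ.measurable.comp measurable_snd).enorm)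
    exact hm.aemeasurable

theorem PR_cont {φ : Sp n → ℝ} (hφ : Continuous φ) (hc : HasCompactSupport φ) {s : ℝ}
    (hs : 0 < s) : Continuous (PR s φ) ∧ Integrable (PR s φ) := by
  have hφi : Integrable φ := hφ.integrable_of_hasCompactSupport hc
  have hcont : Continuous (PR s φ) := by
    unfold PR
    refine continuous_of_dominated
      (bound := fun z => (4 * Real.pi * s) ^ (-(n : ℝ) / 2) * ‖φ z‖) ?_ ?_ ?_ ?_
    · intro y
      exact (((continuous_hk s).comp (continuous_const.sub continuous_id)).mul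
        hφ).aestronglyMeasurable
    · intro y
      refine Eventually.of_forall fun z => ?_
      rw [norm_mul, Real.norm_of_nonneg (hk_pos hs _).le]
      exact mul_le_mul_of_nonneg_right (hk_le hs _) (norm_nonneg _)
    · exact hφi.norm.const_mul _
    · refine Eventually.of_forall fun z => ?_
      exact ((continuous_hk s).comp (continuous_id.sub continuous_const)).mul continuous_const
  refine ⟨hcont, hcont.aestronglyMeasurable, ?_⟩
  rw [hasFiniteIntegral_iff_enorm]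
  calc ∫⁻ y, ‖PR s φ y‖ₑ ≤ ∫⁻ y, ∫⁻ z, hkE s (y - z) * ‖φ z‖ₑ :=
        lintegral_mono fun y => enorm_PR_le hs y
    _ = ∫⁻ y in univ, ∫⁻ z, hkE s (y - z) * ‖φ z‖ₑ := by rw [setLIntegral_univ]
    _ = ∫⁻ z, ‖φ z‖ₑ * ∫⁻ y in univ, hkE s (y - z) := lintegral_swap_PR hφ s univ
    _ = ∫⁻ z, ‖φ z‖ₑ := by
        refine lintegral_congr fun z => ?_
        rw [setLIntegral_univ, lintegral_hkE_sub hs, mul_one]
    _ < ⊤ := by
        have := hφi.2
        rwa [hasFiniteIntegral_iff_enorm] at this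

theorem exp_neg_le {x : ℝ} (hx : 0 < x) : Real.exp (-x) ≤ 2 / x ^ 2 := by
  have h := Real.quadratic_le_exp_of_nonneg hx.le
  rw [Real.exp_neg, inv_eq_one_div, div_le_div_iff₀ (Real.exp_pos _) (by positivity)]
  nlinarith

/-- far away `P_sφ` is `O(s²)` in `L¹`: Fubini and `hk_tail`. -/
theorem PR_far {φ : Sp n → ℝ} (hφ : Continuous φ) {R : ℝ} (hR : 0 < R)
    (hsupp : ∀ y, R ≤ ‖y‖ → φ y = 0) :
    ∃ C : ℝ, 0 ≤ C ∧ ∀ s ∈ Ioc (0 : ℝ) 1,
      ∫ y in {y : Sp n | 2 * R ≤ ‖y‖}, |PR s φ y| ≤ C * s ^ 2 := by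
  have hc : HasCompactSupport φ := by
    refine HasCompactSupport.intro (isCompact_closedBall (0 : Sp n) R) fun y hy => ?_
    rw [mem_closedBall_zero_iff, not_le] at hy
    exact hsupp y hy.le
  have hφi : Integrable φ := hφ.integrable_of_hasCompactSupport hc
  have hI0 : 0 ≤ ∫ z, ‖φ z‖ := integral_nonneg fun z => norm_nonneg _
  refine ⟨(∫ z, ‖φ z‖) * (2 ^ ((n : ℝ) / 2) * (128 / R ^ 4)), by positivity, fun s hs => ?_⟩
  have hs0 : 0 < s := hs.1
  obtain ⟨hPc, hPi⟩ := PR_cont hφ hc hs0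
  have hA : MeasurableSet {y : Sp n | 2 * R ≤ ‖y‖} :=
    measurableSet_le measurable_const measurable_norm
  have htail : ∀ z : Sp n, ‖φ z‖ₑ * ∫⁻ y in {y : Sp n | 2 * R ≤ ‖y‖}, hkE s (y - z) ≤
      ‖φ z‖ₑ * ENNReal.ofReal (2 ^ ((n : ℝ) / 2) * Real.exp (-R ^ 2 / (8 * s))) := by
    intro z
    by_cases hz : R ≤ ‖z‖
    · simp [hsupp z hz]
    · push Not at hz
      refine mul_le_mul_right ?_ _
      calc ∫⁻ y in {y : Sp n | 2 * R ≤ ‖y‖}, hkE s (y - z)
          ≤ ∫⁻ y in {y : Sp n | R ≤ ‖y - z‖}, hkE s (y - z) := by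
            refine lintegral_mono_set fun y hy => ?_
            have hy' : 2 * R ≤ ‖y‖ := hy
            have : ‖y‖ ≤ ‖y - z‖ + ‖z‖ := by
              calc ‖y‖ = ‖(y - z) + z‖ := by rw [sub_add_cancel]
                _ ≤ _ := norm_add_le _ _
            change R ≤ ‖y - z‖
            linarith
        _ = ∫⁻ y, ({u : Sp n | R ≤ ‖u‖}.indicator (hkE s)) (y - z) := by
            rw [← lintegral_indicator (by
              exact measurableSet_le measurable_const (measurable_id.sub_const z).norm)]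
            rfl
        _ = ∫⁻ u, ({u : Sp n | R ≤ ‖u‖}.indicator (hkE s)) u :=
            lintegral_sub_right_eq_self (fun u => ({u : Sp n | R ≤ ‖u‖}.indicator (hkE s)) u) z
        _ = ∫⁻ u in {u : Sp n | R ≤ ‖u‖}, hkE s u :=
            lintegral_indicator (measurableSet_le measurable_const measurable_norm) _
        _ ≤ _ := hk_tail hs0 hR.le
  have hlin : ∫⁻ y in {y : Sp n | 2 * R ≤ ‖y‖}, ‖PR s φ y‖ₑ ≤
      ENNReal.ofReal ((∫ z, ‖φ z‖) * (2 ^ ((n : ℝ) / 2) * Real.exp (-R ^ 2 / (8 * s)))) := by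
    calc ∫⁻ y in {y : Sp n | 2 * R ≤ ‖y‖}, ‖PR s φ y‖ₑ
        ≤ ∫⁻ y in {y : Sp n | 2 * R ≤ ‖y‖}, ∫⁻ z, hkE s (y - z) * ‖φ z‖ₑ :=
          lintegral_mono fun y => enorm_PR_le hs0 y
      _ = ∫⁻ z, ‖φ z‖ₑ * ∫⁻ y in {y : Sp n | 2 * R ≤ ‖y‖}, hkE s (y - z) :=
          lintegral_swap_PR hφ s _
      _ ≤ ∫⁻ z, ‖φ z‖ₑ * ENNReal.ofReal (2 ^ ((n : ℝ) / 2) * Real.exp (-R ^ 2 / (8 * s))) :=
          lintegral_mono htail
      _ = (∫⁻ z, ‖φ z‖ₑ) * ENNReal.ofReal (2 ^ ((n : ℝ) / 2) * Real.exp (-R ^ 2 / (8 * s))) :=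
          lintegral_mul_const _ hφ.measurable.enorm
      _ = _ := by
          rw [← ofReal_integral_norm_eq_lintegral_enorm hφi, ← ENNReal.ofReal_mul hI0]
  have hreal : ∫ y in {y : Sp n | 2 * R ≤ ‖y‖}, |PR s φ y| ≤
      (∫ z, ‖φ z‖) * (2 ^ ((n : ℝ) / 2) * Real.exp (-R ^ 2 / (8 * s))) := by
    have h0 : 0 ≤ (∫ z, ‖φ z‖) * (2 ^ ((n : ℝ) / 2) * Real.exp (-R ^ 2 / (8 * s))) := by
      positivity
    rw [← ENNReal.ofReal_le_ofReal_iff h0]
    have := ofReal_integral_norm_eq_lintegral_enorm (hPi.integrableOn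
      (s := {y : Sp n | 2 * R ≤ ‖y‖}))
    simp only [Real.norm_eq_abs] at this
    rw [this]
    simpa only [Real.norm_eq_abs] using hlin
  refine hreal.trans ?_
  rw [mul_assoc]
  refine mul_le_mul_of_nonneg_left ?_ hI0
  rw [mul_assoc]
  refine mul_le_mul_of_nonneg_left ?_ (by positivity)
  have hx : 0 < R ^ 2 / (8 * s) := by positivity
  have := exp_neg_le hx
  rw [neg_div]
  refine this.trans (le_of_eq ?_)
  field_simp
  ring

theorem TT_bound (hn : 3 ≤ n) {φ : Sp n → ℝ} (hφ : IsTest φ) {R : ℝ} (hR : 0 < R)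
    (hsupp : ∀ y, R ≤ ‖y‖ → φ y = 0) :
    ∃ C : ℝ, 0 ≤ C ∧ ∀ s ∈ Ioc (0 : ℝ) 1, (∀ y, |TT s φ y| ≤ C) ∧ Continuous (TT s φ) ∧
      Integrable (TT s φ) ∧ ∫ y in {y : Sp n | 2 * R ≤ ‖y‖}, |TT s φ y| ≤ C * s := by
  obtain ⟨C1, hC1, h1⟩ := PR_sub_le hφ.smooth hφ.cpt
  obtain ⟨C2, hC2, h2⟩ := PR_far hφ.smooth.continuous hR hsupp
  have hc := cN_toReal_pos hn
  set c := (cN n).toReal with hcdef
  refine ⟨max (C1 / c) (C2 / c), le_max_of_le_left (by positivity), fun s hs => ?_⟩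
  have hs0 : 0 < s := hs.1
  obtain ⟨hPc, hPi⟩ := PR_cont hφ.smooth.continuous hφ.cpt hs0
  refine ⟨fun y => ?_, ?_, ?_, ?_⟩
  · unfold TT
    rw [abs_div, abs_of_pos (mul_pos hc hs0)]
    refine le_trans ?_ (le_max_left _ _)
    rw [div_le_div_iff₀ (mul_pos hc hs0) hc]
    have := h1 s hs0 y
    calc |PR s φ y - φ y| * c ≤ C1 * s * c := mul_le_mul_of_nonneg_right this hc.le
      _ = C1 * (c * s) := by ring
  · unfold TT
    exact (hPc.sub hφ.smooth.continuous).div_const _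
  · have : Integrable φ := hφ.smooth.continuous.integrable_of_hasCompactSupport hφ.cpt
    exact (hPi.sub this).div_const _
  · have hA : MeasurableSet {y : Sp n | 2 * R ≤ ‖y‖} :=
      measurableSet_le measurable_const measurable_norm
    have e : ∫ y in {y : Sp n | 2 * R ≤ ‖y‖}, |TT s φ y| =
        (∫ y in {y : Sp n | 2 * R ≤ ‖y‖}, |PR s φ y|) / (c * s) := by
      rw [← integral_div]
      refine setIntegral_congr_fun hA fun y hy => ?_
      have hy' : 2 * R ≤ ‖y‖ := hy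
      have : φ y = 0 := hsupp y (by linarith)
      unfold TT
      rw [this, sub_zero, abs_div, abs_of_pos (mul_pos hc hs0)]
    rw [e, div_le_iff₀ (mul_pos hc hs0)]
    calc ∫ y in {y : Sp n | 2 * R ≤ ‖y‖}, |PR s φ y| ≤ C2 * s ^ 2 := h2 s hs
      _ = C2 / c * s * (c * s) := by field_simp
      _ ≤ max (C1 / c) (C2 / c) * s * (c * s) := by
          gcongr
          exact le_max_right _ _

end TM291
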