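import Pool.Agent.Lib.MP_291eb9_an.Pot
import Pool.Agent.Lib.MP_291eb9_an.TestB

open MeasureTheory Set Filter Topology
open scoped ENNReal NNReal

namespace TM291

variable {n : ℕ}

theorem measurable_dw (μp μm : Measure (Sp n)) [SFinite μp] [SFinite μm] :
    Measurable (dw μp μm) :=
  (measurable_pot μp).ennreal_toReal.sub (measurable_pot μm).ennreal_toReal

theorem kf_measurable_hkE_sub (s : ℝ) : Measurable (fun p : Sp n × Sp n => hkE s (p.1 - p.2)) := by
  unfold hkE
  exact (((continuous_hk s).comp (continuous_fst.sub continuous_snd)).measurable).ennreal_ofReal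

theorem kf_hkE_sub_comm (s : ℝ) (y z : Sp n) : hkE s (y - z) = hkE s (z - y) := by
  unfold hkE; rw [hk_sub_comm]

theorem kf_PP_symm {f g : Sp n → ℝ≥0∞} (hf : Measurable f) (hg : Measurable g) (s : ℝ) :
    ∫⁻ y, f y * PP s g y = ∫⁻ y, g y * PP s f y := by
  have hm := kf_measurable_hkE_sub (n := n) s
  have h1 : ∀ y, f y * PP s g y = ∫⁻ z, f y * (hkE s (y - z) * g z) := fun y => by
    rw [PP, lintegral_const_mul]
    exact (hm.comp measurable_prodMk_left).mul hg
  have h2 : ∀ z, g z * PP s f z = ∫⁻ y, f y * (hkE s (y - z) * g z) := fun z => by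
    rw [PP, ← lintegral_const_mul]
    · refine lintegral_congr fun y => ?_
      rw [kf_hkE_sub_comm s z y]; ring
    · exact (hm.comp measurable_prodMk_left).mul hf
  simp_rw [h1, h2]
  rw [lintegral_lintegral_swap]
  refine Measurable.aemeasurable ?_
  exact (hf.comp measurable_fst).mul (hm.mul (hg.comp measurable_snd))

theorem lint_pot_PP_lt_top (hn : 3 ≤ n) (μ : Measure (Sp n)) [IsFiniteMeasure μ]
    {f : Sp n → ℝ≥0∞} (hf : Measurable f) (hint : ∫⁻ y, f y < ⊤) {s : ℝ} (hs : 0 < s) :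
    ∫⁻ y, pot μ y * PP s f y < ⊤ := by
  rw [kf_PP_symm (measurable_pot μ) hf s]
  obtain ⟨M, hM, hb⟩ := PP_pot_bdd hn μ hs
  calc ∫⁻ y, f y * PP s (pot μ) y ≤ ∫⁻ y, f y * M :=
        lintegral_mono fun y => mul_le_mul_right (hb y) _
    _ = (∫⁻ y, f y) * M := lintegral_mul_const _ hf
    _ < ⊤ := ENNReal.mul_lt_top hint hM.lt_top

theorem IsTest.bdd {φ : Sp n → ℝ} (hφ : IsTest φ) : ∃ B, 0 ≤ B ∧ ∀ y, φ y ≤ B := by
  obtain ⟨B, hB⟩ := hφ.cpt.exists_bound_of_continuous hφ.smooth.continuous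
  exact ⟨B, (norm_nonneg _).trans (hB 0), fun y => (le_abs_self _).trans (hB y)⟩

theorem IsTest.integrable {φ : Sp n → ℝ} (hφ : IsTest φ) : Integrable φ :=
  hφ.smooth.continuous.integrable_of_hasCompactSupport hφ.cpt

theorem IsTest.lint_lt_top {φ : Sp n → ℝ} (hφ : IsTest φ) :
    ∫⁻ y, ENNReal.ofReal (φ y) < ⊤ := by
  have := hφ.integrable.2
  rw [hasFiniteIntegral_iff_ofReal (Eventually.of_forall hφ.nonneg)] at this
  exact this

theorem lint_pot_test_lt_top (hn : 3 ≤ n) (μ : Measure (Sp n)) [IsFiniteMeasure μ]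
    {φ : Sp n → ℝ} (hφ : IsTest φ) : ∫⁻ y, pot μ y * ENNReal.ofReal (φ y) < ⊤ := by
  obtain ⟨B, hB0, hB⟩ := hφ.bdd
  obtain ⟨R, hR⟩ := hφ.cpt.isCompact.isBounded.subset_ball (0 : Sp n)
  have h1 : ∀ y, pot μ y * ENNReal.ofReal (φ y) ≤
      (Metric.ball (0 : Sp n) R).indicator (fun y => pot μ y * ENNReal.ofReal B) y := by
    intro y
    by_cases hy : y ∈ Metric.ball (0 : Sp n) R
    · rw [indicator_of_mem hy]
      exact mul_le_mul_right (ENNReal.ofReal_le_ofReal (hB y)) _
    · have : φ y = 0 := by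
        by_contra hne
        exact hy (hR (subset_tsupport _ hne))
      simp [this]
  calc ∫⁻ y, pot μ y * ENNReal.ofReal (φ y)
      ≤ ∫⁻ y, (Metric.ball (0 : Sp n) R).indicator (fun y => pot μ y * ENNReal.ofReal B) y :=
        lintegral_mono h1
    _ = ∫⁻ y in Metric.ball (0 : Sp n) R, pot μ y * ENNReal.ofReal B :=
        lintegral_indicator measurableSet_ball _
    _ = (∫⁻ y in Metric.ball (0 : Sp n) R, pot μ y) * ENNReal.ofReal B :=
        lintegral_mul_const _ (measurable_pot μ)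
    _ < ⊤ := ENNReal.mul_lt_top (lintegral_pot_ball_lt_top hn μ R) ENNReal.ofReal_lt_top

/-- `P_s φ` as an `ENNReal`. -/
theorem ofReal_PR {φ : Sp n → ℝ} (hφ : IsTest φ) {s : ℝ} (hs : 0 < s) (y : Sp n) :
    ENNReal.ofReal (PR s φ y) = PP s (fun z => ENNReal.ofReal (φ z)) y := by
  unfold PR PP
  rw [ofReal_integral_eq_lintegral_ofReal]
  · refine lintegral_congr fun z => ?_
    rw [ENNReal.ofReal_mul (hk_pos hs _).le]; rfl
  · obtain ⟨B, hB0, hB⟩ := hφ.bdd
    have hcont : Continuous (fun z => hk s (y - z) * φ z) :=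
      ((continuous_hk s).comp (continuous_const.sub continuous_id)).mul hφ.smooth.continuous
    exact hcont.integrable_of_hasCompactSupport (hφ.cpt.mul_left)
  · exact Eventually.of_forall fun z => mul_nonneg (hk_pos hs _).le (hφ.nonneg z)

theorem PR_nonneg {φ : Sp n → ℝ} (hφ : ∀ y, 0 ≤ φ y) {s : ℝ} (hs : 0 < s) (y : Sp n) :
    0 ≤ PR s φ y := integral_nonneg fun z => mul_nonneg (hk_pos hs _).le (hφ z)

theorem ofReal_abs_dw_le (μp μm : Measure (Sp n)) (y : Sp n) :
    ENNReal.ofReal |dw μp μm y| ≤ pot μp y + pot μm y := by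
  unfold dw
  refine (ENNReal.ofReal_le_ofReal (abs_sub _ _)).trans ?_
  rw [abs_of_nonneg ENNReal.toReal_nonneg, abs_of_nonneg ENNReal.toReal_nonneg,
    ENNReal.ofReal_add ENNReal.toReal_nonneg ENNReal.toReal_nonneg]
  exact add_le_add ENNReal.ofReal_toReal_le ENNReal.ofReal_toReal_le

/-- product integrability used in Fubini. -/
theorem integrable_prod (hn : 3 ≤ n) (μp μm : Measure (Sp n)) [IsFiniteMeasure μp]
    [IsFiniteMeasure μm] {φ : Sp n → ℝ} (hφ : IsTest φ) {s : ℝ} (hs : 0 < s) {F : Sp n → ℝ}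
    (hF : Measurable F) (hFw : ∀ y, |F y| ≤ |dw μp μm y|) :
    Integrable (fun p : Sp n × Sp n => F p.1 * (hk s (p.1 - p.2) * φ p.2))
      (volume.prod volume) := by
  have hmk : Measurable (fun p : Sp n × Sp n => hk s (p.1 - p.2)) :=
    ((continuous_hk s).comp (continuous_fst.sub continuous_snd)).measurable
  have hm : Measurable (fun p : Sp n × Sp n => F p.1 * (hk s (p.1 - p.2) * φ p.2)) :=
    (hF.comp measurable_fst).mul (hmk.mul (hφ.smooth.continuous.measurable.comp measurable_snd))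
  refine ⟨hm.aestronglyMeasurable, ?_⟩
  rw [hasFiniteIntegral_iff_norm]
  rw [lintegral_prod _ hm.norm.ennreal_ofReal.aemeasurable]
  have h1 : ∀ y : Sp n, ∫⁻ z, ENNReal.ofReal ‖F y * (hk s (y - z) * φ z)‖ ≤
      (pot μp y + pot μm y) * PP s (fun z => ENNReal.ofReal (φ z)) y := by
    intro y
    have : ∀ z, ENNReal.ofReal ‖F y * (hk s (y - z) * φ z)‖ =
        ENNReal.ofReal |F y| * (hkE s (y - z) * ENNReal.ofReal (φ z)) := by
      intro z
      rw [Real.norm_eq_abs, abs_mul, abs_of_nonneg (mul_nonneg (hk_pos hs _).le (hφ.nonneg z)),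
        ENNReal.ofReal_mul (abs_nonneg _), ENNReal.ofReal_mul (hk_pos hs _).le]
      rfl
    simp_rw [this]
    rw [lintegral_const_mul]
    · refine mul_le_mul_left ?_ _
      exact (ENNReal.ofReal_le_ofReal (hFw y)).trans (ofReal_abs_dw_le μp μm y)
    · exact ((kf_measurable_hkE_sub s).comp measurable_prodMk_left).mul
        hφ.smooth.continuous.measurable.ennreal_ofReal
  refine (lintegral_mono h1).trans_lt ?_
  have hmE : Measurable (fun z => ENNReal.ofReal (φ z)) :=
    hφ.smooth.continuous.measurable.ennreal_ofReal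
  have hPPm : Measurable (PP s (fun z => ENNReal.ofReal (φ z))) := by
    unfold PP
    exact Measurable.lintegral_prod_right ((kf_measurable_hkE_sub s).mul (hmE.comp measurable_snd))
  simp_rw [add_mul]
  have hm3 : Measurable (fun a => pot μp a * PP s (fun z => ENNReal.ofReal (φ z)) a) :=
    (measurable_pot μp).mul hPPm
  rw [lintegral_add_left hm3]
  exact ENNReal.add_lt_top.2 ⟨lint_pot_PP_lt_top hn μp hmE hφ.lint_lt_top hs,
    lint_pot_PP_lt_top hn μm hmE hφ.lint_lt_top hs⟩

theorem integrable_mul_test (hn : 3 ≤ n) (μp μm : Measure (Sp n)) [IsFiniteMeasure μp]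
    [IsFiniteMeasure μm] {φ : Sp n → ℝ} (hφ : IsTest φ) {F : Sp n → ℝ}
    (hF : Measurable F) (hFw : ∀ y, |F y| ≤ |dw μp μm y|) :
    Integrable (fun y => F y * φ y) := by
  have hm : Measurable (fun y => F y * φ y) := hF.mul hφ.smooth.continuous.measurable
  refine ⟨hm.aestronglyMeasurable, ?_⟩
  rw [hasFiniteIntegral_iff_norm]
  have h1 : ∀ y, ENNReal.ofReal ‖F y * φ y‖ ≤
      pot μp y * ENNReal.ofReal (φ y) + pot μm y * ENNReal.ofReal (φ y) := by
    intro y
    rw [Real.norm_eq_abs, abs_mul, abs_of_nonneg (hφ.nonneg y), ENNReal.ofReal_mul (abs_nonneg _),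
      ← add_mul]
    exact mul_le_mul_left ((ENNReal.ofReal_le_ofReal (hFw y)).trans (ofReal_abs_dw_le μp μm y)) _
  refine (lintegral_mono h1).trans_lt ?_
  have hm3 : Measurable (fun a => pot μp a * ENNReal.ofReal (φ a)) :=
    (measurable_pot μp).mul hφ.smooth.continuous.measurable.ennreal_ofReal
  rw [lintegral_add_left hm3]
  exact ENNReal.add_lt_top.2 ⟨lint_pot_test_lt_top hn μp hφ, lint_pot_test_lt_top hn μm hφ⟩

/-- `∫ F (P_sφ - φ)` is an integral against `φ`. -/
theorem fubini_TT (hn : 3 ≤ n) (μp μm : Measure (Sp n)) [IsFiniteMeasure μp]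
    [IsFiniteMeasure μm] {φ : Sp n → ℝ} (hφ : IsTest φ) {s : ℝ} (hs : 0 < s) {F : Sp n → ℝ}
    (hF : Measurable F) (hFw : ∀ y, |F y| ≤ |dw μp μm y|) :
    Integrable (fun y => F y * PR s φ y) ∧
    Integrable (fun y => φ y * PR s F y) ∧
    ∫ y, F y * PR s φ y = ∫ y, φ y * PR s F y := by
  have hi := integrable_prod hn μp μm hφ hs hF hFw
  have e1 : (fun y => F y * PR s φ y) = fun y => ∫ z, F y * (hk s (y - z) * φ z) := by
    funext y; unfold PR; rw [integral_const_mul]
  have e2 : (fun z => φ z * PR s F z) = fun z => ∫ y, F y * (hk s (y - z) * φ z) := by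
    funext z; unfold PR; rw [← integral_const_mul]
    refine integral_congr_ae (Eventually.of_forall fun y => ?_)
    simp only
    rw [hk_sub_comm s z y]; ring
  refine ⟨?_, ?_, ?_⟩
  · rw [e1]; exact hi.integral_prod_left
  · rw [e2]; exact hi.integral_prod_right
  · rw [e1, e2]; exact integral_integral_swap hi

/-- `∫ pot μ (P_s|φ| + |φ|) < ∞` by symmetry and `PP_pot_bdd`. -/
theorem integrable_mul_TT (hn : 3 ≤ n) (μp μm : Measure (Sp n)) [IsFiniteMeasure μp]
    [IsFiniteMeasure μm] {φ : Sp n → ℝ} (hφ : IsTest φ) {s : ℝ} (hs : 0 < s) {F : Sp n → ℝ}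
    (hF : Measurable F) (hFw : ∀ y, |F y| ≤ |dw μp μm y|) :
    Integrable (fun y => F y * TT s φ y) := by
  obtain ⟨h1, -, -⟩ := fubini_TT hn μp μm hφ hs hF hFw
  have h2 := integrable_mul_test hn μp μm hφ hF hFw
  have : (fun y => F y * TT s φ y) =
      fun y => (F y * PR s φ y - F y * φ y) / ((cN n).toReal * s) := by
    funext y; unfold TT; ring
  rw [this]
  exact (h1.sub h2).div_const _

theorem integral_mul_TT (hn : 3 ≤ n) (μp μm : Measure (Sp n)) [IsFiniteMeasure μp]
    [IsFiniteMeasure μm] {φ : Sp n → ℝ} (hφ : IsTest φ) {s : ℝ} (hs : 0 < s) {F : Sp n → ℝ}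
    (hF : Measurable F) (hFw : ∀ y, |F y| ≤ |dw μp μm y|) :
    ∫ y, F y * TT s φ y = (∫ y, φ y * (PR s F y - F y)) / ((cN n).toReal * s) := by
  obtain ⟨h1, h1', h3⟩ := fubini_TT hn μp μm hφ hs hF hFw
  have h2 := integrable_mul_test hn μp μm hφ hF hFw
  have : (fun y => F y * TT s φ y) =
      fun y => (F y * PR s φ y - F y * φ y) / ((cN n).toReal * s) := by
    funext y; unfold TT; ring
  rw [this, integral_div, integral_sub h1 h2, h3]
  have e : (fun y => φ y * (PR s F y - F y)) = fun y => φ y * PR s F y - F y * φ y := by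
    funext y; ring
  rw [e, integral_sub h1' h2]

/-- integrability of `p_s(y-·) w` and its integral. -/
theorem PR_toReal_pot (hn : 3 ≤ n) (μ : Measure (Sp n)) [IsFiniteMeasure μ] {s : ℝ} (hs : 0 < s)
    (y : Sp n) : Integrable (fun z => hk s (y - z) * (pot μ z).toReal) ∧
      ∫ z, hk s (y - z) * (pot μ z).toReal = (PP s (pot μ) y).toReal := by
  have hm1 : Measurable (fun z => hkE s (y - z) * pot μ z) :=
    ((kf_measurable_hkE_sub s).comp measurable_prodMk_left).mul (measurable_pot μ)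
  have hfin : ∫⁻ z, hkE s (y - z) * pot μ z ≠ ⊤ := by
    obtain ⟨M, hM, hb⟩ := PP_pot_bdd hn μ hs
    exact ((hb y).trans_lt hM.lt_top).ne
  have e : (fun z => hk s (y - z) * (pot μ z).toReal) =
      fun z => (hkE s (y - z) * pot μ z).toReal := by
    funext z
    rw [ENNReal.toReal_mul, hkE, ENNReal.toReal_ofReal (hk_pos hs _).le]
  rw [e]
  refine ⟨integrable_toReal_of_lintegral_ne_top hm1.aemeasurable hfin, ?_⟩
  rw [integral_toReal hm1.aemeasurable (ae_lt_top hm1 hfin)]
  rfl

theorem PR_dw (hn : 3 ≤ n) (μp μm : Measure (Sp n)) [IsFiniteMeasure μp]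
    [IsFiniteMeasure μm] {s : ℝ} (hs : 0 < s) {y : Sp n} (h1 : pot μp y < ⊤)
    (h2 : pot μm y < ⊤) :
    Integrable (fun z => hk s (y - z) * dw μp μm z) ∧
    PR s (dw μp μm) y - dw μp μm y =
      (cN n).toReal * ((KM s μm y).toReal - (KM s μp y).toReal) := by
  obtain ⟨ip, ep⟩ := PR_toReal_pot hn μp hs y
  obtain ⟨im, em⟩ := PR_toReal_pot hn μm hs y
  have e : (fun z => hk s (y - z) * dw μp μm z) =
      fun z => hk s (y - z) * (pot μp z).toReal - hk s (y - z) * (pot μm z).toReal := by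
    funext z; unfold dw; ring
  have key : ∀ (μ : Measure (Sp n)) [IsFiniteMeasure μ], pot μ y < ⊤ →
      (pot μ y).toReal = (PP s (pot μ) y).toReal + (cN n).toReal * (KM s μ y).toReal := by
    intro μ _ hμ
    have h := PP_pot_add hn μ hs y
    have hle : PP s (pot μ) y ≤ pot μ y := by rw [← h]; exact le_self_add
    have hle2 : cN n * KM s μ y ≤ pot μ y := by rw [← h]; exact le_add_self
    rw [← ENNReal.toReal_mul, ← ENNReal.toReal_add (hle.trans_lt hμ).ne (hle2.trans_lt hμ).ne, h]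
  refine ⟨by rw [e]; exact ip.sub im, ?_⟩
  unfold PR
  rw [e, integral_sub ip im, ep, em]
  unfold dw
  rw [key μp h1, key μm h2]
  ring

theorem kf_integrable_hk_comp {s : ℝ} (hs : 0 < s) (y : Sp n) :
    Integrable (fun z => hk s (y - z)) := (integrable_hk hs).comp_sub_left y

theorem kf_integral_hk_comp {s : ℝ} (hs : 0 < s) (y : Sp n) : ∫ z, hk s (y - z) = 1 := by
  rw [integral_sub_left_eq_self (fun z => hk s z) volume y, integral_hk hs]

/-- pointwise Kato inequality. -/
theorem kato_pointwise (hn : 3 ≤ n) (μp μm : Measure (Sp n)) [IsFiniteMeasure μp]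
    [IsFiniteMeasure μm] {h h' : ℝ → ℝ} (hconv : ∀ a b, h a + h' a * (b - a) ≤ h b)
    (h'0 : ∀ t, 0 ≤ h' t) (hmeas : Measurable h) (habs : ∀ t, |h t| ≤ |t|) {s : ℝ} (hs : 0 < s)
    {y : Sp n} (h1 : pot μp y < ⊤) (h2 : pot μm y < ⊤) :
    -((cN n).toReal * (h' (dw μp μm y) * (KM s μp y).toReal)) ≤
      PR s (fun z => h (dw μp μm z)) y - h (dw μp μm y) := by
  obtain ⟨iw, ew⟩ := PR_dw hn μp μm hs h1 h2
  have ik := kf_integrable_hk_comp hs y
  have ek := kf_integral_hk_comp hs y
  have ih : Integrable (fun z => hk s (y - z) * h (dw μp μm z)) := by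
    refine iw.mono (Measurable.aestronglyMeasurable ?_) (Eventually.of_forall fun z => ?_)
    · exact (((continuous_hk s).comp (continuous_const.sub continuous_id)).measurable).mul
        (hmeas.comp (measurable_dw μp μm))
    · rw [norm_mul, norm_mul]
      exact mul_le_mul_of_nonneg_left (habs _) (norm_nonneg _)
  set a := dw μp μm y with ha
  have i1 : Integrable (fun z => hk s (y - z) * (h a + h' a * (dw μp μm z - a))) := by
    have : (fun z => hk s (y - z) * (h a + h' a * (dw μp μm z - a))) =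
        fun z => hk s (y - z) * (h a - h' a * a) + h' a * (hk s (y - z) * dw μp μm z) := by
      funext z; ring
    rw [this]
    exact (ik.mul_const _).add (iw.const_mul _)
  have e1 : ∫ z, hk s (y - z) * (h a + h' a * (dw μp μm z - a)) =
      h a + h' a * (PR s (dw μp μm) y - a) := by
    have : (fun z => hk s (y - z) * (h a + h' a * (dw μp μm z - a))) =
        fun z => hk s (y - z) * (h a - h' a * a) + h' a * (hk s (y - z) * dw μp μm z) := by
      funext z; ring
    rw [this, integral_add (ik.mul_const _) (iw.const_mul _), integral_mul_const,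
      integral_const_mul, ek]
    unfold PR; ring
  have h3 : h a + h' a * (PR s (dw μp μm) y - a) ≤ PR s (fun z => h (dw μp μm z)) y := by
    rw [← e1]
    unfold PR
    exact integral_mono i1 ih fun z => mul_le_mul_of_nonneg_left (hconv _ _) (hk_pos hs _).le
  rw [ew] at h3
  have h4 : 0 ≤ (cN n).toReal * (h' a * (KM s μm y).toReal) :=
    mul_nonneg ENNReal.toReal_nonneg (mul_nonneg (h'0 _) ENNReal.toReal_nonneg)
  linarith [h3, h4]

theorem integrable_test_KM (μ : Measure (Sp n)) [IsFiniteMeasure μ] {φ : Sp n → ℝ}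
    (hφ : IsTest φ) {θ : Sp n → ℝ} (hθ : Measurable θ) (h1 : ∀ y, |θ y| ≤ 1) {s : ℝ}
    (hs : 0 < s) : Integrable (fun y => φ y * θ y * (KM s μ y).toReal) := by
  have hKm := measurable_KM s μ
  have hK : Integrable (fun y => (KM s μ y).toReal) := by
    refine integrable_toReal_of_lintegral_ne_top hKm.aemeasurable ?_
    rw [lintegral_KM μ hs]
    exact (ENNReal.mul_lt_top ENNReal.ofReal_lt_top (measure_lt_top μ _)).ne
  obtain ⟨B, hB0, hB⟩ := hφ.bdd
  refine (hK.const_mul B).mono (Measurable.aestronglyMeasurable ?_)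
    (Eventually.of_forall fun y => ?_)
  · exact (hφ.smooth.continuous.measurable.mul hθ).mul hKm.ennreal_toReal
  · rw [norm_mul, norm_mul, norm_mul]
    refine mul_le_mul_of_nonneg_right ?_ (norm_nonneg _)
    rw [Real.norm_of_nonneg (hφ.nonneg y), Real.norm_of_nonneg hB0]
    calc φ y * ‖θ y‖ ≤ B * 1 := mul_le_mul (hB y) (h1 y) (norm_nonneg _) hB0
      _ = B := mul_one B

/-- Kato inequality before the limit `s → 0`. -/
theorem kato_fin (hn : 3 ≤ n) (μp μm : Measure (Sp n)) [IsFiniteMeasure μp] [IsFiniteMeasure μm]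
    {φ : Sp n → ℝ} (hφ : IsTest φ) {h h' : ℝ → ℝ} (hconv : ∀ a b, h a + h' a * (b - a) ≤ h b)
    (h'0 : ∀ t, 0 ≤ h' t) (h'1 : ∀ t, h' t ≤ 1) (hmeas : Measurable h) (h'meas : Measurable h')
    (habs : ∀ t, |h t| ≤ |t|) {s : ℝ} (hs : 0 < s) :
    -((∫ y, φ y * h' (dw μp μm y) * (KM s μp y).toReal) / s) ≤
      ∫ y, h (dw μp μm y) * TT s φ y := by
  have hF : Measurable (fun y => h (dw μp μm y)) := hmeas.comp (measurable_dw μp μm)
  have hFw : ∀ y, |h (dw μp μm y)| ≤ |dw μp μm y| := fun y => habs _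
  obtain ⟨-, i2, -⟩ := fubini_TT hn μp μm hφ hs hF hFw
  have i3 := integrable_mul_test hn μp μm hφ hF hFw
  rw [integral_mul_TT hn μp μm hφ hs hF hFw]
  have hc : 0 < (cN n).toReal := cN_toReal_pos hn
  have iK := integrable_test_KM μp hφ (h'meas.comp (measurable_dw μp μm))
    (fun y => by rw [Function.comp, abs_of_nonneg (h'0 _)]; exact h'1 _) hs
  have key : -((cN n).toReal * ∫ y, φ y * h' (dw μp μm y) * (KM s μp y).toReal) ≤
      ∫ y, φ y * (PR s (fun z => h (dw μp μm z)) y - h (dw μp μm y)) := by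
    rw [← integral_const_mul, ← integral_neg]
    refine integral_mono_ae ((iK.const_mul _).neg) ?_ ?_
    · have e : (fun y => φ y * (PR s (fun z => h (dw μp μm z)) y - h (dw μp μm y))) =
        fun y => φ y * PR s (fun z => h (dw μp μm z)) y - h (dw μp μm y) * φ y := by
        funext y; ring
      rw [e]; exact i2.sub i3
    · filter_upwards [pot_ae_lt_top hn μp, pot_ae_lt_top hn μm] with y hy1 hy2
      have := mul_le_mul_of_nonneg_left
        (kato_pointwise hn μp μm hconv h'0 hmeas habs hs hy1 hy2) (hφ.nonneg y)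
      refine le_trans (le_of_eq ?_) this
      ring
  rw [le_div_iff₀ (mul_pos hc hs)]
  refine le_trans (le_of_eq ?_) key
  field_simp

/-- the linear identity. -/
theorem lin_fin (hn : 3 ≤ n) (μp μm : Measure (Sp n)) [IsFiniteMeasure μp] [IsFiniteMeasure μm]
    {φ : Sp n → ℝ} (hφ : IsTest φ) {s : ℝ} (hs : 0 < s) :
    ∫ y, dw μp μm y * TT s φ y =
      -((∫ y, φ y * (KM s μp y).toReal) / s) + (∫ y, φ y * (KM s μm y).toReal) / s := by
  have hF : Measurable (fun y => dw μp μm y) := measurable_dw μp μm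
  rw [integral_mul_TT hn μp μm hφ hs hF (fun y => le_rfl)]
  have hc : 0 < (cN n).toReal := cN_toReal_pos hn
  have iKp := integrable_test_KM μp hφ (θ := fun _ => 1) measurable_const (by simp) hs
  have iKm := integrable_test_KM μm hφ (θ := fun _ => 1) measurable_const (by simp) hs
  simp only [mul_one] at iKp iKm
  have e : ∫ y, φ y * (PR s (fun y => dw μp μm y) y - dw μp μm y) =
      ∫ y, (cN n).toReal * (φ y * (KM s μm y).toReal - φ y * (KM s μp y).toReal) := by
    refine integral_congr_ae ?_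
    filter_upwards [pot_ae_lt_top hn μp, pot_ae_lt_top hn μm] with y hy1 hy2
    obtain ⟨-, h3⟩ := PR_dw hn μp μm hs hy1 hy2
    change φ y * (PR s (dw μp μm) y - dw μp μm y) = _
    rw [h3]; ring
  rw [e, integral_const_mul, integral_sub iKm iKp]
  field_simp
  ring

end TM291
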