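import Pool.Agent.Lib.MP_291eb9_an.Pot

open MeasureTheory Set Filter Topology
open scoped ENNReal NNReal

namespace TM291

variable {n : ℕ}

private lemma meanA_lintegral_KK {s : ℝ} (hs : 0 < s) (z : Sp n) :
    ∫⁻ y : Sp n, KK s (y - z) = ENNReal.ofReal s := by
  rw [← lintegral_KK (n := n) hs]
  exact lintegral_sub_right_eq_self (fun y => KK s y) z

private lemma meanA_meas (s : ℝ) (z : Sp n) : Measurable fun y : Sp n => KK s (y - z) :=
  (measurable_KK s).comp (measurable_id.sub_const z)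

/-- splitting an integral against `K_s` at distance `ρ` -/
private lemma meanA_split {s : ℝ} (hs : 0 < s) (z : Sp n) {ρ : ℝ} (φ : Sp n → ℝ≥0∞) {a b : ℝ≥0∞}
    (ha : ∀ y, ‖y - z‖ < ρ → φ y ≤ a) (hb : ∀ y, φ y ≤ b) :
    (∫⁻ y, KK s (y - z) * φ y) / ENNReal.ofReal s ≤
      a + b * ((∫⁻ y in {y : Sp n | ρ ≤ ‖y‖}, KK s y) / ENNReal.ofReal s) := by
  have hsE : ENNReal.ofReal s ≠ 0 := by
    rw [Ne, ENNReal.ofReal_eq_zero, not_le]; exact hs
  have hS : MeasurableSet {y : Sp n | ρ ≤ ‖y‖} := measurableSet_le measurable_const measurable_norm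
  have htail : ∫⁻ y, ({y : Sp n | ρ ≤ ‖y‖}.indicator (KK s)) (y - z) =
      ∫⁻ y in {y : Sp n | ρ ≤ ‖y‖}, KK s y := by
    rw [lintegral_sub_right_eq_self (fun y => ({y : Sp n | ρ ≤ ‖y‖}.indicator (KK s)) y) z,
      lintegral_indicator hS]
  have hmain : (∫⁻ y, KK s (y - z) * φ y) ≤
      a * ENNReal.ofReal s + b * ∫⁻ y in {y : Sp n | ρ ≤ ‖y‖}, KK s y := by
    have hm1 : Measurable fun y : Sp n => ({y : Sp n | ρ ≤ ‖y‖}.indicator (KK s)) (y - z) :=
      ((measurable_KK s).indicator hS).comp (measurable_id.sub_const z)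
    calc (∫⁻ y, KK s (y - z) * φ y)
        ≤ ∫⁻ y, (a * KK s (y - z) +
            b * ({y : Sp n | ρ ≤ ‖y‖}.indicator (KK s)) (y - z)) := by
          refine lintegral_mono fun y => ?_
          rcases lt_or_ge ‖y - z‖ ρ with h | h
          · calc KK s (y - z) * φ y ≤ KK s (y - z) * a := mul_le_mul' le_rfl (ha y h)
              _ = a * KK s (y - z) := mul_comm _ _
              _ ≤ _ := le_self_add
          · have h2 : ({y : Sp n | ρ ≤ ‖y‖}.indicator (KK s)) (y - z) = KK s (y - z) :=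
              indicator_of_mem (s := {y : Sp n | ρ ≤ ‖y‖}) h _
            calc KK s (y - z) * φ y ≤ KK s (y - z) * b := mul_le_mul' le_rfl (hb y)
              _ = b * KK s (y - z) := mul_comm _ _
              _ ≤ _ := by simp only [h2]; exact le_add_self
      _ = a * ENNReal.ofReal s + b * ∫⁻ y in {y : Sp n | ρ ≤ ‖y‖}, KK s y := by
          rw [lintegral_add_left ((meanA_meas s z).const_mul a),
            lintegral_const_mul _ (meanA_meas s z), lintegral_const_mul _ hm1,
            meanA_lintegral_KK hs, htail]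
  calc (∫⁻ y, KK s (y - z) * φ y) / ENNReal.ofReal s
      ≤ (a * ENNReal.ofReal s + b * ∫⁻ y in {y : Sp n | ρ ≤ ‖y‖}, KK s y) /
          ENNReal.ofReal s := ENNReal.div_le_div_right hmain _
    _ = a + b * ((∫⁻ y in {y : Sp n | ρ ≤ ‖y‖}, KK s y) / ENNReal.ofReal s) := by
        rw [ENNReal.add_div, mul_div_assoc, ENNReal.div_self hsE ENNReal.ofReal_ne_top, mul_one,
          mul_div_assoc]

private lemma meanA_tendsto_zero {H : ℝ → ℝ≥0∞}
    (h : ∀ ε : ℝ≥0∞, 0 < ε → ∃ T : ℝ → ℝ≥0∞, Tendsto T (𝓝[>] 0) (𝓝 0) ∧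
      ∀ s : ℝ, 0 < s → H s ≤ ε + T s) : Tendsto H (𝓝[>] 0) (𝓝 0) := by
  rw [ENNReal.tendsto_nhds_zero]
  intro ε hε
  obtain ⟨T, hT, hH⟩ := h (ε / 2) (ENNReal.half_pos hε.ne')
  filter_upwards [self_mem_nhdsWithin, (ENNReal.tendsto_nhds_zero.1 hT) (ε / 2)
    (ENNReal.half_pos hε.ne')] with s hs hs2
  calc H s ≤ ε / 2 + T s := hH s hs
    _ ≤ ε / 2 + ε / 2 := add_le_add le_rfl hs2
    _ = ε := ENNReal.add_halves ε

/-- potentials are continuous in the mean where they are finite: `lsc_pot`, `lintegral_KK_pot_le`,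
`KK_tail`, `lintegral_KK`. -/
theorem MC_pot (hn : 3 ≤ n) (μ : Measure (Sp n)) [IsFiniteMeasure μ] {z : Sp n}
    (hz : pot μ z < ⊤) : MC (fun y => (pot μ y).toReal) z := by
  refine meanA_tendsto_zero fun ε hε => ?_
  -- lower semicontinuity
  have hε2 : 0 < ε / 2 := ENNReal.half_pos hε.ne'
  obtain ⟨ρ, hρ, hlsc⟩ : ∃ ρ > 0, ∀ y, ‖y - z‖ < ρ → pot μ z - pot μ y ≤ ε / 2 := by
    rcases eq_or_ne (pot μ z) 0 with h0 | h0
    · exact ⟨1, one_pos, fun y _ => by rw [h0, zero_tsub]; exact bot_le⟩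
    · have hlt : pot μ z - ε / 2 < pot μ z := ENNReal.sub_lt_self hz.ne h0 hε2.ne'
      obtain ⟨ρ, hρ, h⟩ := Metric.eventually_nhds_iff.1 (lsc_pot hn μ z _ hlt)
      refine ⟨ρ, hρ, fun y hy => ?_⟩
      have := h (y := y) (by rw [dist_eq_norm]; exact hy)
      exact tsub_le_iff_left.2 ((tsub_le_iff_right.1 this.le))
  refine ⟨fun s => 2 * pot μ z * ((∫⁻ y in {y : Sp n | ρ ≤ ‖y‖}, KK s y) / ENNReal.ofReal s),
    ?_, fun s hs => ?_⟩
  · have := ENNReal.Tendsto.const_mul (KK_tail (n := n) hρ)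
      (a := 2 * pot μ z) (Or.inr (ENNReal.mul_ne_top (by norm_num) hz.ne))
    simpa using this
  · have hsE : ENNReal.ofReal s ≠ 0 := by
      rw [Ne, ENNReal.ofReal_eq_zero, not_le]; exact hs
    -- pointwise inequality
    have hpt : ∀ y, ENNReal.ofReal |(pot μ y).toReal - (pot μ z).toReal| + pot μ z ≤
        pot μ y + 2 * (pot μ z - pot μ y) := by
      intro y
      rcases eq_or_ne (pot μ y) ⊤ with hy | hy
      · rw [hy, top_add]; exact le_top
      · rcases le_total (pot μ z) (pot μ y) with h | h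
        · rw [tsub_eq_zero_of_le h, mul_zero, add_zero]
          have h' : (pot μ z).toReal ≤ (pot μ y).toReal := ENNReal.toReal_mono hy h
          rw [abs_of_nonneg (sub_nonneg.2 h'), ENNReal.ofReal_sub _ ENNReal.toReal_nonneg,
            ENNReal.ofReal_toReal hy, ENNReal.ofReal_toReal hz.ne, tsub_add_cancel_of_le h]
        · have h' : (pot μ y).toReal ≤ (pot μ z).toReal := ENNReal.toReal_mono hz.ne h
          rw [abs_sub_comm, abs_of_nonneg (sub_nonneg.2 h'),
            ENNReal.ofReal_sub _ ENNReal.toReal_nonneg, ENNReal.ofReal_toReal hy,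
            ENNReal.ofReal_toReal hz.ne, two_mul, ← add_assoc, add_tsub_cancel_of_le h, add_comm]
    have hint : (∫⁻ y, KK s (y - z) * ENNReal.ofReal |(pot μ y).toReal - (pot μ z).toReal|) ≤
        ∫⁻ y, KK s (y - z) * (2 * (pot μ z - pot μ y)) := by
      have hfin : ENNReal.ofReal s * pot μ z ≠ ⊤ := ENNReal.mul_ne_top ENNReal.ofReal_ne_top hz.ne
      have h1 : (∫⁻ y, KK s (y - z) * ENNReal.ofReal |(pot μ y).toReal - (pot μ z).toReal|) +
          ENNReal.ofReal s * pot μ z ≤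
          (∫⁻ y, KK s (y - z) * (2 * (pot μ z - pot μ y))) + ENNReal.ofReal s * pot μ z := by
        calc (∫⁻ y, KK s (y - z) * ENNReal.ofReal |(pot μ y).toReal - (pot μ z).toReal|) +
              ENNReal.ofReal s * pot μ z
            = ∫⁻ y, (KK s (y - z) * ENNReal.ofReal |(pot μ y).toReal - (pot μ z).toReal| +
                KK s (y - z) * pot μ z) := by
              rw [lintegral_add_right _ ((meanA_meas s z).mul_const _),
                lintegral_mul_const _ (meanA_meas s z), meanA_lintegral_KK hs]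
          _ ≤ ∫⁻ y, (KK s (y - z) * (2 * (pot μ z - pot μ y)) + KK s (y - z) * pot μ y) := by
              refine lintegral_mono fun y => ?_
              rw [← mul_add, ← mul_add]
              exact mul_le_mul' le_rfl ((hpt y).trans (add_comm _ _).le)
          _ = (∫⁻ y, KK s (y - z) * (2 * (pot μ z - pot μ y))) +
                ∫⁻ y, KK s (y - z) * pot μ y :=
              lintegral_add_right _ ((meanA_meas s z).mul (measurable_pot μ))
          _ ≤ _ := add_le_add le_rfl (lintegral_KK_pot_le hn μ hs z)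
      exact (ENNReal.add_le_add_iff_right hfin).1 h1
    refine (ENNReal.div_le_div_right hint _).trans ?_
    refine (meanA_split hs z (ρ := ρ) (fun y => 2 * (pot μ z - pot μ y)) (a := ε)
      (b := 2 * pot μ z) (fun y hy => ?_) (fun y => ?_))
    · calc 2 * (pot μ z - pot μ y) ≤ 2 * (ε / 2) := mul_le_mul' le_rfl (hlsc y hy)
        _ = ε := ENNReal.mul_div_cancel (by norm_num) (by norm_num)
    · exact mul_le_mul' le_rfl tsub_le_self

theorem MC_sub {F G : Sp n → ℝ} (hF : Measurable F) (hG : Measurable G) {z : Sp n}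
    (h1 : MC F z) (h2 : MC G z) : MC (fun y => F y - G y) z := by
  have hsum := h1.add h2
  rw [add_zero] at hsum
  refine tendsto_of_tendsto_of_tendsto_of_le_of_le tendsto_const_nhds hsum
    (fun _ => bot_le) fun s => ?_
  simp only
  rw [← ENNReal.add_div]
  refine ENNReal.div_le_div_right ?_ _
  have hmm : Measurable fun y => KK s (y - z) * ENNReal.ofReal |F y - F z| :=
    (meanA_meas s z).mul (hF.sub_const _).abs.ennreal_ofReal
  rw [← lintegral_add_left hmm]
  refine lintegral_mono fun y => ?_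
  rw [← mul_add, ← ENNReal.ofReal_add (abs_nonneg _) (abs_nonneg _)]
  refine mul_le_mul' le_rfl (ENNReal.ofReal_le_ofReal ?_)
  have : F y - G y - (F z - G z) = (F y - F z) - (G y - G z) := by ring
  rw [this]; exact abs_sub _ _

theorem MC_dw (hn : 3 ≤ n) (μp μm : Measure (Sp n)) [IsFiniteMeasure μp] [IsFiniteMeasure μm]
    {z : Sp n} (h1 : pot μp z < ⊤) (h2 : pot μm z < ⊤) : MC (dw μp μm) z :=
  MC_sub (measurable_pot μp).ennreal_toReal (measurable_pot μm).ennreal_toReal
    (MC_pot hn μp h1) (MC_pot hn μm h2)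

theorem MC_lipschitz {F : Sp n → ℝ} {h : ℝ → ℝ} {L : ℝ} (hL : 0 ≤ L)
    (hh : ∀ a b, |h a - h b| ≤ L * |a - b|) {z : Sp n} (h1 : MC F z) :
    MC (fun y => h (F y)) z := by
  have h2 := ENNReal.Tendsto.const_mul h1 (a := ENNReal.ofReal L) (Or.inr ENNReal.ofReal_ne_top)
  rw [mul_zero] at h2
  refine tendsto_of_tendsto_of_tendsto_of_le_of_le tendsto_const_nhds h2
    (fun _ => bot_le) fun s => ?_
  simp only
  rw [← mul_div_assoc, ← lintegral_const_mul' _ _ ENNReal.ofReal_ne_top]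
  refine ENNReal.div_le_div_right (lintegral_mono fun y => ?_) _
  rw [mul_left_comm, ← ENNReal.ofReal_mul hL]
  exact mul_le_mul' le_rfl (ENNReal.ofReal_le_ofReal (hh _ _))

/-- bounded continuous functions (`KK_tail`, `lintegral_KK`). -/
theorem MC_of_continuous {F : Sp n → ℝ} (hF : Continuous F) {M : ℝ} (hM : ∀ y, |F y| ≤ M)
    (z : Sp n) : MC F z := by
  refine meanA_tendsto_zero fun ε hε => ?_
  obtain ⟨ρ, hρ, hc⟩ : ∃ ρ > 0, ∀ y, ‖y - z‖ < ρ → ENNReal.ofReal |F y - F z| ≤ ε := by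
    have hcont : Continuous fun y => ENNReal.ofReal |F y - F z| :=
      ENNReal.continuous_ofReal.comp (hF.sub continuous_const).abs
    have h0 : ∀ᶠ y in 𝓝 z, ENNReal.ofReal |F y - F z| < ε := by
      refine hcont.continuousAt.eventually_lt continuousAt_const ?_
      simpa using hε
    obtain ⟨ρ, hρ, h⟩ := Metric.eventually_nhds_iff.1 h0
    exact ⟨ρ, hρ, fun y hy => (h (y := y) (by rw [dist_eq_norm]; exact hy)).le⟩
  refine ⟨fun s => ENNReal.ofReal (2 * M) *
    ((∫⁻ y in {y : Sp n | ρ ≤ ‖y‖}, KK s y) / ENNReal.ofReal s), ?_, fun s hs => ?_⟩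
  · have := ENNReal.Tendsto.const_mul (KK_tail (n := n) hρ)
      (a := ENNReal.ofReal (2 * M)) (Or.inr ENNReal.ofReal_ne_top)
    simpa using this
  · refine meanA_split hs z (ρ := ρ) (fun y => ENNReal.ofReal |F y - F z|) hc fun y => ?_
    exact ENNReal.ofReal_le_ofReal ((abs_sub _ _).trans (by linarith [hM y, hM z]))

theorem MC_mul {F G : Sp n → ℝ} (hF : Measurable F) (hG : Measurable G) {M : ℝ}
    (hFM : ∀ y, |F y| ≤ M) (hGM : ∀ y, |G y| ≤ M) {z : Sp n} (h1 : MC F z)
    (h2 : F z ≠ 0 → MC G z) : MC (fun y => F y * G y) z := by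
  have hM0 : 0 ≤ M := (abs_nonneg _).trans (hFM z)
  have e1 := ENNReal.Tendsto.const_mul h1 (a := ENNReal.ofReal M) (Or.inr ENNReal.ofReal_ne_top)
  rw [mul_zero] at e1
  have e2 : Tendsto (fun s : ℝ => ENNReal.ofReal |F z| *
      ((∫⁻ y, KK s (y - z) * ENNReal.ofReal |G y - G z|) / ENNReal.ofReal s))
      (𝓝[>] 0) (𝓝 0) := by
    by_cases hz : F z = 0
    · simp only [hz, abs_zero, ENNReal.ofReal_zero, zero_mul]; exact tendsto_const_nhds
    · have := ENNReal.Tendsto.const_mul (h2 hz) (a := ENNReal.ofReal |F z|)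
        (Or.inr ENNReal.ofReal_ne_top)
      rwa [mul_zero] at this
  have hsum := e1.add e2
  rw [add_zero] at hsum
  refine tendsto_of_tendsto_of_tendsto_of_le_of_le tendsto_const_nhds hsum
    (fun _ => bot_le) fun s => ?_
  simp only
  rw [← mul_div_assoc, ← mul_div_assoc, ← ENNReal.add_div,
    ← lintegral_const_mul' _ _ ENNReal.ofReal_ne_top,
    ← lintegral_const_mul' _ _ ENNReal.ofReal_ne_top]
  refine ENNReal.div_le_div_right ?_ _
  have hmm : Measurable fun y =>
      ENNReal.ofReal M * (KK s (y - z) * ENNReal.ofReal |F y - F z|) :=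
    ((meanA_meas s z).mul (hF.sub_const _).abs.ennreal_ofReal).const_mul _
  rw [← lintegral_add_left hmm]
  refine lintegral_mono fun y => ?_
  rw [mul_left_comm (ENNReal.ofReal M), mul_left_comm (ENNReal.ofReal |F z|), ← mul_add,
    ← ENNReal.ofReal_mul hM0, ← ENNReal.ofReal_mul (abs_nonneg _),
    ← ENNReal.ofReal_add (mul_nonneg hM0 (abs_nonneg _))
      (mul_nonneg (abs_nonneg _) (abs_nonneg _))]
  refine mul_le_mul' le_rfl (ENNReal.ofReal_le_ofReal ?_)
  have e : F y * G y - F z * G z = G y * (F y - F z) + F z * (G y - G z) := by ring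
  rw [e]
  refine (abs_add_le _ _).trans (add_le_add ?_ ?_)
  · rw [abs_mul]; exact mul_le_mul_of_nonneg_right (hGM y) (abs_nonneg _)
  · rw [abs_mul]

end TM291
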