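import Pool.Agent.Lib.MP_291eb9_an.Pot

open MeasureTheory Set Filter Topology
open scoped ENNReal NNReal

namespace TM291

variable {n : ℕ}

private lemma meanB_lintegral_KK {s : ℝ} (hs : 0 < s) (z : Sp n) :
    ∫⁻ y : Sp n, KK s (y - z) = ENNReal.ofReal s := by
  rw [← lintegral_KK (n := n) hs]
  exact lintegral_sub_right_eq_self (fun y => KK s y) z

private lemma meanB_meas (s : ℝ) : Measurable fun p : Sp n × Sp n => KK s (p.1 - p.2) :=
  (measurable_KK s).comp (measurable_fst.sub measurable_snd)

/-- Fubini + dominated convergence: `(1/s)∫ F (K_s*μ) dy = ∫ (∫F(y)K_s(y-z)dy/s) dμ(z) → ∫F dμ`. -/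
theorem lim_KM (μ : Measure (Sp n)) [IsFiniteMeasure μ] {F : Sp n → ℝ} (hF : Measurable F)
    {M : ℝ} (hM : ∀ y, |F y| ≤ M) (hmc : ∀ᵐ z ∂μ, MC F z) :
    Tendsto (fun s : ℝ => (∫ y, F y * (KM s μ y).toReal) / s) (𝓝[>] 0) (𝓝 (∫ z, F z ∂μ)) := by
  have hM0 : 0 ≤ M := (abs_nonneg _).trans (hM 0)
  set H : ℝ → Sp n → ℝ≥0∞ := fun s z =>
    (∫⁻ y, KK s (y - z) * ENNReal.ofReal |F y - F z|) / ENNReal.ofReal s with hH
  have hFint : Integrable F μ := Integrable.of_bound hF.aestronglyMeasurable M
    (Eventually.of_forall hM)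
  -- the integrand is measurable
  have hHm : ∀ s, Measurable (H s) := by
    intro s
    refine Measurable.div ?_ measurable_const
    have : Measurable fun p : Sp n × Sp n => KK s (p.2 - p.1) * ENNReal.ofReal |F p.2 - F p.1| :=
      ((measurable_KK s).comp (measurable_snd.sub measurable_fst)).mul
        (((hF.comp measurable_snd).sub (hF.comp measurable_fst)).abs.ennreal_ofReal)
    exact this.lintegral_prod_right'
  -- the bound
  have hHb : ∀ s, 0 < s → ∀ z, H s z ≤ ENNReal.ofReal (2 * M) := by
    intro s hs z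
    have h1 : (∫⁻ y, KK s (y - z) * ENNReal.ofReal |F y - F z|) ≤
        ENNReal.ofReal (2 * M) * ENNReal.ofReal s := by
      calc (∫⁻ y, KK s (y - z) * ENNReal.ofReal |F y - F z|)
          ≤ ∫⁻ y, KK s (y - z) * ENNReal.ofReal (2 * M) := by
            refine lintegral_mono fun y => mul_le_mul_right (ENNReal.ofReal_le_ofReal ?_) _
            exact (abs_sub _ _).trans (by linarith [hM y, hM z])
        _ = ENNReal.ofReal (2 * M) * ENNReal.ofReal s := by
            have hmy : Measurable fun y => KK s (y - z) :=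
              (measurable_KK s).comp (measurable_id.sub_const z)
            rw [lintegral_mul_const _ hmy, meanB_lintegral_KK hs, mul_comm]
    exact ENNReal.div_le_of_le_mul h1
  -- error estimate
  have key : ∀ s, 0 < s → edist ((∫ y, F y * (KM s μ y).toReal) / s) (∫ z, F z ∂μ) ≤
      ∫⁻ z, H s z ∂μ := by
    intro s hs
    set Φ : Sp n × Sp n → ℝ := fun p => F p.1 * (KK s (p.1 - p.2)).toReal with hΦ
    have hΦm : Measurable Φ := (hF.comp measurable_fst).mul (meanB_meas s).ennreal_toReal
    have hΦi : Integrable Φ (volume.prod μ) := by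
      refine ⟨hΦm.aestronglyMeasurable, ?_⟩
      refine lt_of_le_of_lt (lintegral_mono (g := fun p : Sp n × Sp n =>
        ENNReal.ofReal M * KK s (p.1 - p.2)) fun p => ?_) ?_
      · simp only [hΦ]
        rw [enorm_mul]
        refine mul_le_mul' ?_ ?_
        · rw [← ofReal_norm]; exact ENNReal.ofReal_le_ofReal (hM _)
        · rw [Real.enorm_eq_ofReal ENNReal.toReal_nonneg]; exact ENNReal.ofReal_toReal_le
      · rw [lintegral_const_mul _ (meanB_meas s), lintegral_prod_symm' _ (meanB_meas s)]
        simp only [meanB_lintegral_KK hs]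
        rw [lintegral_const]
        exact ENNReal.mul_lt_top ENNReal.ofReal_lt_top
          (ENNReal.mul_lt_top ENNReal.ofReal_lt_top (measure_lt_top _ _))
    have hKMfin : ∀ᵐ y : Sp n, KM s μ y < ⊤ := by
      refine ae_lt_top (measurable_KM s μ) ?_
      rw [lintegral_KM μ hs]
      exact (ENNReal.mul_lt_top ENNReal.ofReal_lt_top (measure_lt_top _ _)).ne
    have hinner : ∀ᵐ y : Sp n, F y * (KM s μ y).toReal = ∫ z, Φ (y, z) ∂μ := by
      filter_upwards [hKMfin] with y hy
      have hmz : Measurable fun z => KK s (y - z) :=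
        (measurable_KK s).comp (measurable_const.sub measurable_id)
      have hfz : ∀ᵐ z ∂μ, KK s (y - z) < ⊤ := ae_lt_top hmz hy.ne
      simp only [hΦ]
      rw [integral_const_mul, integral_toReal hmz.aemeasurable hfz]
      rfl
    have hswap : ∫ y, F y * (KM s μ y).toReal = ∫ z, ∫ y, Φ (y, z) ∂volume ∂μ := by
      rw [integral_congr_ae hinner]
      exact integral_integral_swap hΦi
    have hGint : Integrable (fun z => ∫ y, Φ (y, z) ∂volume) μ := hΦi.integral_prod_right
    have hdiff : (∫ y, F y * (KM s μ y).toReal) / s - (∫ z, F z ∂μ) =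
        ∫ z, ((∫ y, Φ (y, z) ∂volume) / s - F z) ∂μ := by
      rw [integral_sub (hGint.div_const s) hFint, integral_div, hswap]
    rw [edist_dist, Real.dist_eq, hdiff, ← Real.norm_eq_abs, ofReal_norm]
    refine (enorm_integral_le_lintegral_enorm _).trans (lintegral_mono fun z => ?_)
    -- pointwise
    have hmy : Measurable fun y => KK s (y - z) :=
      (measurable_KK s).comp (measurable_id.sub_const z)
    have hfy : ∀ᵐ y : Sp n, KK s (y - z) < ⊤ :=
      ae_lt_top hmy (by rw [meanB_lintegral_KK hs]; exact ENNReal.ofReal_ne_top)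
    have hKint : Integrable fun y : Sp n => (KK s (y - z)).toReal :=
      integrable_toReal_of_lintegral_ne_top hmy.aemeasurable
        (by rw [meanB_lintegral_KK hs]; exact ENNReal.ofReal_ne_top)
    have hKone : ∫ y : Sp n, (KK s (y - z)).toReal = s := by
      rw [integral_toReal hmy.aemeasurable hfy, meanB_lintegral_KK hs,
        ENNReal.toReal_ofReal hs.le]
    have hFK : Integrable fun y => F y * (KK s (y - z)).toReal :=
      hKint.bdd_mul hF.aestronglyMeasurable (Eventually.of_forall hM)
    have e1 : (∫ y, Φ (y, z) ∂volume) / s - F z =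
        (∫ y, (F y - F z) * (KK s (y - z)).toReal) / s := by
      simp only [sub_mul]
      rw [integral_sub hFK (hKint.const_mul _), integral_const_mul, hKone, sub_div,
        mul_div_assoc, div_self hs.ne', mul_one]
    simp only [e1, hH]
    rw [div_eq_mul_inv, enorm_mul, ENNReal.div_eq_inv_mul, mul_comm]
    refine mul_le_mul' ?_ ?_
    · rw [Real.enorm_eq_ofReal (inv_nonneg.2 hs.le), ENNReal.ofReal_inv_of_pos hs]
    · refine (enorm_integral_le_lintegral_enorm _).trans (lintegral_mono fun y => ?_)
      rw [enorm_mul, mul_comm]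
      refine mul_le_mul' ?_ ?_
      · rw [Real.enorm_eq_ofReal ENNReal.toReal_nonneg]; exact ENNReal.ofReal_toReal_le
      · rw [← ofReal_norm, Real.norm_eq_abs]
  -- dominated convergence
  have hlim : Tendsto (fun s : ℝ => ∫⁻ z, H s z ∂μ) (𝓝[>] 0) (𝓝 0) := by
    have := tendsto_lintegral_filter_of_dominated_convergence (μ := μ) (l := 𝓝[>] (0 : ℝ))
      (F := H) (f := fun _ => 0) (fun _ => ENNReal.ofReal (2 * M))
      (Eventually.of_forall hHm)
      (by
        filter_upwards [self_mem_nhdsWithin] with s hs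
        exact Eventually.of_forall fun z => hHb s hs z)
      (by
        rw [lintegral_const]
        exact (ENNReal.mul_lt_top ENNReal.ofReal_lt_top (measure_lt_top _ _)).ne)
      (hmc.mono fun z hz => hz)
    simpa using this
  rw [tendsto_iff_edist_tendsto_0]
  refine tendsto_of_tendsto_of_tendsto_of_le_of_le' tendsto_const_nhds hlim
    (Eventually.of_forall fun _ => bot_le) ?_
  filter_upwards [self_mem_nhdsWithin] with s hs
  exact key s hs

end TM291
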