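import Pool.Agent.Lib.MP_291eb9_an.KatoFin
import Pool.Agent.Lib.MP_291eb9_an.MeanA
import Pool.Agent.Lib.MP_291eb9_an.MeanB

open MeasureTheory Set Filter Topology
open scoped ENNReal NNReal

namespace TM291

variable {n : ℕ}

/-- slope function `clamp(t/ε, 0, 1)`. -/
noncomputable def slp (ε t : ℝ) : ℝ := max 0 (min 1 (t / ε))

/-- smoothed positive part. -/
noncomputable def hep (ε t : ℝ) : ℝ := slp ε t * t - ε * slp ε t ^ 2 / 2

theorem slp_nonneg (ε t : ℝ) : 0 ≤ slp ε t := le_max_left _ _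

theorem slp_le_one (ε t : ℝ) : slp ε t ≤ 1 := max_le zero_le_one (min_le_left _ _)

theorem slp_of_nonpos {ε t : ℝ} (hε : 0 < ε) (ht : t ≤ 0) : slp ε t = 0 := by
  unfold slp
  have : t / ε ≤ 0 := div_nonpos_of_nonpos_of_nonneg ht hε.le
  rw [max_eq_left]
  exact (min_le_right _ _).trans this

theorem slp_of_mid {ε t : ℝ} (hε : 0 < ε) (ht : 0 ≤ t) (h : t ≤ ε) : slp ε t = t / ε := by
  unfold slp
  have h1 : 0 ≤ t / ε := div_nonneg ht hε.le
  have h2 : t / ε ≤ 1 := (div_le_one hε).2 h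
  rw [min_eq_right h2, max_eq_right h1]

theorem slp_of_large {ε t : ℝ} (hε : 0 < ε) (h : ε ≤ t) : slp ε t = 1 := by
  unfold slp
  have h2 : 1 ≤ t / ε := (one_le_div hε).2 h
  rw [min_eq_left h2, max_eq_right zero_le_one]

theorem hep_conv {ε : ℝ} (hε : 0 < ε) (a b : ℝ) : hep ε a + slp ε a * (b - a) ≤ hep ε b := by
  have hp0 := slp_nonneg ε a
  have hp1 := slp_le_one ε a
  unfold hep
  set p := slp ε a with hp
  suffices h : p * b - ε * p ^ 2 / 2 ≤ slp ε b * b - ε * slp ε b ^ 2 / 2 by linarith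
  rcases le_total b 0 with hb | hb
  · rw [slp_of_nonpos hε hb]
    nlinarith [mul_nonneg hp0 (neg_nonneg.2 hb), mul_nonneg hε.le (sq_nonneg p)]
  · rcases le_total b ε with hb' | hb'
    · rw [slp_of_mid hε hb hb']
      have hbe : b = ε * (b / ε) := by field_simp
      set q := b / ε with hq
      rw [hbe]
      nlinarith [mul_nonneg hε.le (sq_nonneg (q - p))]
    · rw [slp_of_large hε hb']
      nlinarith [mul_nonneg (sub_nonneg.2 hp1) (sub_nonneg.2 hb'),
        mul_nonneg hε.le (sq_nonneg (1 - p))]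

theorem hep_near {ε : ℝ} (hε : 0 < ε) (t : ℝ) : |hep ε t - max t 0| ≤ ε / 2 := by
  unfold hep
  rcases le_total t 0 with hb | hb
  · rw [slp_of_nonpos hε hb, max_eq_right hb]
    simp only [zero_mul, ne_eq, OfNat.ofNat_ne_zero, not_false_eq_true, zero_pow, mul_zero,
      zero_div, sub_self, abs_zero]
    positivity
  · rw [max_eq_left hb]
    rcases le_total t ε with hb' | hb'
    · rw [slp_of_mid hε hb hb']
      have hbe : t = ε * (t / ε) := by field_simp
      have h1 : t / ε ≤ 1 := (div_le_one hε).2 hb'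
      have h0 : 0 ≤ t / ε := div_nonneg hb hε.le
      set q := t / ε with hq
      rw [hbe, abs_le]
      constructor
      · nlinarith [mul_nonneg hε.le (sq_nonneg (1 - q))]
      · nlinarith [mul_nonneg hε.le (mul_nonneg h0 (sub_nonneg.2 h1)), mul_nonneg hε.le h0]
    · rw [slp_of_large hε hb', abs_le]
      constructor <;> linarith

theorem hep_abs {ε : ℝ} (hε : 0 < ε) (t : ℝ) : |hep ε t| ≤ |t| := by
  unfold hep
  rcases le_total t 0 with hb | hb
  · rw [slp_of_nonpos hε hb]
    simp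
  · rw [abs_of_nonneg hb]
    rcases le_total t ε with hb' | hb'
    · rw [slp_of_mid hε hb hb']
      have hbe : t = ε * (t / ε) := by field_simp
      have h1 : t / ε ≤ 1 := (div_le_one hε).2 hb'
      have h0 : 0 ≤ t / ε := div_nonneg hb hε.le
      set q := t / ε with hq
      rw [hbe, abs_le]
      constructor
      · nlinarith [mul_nonneg hε.le (sq_nonneg q), mul_nonneg hε.le h0]
      · nlinarith [mul_nonneg hε.le (mul_nonneg h0 (sub_nonneg.2 h1)), mul_nonneg hε.le h0]
    · rw [slp_of_large hε hb', abs_le]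
      constructor <;> linarith

theorem slp_lip {ε : ℝ} (hε : 0 < ε) (a b : ℝ) : |slp ε a - slp ε b| ≤ 1 / ε * |a - b| := by
  unfold slp
  calc |max 0 (min 1 (a / ε)) - max 0 (min 1 (b / ε))|
      ≤ |min 1 (a / ε) - min 1 (b / ε)| := abs_max_sub_max_le_abs _ _ _ |>.trans_eq' (by
        rw [max_comm 0, max_comm 0])
    _ ≤ |a / ε - b / ε| := by
        have := abs_min_sub_min_le_max 1 (a / ε) 1 (b / ε)
        simpa using this
    _ = 1 / ε * |a - b| := by
        rw [← sub_div, abs_div, abs_of_pos hε]; ring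

theorem slp_le_ind {ε : ℝ} (hε : 0 < ε) (t : ℝ) : slp ε t ≤ ind t := by
  unfold ind
  split_ifs with h
  · exact slp_le_one _ _
  · rw [slp_of_nonpos hε (not_lt.1 h)]

theorem measurable_slp (ε : ℝ) : Measurable (slp ε) := by
  unfold slp
  exact measurable_const.max (measurable_const.min (measurable_id.div_const _))

theorem measurable_hep (ε : ℝ) : Measurable (hep ε) := by
  unfold hep
  exact ((measurable_slp ε).mul measurable_id).sub
    ((((measurable_slp ε).pow_const 2).const_mul ε).div_const 2)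

theorem measurable_ind' : Measurable ind := by
  unfold ind
  exact Measurable.ite measurableSet_Ioi measurable_const measurable_const

theorem ind_nonneg (t : ℝ) : 0 ≤ ind t := by unfold ind; split_ifs <;> norm_num

theorem ind_le_one (t : ℝ) : ind t ≤ 1 := by unfold ind; split_ifs <;> norm_num

/-- `∫ |T_s φ|` is bounded. -/
theorem TT_L1 (hn : 3 ≤ n) {φ : Sp n → ℝ} (hφ : IsTest φ) :
    ∃ M : ℝ, 0 ≤ M ∧ ∀ s ∈ Ioc (0 : ℝ) 1, Integrable (TT s φ) ∧ ∫ y, |TT s φ y| ≤ M := by
  obtain ⟨R, hR⟩ := hφ.cpt.isCompact.isBounded.subset_ball (0 : Sp n)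
  obtain ⟨C, hC0, hC⟩ := TT_bound hn hφ (R := max R 1) (by positivity) (by
    intro y hy
    by_contra hne
    have := hR (subset_tsupport _ hne)
    rw [mem_ball_zero_iff] at this
    exact absurd this (not_lt.2 ((le_max_left _ _).trans hy)))
  set R' := max R 1
  refine ⟨C * (volume (Metric.ball (0 : Sp n) (2 * R'))).toReal + C, by positivity, ?_⟩
  intro s hs
  obtain ⟨h1, h2, h3, h4⟩ := hC s hs
  refine ⟨h3, ?_⟩
  have hcompl : {y : Sp n | 2 * R' ≤ ‖y‖} = (Metric.ball (0 : Sp n) (2 * R'))ᶜ := by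
    ext y; simp
  rw [← integral_add_compl (measurableSet_ball (x := (0 : Sp n)) (ε := 2 * R')) h3.abs,
    ← hcompl]
  refine add_le_add ?_ (h4.trans ?_)
  · calc ∫ y in Metric.ball (0 : Sp n) (2 * R'), |TT s φ y|
        ≤ ∫ y in Metric.ball (0 : Sp n) (2 * R'), C := by
          refine setIntegral_mono_on h3.abs.integrableOn ?_ measurableSet_ball (fun y _ => h1 y)
          exact integrableOn_const measure_ball_lt_top.ne
      _ = C * (volume (Metric.ball (0 : Sp n) (2 * R'))).toReal := by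
          rw [setIntegral_const, smul_eq_mul, Measure.real, mul_comm]
  · calc C * s ≤ C * 1 := mul_le_mul_of_nonneg_left hs.2 hC0
      _ = C := mul_one C

theorem IsTest.bddabs {φ : Sp n → ℝ} (hφ : IsTest φ) : ∃ B, 0 ≤ B ∧ ∀ y, |φ y| ≤ B := by
  obtain ⟨B, h0, hB⟩ := hφ.bdd
  exact ⟨B, h0, fun y => by rw [abs_of_nonneg (hφ.nonneg y)]; exact hB y⟩

/-- `h_ε(t)`: `0` for `t ≤ 0`, `t²/(2ε)` on `[0,ε]`, `t - ε/2` for `t ≥ ε`. -/
theorem kato_pos (hn : 3 ≤ n) (μp μm : Measure (Sp n)) [IsFiniteMeasure μp] [IsFiniteMeasure μm]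
    {φ : Sp n → ℝ} (hφ : IsTest φ)
    (hfin : ∀ᵐ z ∂μp, φ z ≠ 0 → pot μp z < ⊤ ∧ pot μm z < ⊤) {η : ℝ} (hη : 0 < η) :
    ∀ᶠ s in 𝓝[>] (0 : ℝ),
      -(∫ z, φ z * ind (dw μp μm z) ∂μp) - η ≤ ∫ y, max (dw μp μm y) 0 * TT s φ y := by
  obtain ⟨M, hM0, hM⟩ := TT_L1 hn hφ
  obtain ⟨B, hB0, hB⟩ := hφ.bddabs
  set ε := η / (M + 1) with hε
  have hεpos : 0 < ε := by positivity
  have hdwm := measurable_dw μp μm
  have hφm : Measurable φ := hφ.smooth.continuous.measurable
  have hθm : Measurable (fun y => slp ε (dw μp μm y)) := (measurable_slp ε).comp hdwm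
  have hFm : Measurable (fun y => φ y * slp ε (dw μp μm y)) := hφm.mul hθm
  have hFb : ∀ y, |φ y * slp ε (dw μp μm y)| ≤ B := by
    intro y
    rw [abs_mul, abs_of_nonneg (slp_nonneg _ _)]
    calc |φ y| * slp ε (dw μp μm y) ≤ B * 1 :=
          mul_le_mul (hB y) (slp_le_one _ _) (slp_nonneg _ _) hB0
      _ = B := mul_one B
  have hmc : ∀ᵐ z ∂μp, MC (fun y => φ y * slp ε (dw μp μm y)) z := by
    filter_upwards [hfin] with z hz
    refine MC_mul (M := max B 1) hφm hθm (fun y => (hB y).trans (le_max_left _ _)) (fun y => ?_)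
      (MC_of_continuous hφ.smooth.continuous hB z) (fun hne => ?_)
    · rw [abs_of_nonneg (slp_nonneg _ _)]
      exact (slp_le_one _ _).trans (le_max_right _ _)
    · obtain ⟨h1, h2⟩ := hz hne
      exact MC_lipschitz (h := slp ε) (L := 1 / ε) (by positivity) (slp_lip hεpos)
        (MC_dw hn μp μm h1 h2)
  have hlim := lim_KM μp hFm hFb hmc
  have hle : ∫ z, φ z * slp ε (dw μp μm z) ∂μp ≤ ∫ z, φ z * ind (dw μp μm z) ∂μp := by
    refine integral_mono ?_ ?_ (fun z => mul_le_mul_of_nonneg_left (slp_le_ind hεpos _)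
      (hφ.nonneg z))
    · exact Integrable.of_bound hFm.aestronglyMeasurable B (Eventually.of_forall hFb)
    · refine Integrable.of_bound (hφm.mul (measurable_ind'.comp hdwm)).aestronglyMeasurable B
        (Eventually.of_forall fun z => ?_)
      rw [Real.norm_eq_abs, abs_mul, abs_of_nonneg (ind_nonneg _)]
      calc |φ z| * ind (dw μp μm z) ≤ B * 1 :=
            mul_le_mul (hB z) (ind_le_one _) (ind_nonneg _) hB0
        _ = B := mul_one B
  have hev : ∀ᶠ s in 𝓝[>] (0 : ℝ),
      (∫ y, φ y * slp ε (dw μp μm y) * (KM s μp y).toReal) / s <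
        (∫ z, φ z * slp ε (dw μp μm z) ∂μp) + η / 2 :=
    hlim.eventually_lt_const (by linarith)
  filter_upwards [hev, Ioc_mem_nhdsGT (zero_lt_one' ℝ)] with s hs1 hs2
  have hk := kato_fin hn μp μm hφ (h := hep ε) (h' := slp ε) (hep_conv hεpos) (slp_nonneg ε)
    (slp_le_one ε) (measurable_hep ε) (measurable_slp ε) (hep_abs hεpos) hs2.1
  obtain ⟨hTi, hTM⟩ := hM s hs2
  have i1 : Integrable (fun y => hep ε (dw μp μm y) * TT s φ y) :=
    integrable_mul_TT hn μp μm hφ hs2.1 ((measurable_hep ε).comp hdwm)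
      (fun y => hep_abs hεpos _)
  have i2 : Integrable (fun y => max (dw μp μm y) 0 * TT s φ y) :=
    integrable_mul_TT hn μp μm hφ hs2.1 (hdwm.max measurable_const) (fun y => by
      rcases le_total (dw μp μm y) 0 with h | h
      · rw [max_eq_right h]; simp
      · rw [max_eq_left h])
  have hdiff : ∫ y, hep ε (dw μp μm y) * TT s φ y ≤
      (∫ y, max (dw μp μm y) 0 * TT s φ y) + ε / 2 * M := by
    have : ∫ y, hep ε (dw μp μm y) * TT s φ y ≤
        ∫ y, (max (dw μp μm y) 0 * TT s φ y + ε / 2 * |TT s φ y|) := by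
      refine integral_mono i1 (i2.add (hTi.abs.const_mul _)) (fun y => ?_)
      have h1 := hep_near hεpos (dw μp μm y)
      have h2 : (hep ε (dw μp μm y) - max (dw μp μm y) 0) * TT s φ y ≤ ε / 2 * |TT s φ y| := by
        refine (le_abs_self _).trans ?_
        rw [abs_mul]
        exact mul_le_mul_of_nonneg_right h1 (abs_nonneg _)
      simp only
      linarith
    refine this.trans ?_
    rw [integral_add i2 (hTi.abs.const_mul _), integral_const_mul]
    have := mul_le_mul_of_nonneg_left hTM (by positivity : (0 : ℝ) ≤ ε / 2)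
    linarith
  have hεM : ε / 2 * M ≤ η / 2 := by
    rw [hε]
    have : M / (M + 1) ≤ 1 := (div_le_one (by positivity)).2 (by linarith)
    calc η / (M + 1) / 2 * M = η / 2 * (M / (M + 1)) := by ring
      _ ≤ η / 2 * 1 := mul_le_mul_of_nonneg_left this (by positivity)
      _ = η / 2 := mul_one _
  linarith

/-- Kato inequality for `|w|`, `w = pot μp - pot μm`. -/
theorem kato (hn : 3 ≤ n) (μp μm : Measure (Sp n)) [IsFiniteMeasure μp] [IsFiniteMeasure μm]
    {φ : Sp n → ℝ} (hφ : IsTest φ)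
    (hfin : ∀ᵐ z ∂μp, φ z ≠ 0 → pot μp z < ⊤ ∧ pot μm z < ⊤) {η : ℝ} (hη : 0 < η) :
    ∀ᶠ s in 𝓝[>] (0 : ℝ),
      (∫ z, φ z * (1 - 2 * ind (dw μp μm z)) ∂μp) - (∫ z, φ z ∂μm) - η ≤
        ∫ y, |dw μp μm y| * TT s φ y := by
  obtain ⟨B, hB0, hB⟩ := hφ.bddabs
  have hdwm := measurable_dw μp μm
  have hφm : Measurable φ := hφ.smooth.continuous.measurable
  have hmcφ : ∀ z, MC φ z := fun z => MC_of_continuous hφ.smooth.continuous hB z
  have l1 := lim_KM μp hφm hB (Eventually.of_forall hmcφ)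
  have l2 := lim_KM μm hφm hB (Eventually.of_forall hmcφ)
  have ev1 := kato_pos hn μp μm hφ hfin (η := η / 4) (by positivity)
  have ev2 : ∀ᶠ s in 𝓝[>] (0 : ℝ), (∫ z, φ z ∂μp) - η / 4 <
      (∫ y, φ y * (KM s μp y).toReal) / s := l1.eventually_const_lt (by linarith)
  have ev3 : ∀ᶠ s in 𝓝[>] (0 : ℝ), (∫ y, φ y * (KM s μm y).toReal) / s <
      (∫ z, φ z ∂μm) + η / 4 := l2.eventually_lt_const (by linarith)
  have iφ : Integrable φ μp :=
    Integrable.of_bound hφm.aestronglyMeasurable B (Eventually.of_forall hB)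
  have iφi : Integrable (fun z => φ z * ind (dw μp μm z)) μp := by
    refine Integrable.of_bound (hφm.mul (measurable_ind'.comp hdwm)).aestronglyMeasurable B
      (Eventually.of_forall fun z => ?_)
    rw [Real.norm_eq_abs, abs_mul, abs_of_nonneg (ind_nonneg _)]
    calc |φ z| * ind (dw μp μm z) ≤ B * 1 :=
          mul_le_mul (hB z) (ind_le_one _) (ind_nonneg _) hB0
      _ = B := mul_one B
  have e1 : ∫ z, φ z * (1 - 2 * ind (dw μp μm z)) ∂μp =
      (∫ z, φ z ∂μp) - 2 * ∫ z, φ z * ind (dw μp μm z) ∂μp := by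
    rw [← integral_const_mul, ← integral_sub iφ (iφi.const_mul 2)]
    refine integral_congr_ae (Eventually.of_forall fun z => ?_)
    simp only; ring
  filter_upwards [ev1, ev2, ev3, self_mem_nhdsWithin] with s h1 h2 h3 hs
  have hs' : 0 < s := hs
  have i1 : Integrable (fun y => dw μp μm y * TT s φ y) :=
    integrable_mul_TT hn μp μm hφ hs' hdwm (fun y => le_rfl)
  have i2 : Integrable (fun y => max (dw μp μm y) 0 * TT s φ y) :=
    integrable_mul_TT hn μp μm hφ hs' (hdwm.max measurable_const) (fun y => by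
      rcases le_total (dw μp μm y) 0 with h | h
      · rw [max_eq_right h]; simp
      · rw [max_eq_left h])
  have e2 : ∫ y, |dw μp μm y| * TT s φ y =
      2 * (∫ y, max (dw μp μm y) 0 * TT s φ y) - ∫ y, dw μp μm y * TT s φ y := by
    rw [← integral_const_mul, ← integral_sub (i2.const_mul 2) i1]
    refine integral_congr_ae (Eventually.of_forall fun y => ?_)
    simp only
    rcases le_total (dw μp μm y) 0 with h | h
    · rw [max_eq_right h, abs_of_nonpos h]; ring
    · rw [max_eq_left h, abs_of_nonneg h]; ring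
  rw [e2, lin_fin hn μp μm hφ hs', e1]
  linarith

end TM291
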