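import Pool.Agent.Lib.MP_291eb9_an.Gauss

open MeasureTheory Set Filter Topology
open scoped ENNReal NNReal

namespace TM291

variable {n : ℕ}

theorem kernel_comm (x y : Sp n) : kernel x y = kernel y x := by
  unfold kernel; rw [edist_comm]

theorem measurable_kernel_uncurry : Measurable (fun p : Sp n × Sp n => kernel p.1 p.2) := by
  unfold kernel
  exact (measurable_fst.edist measurable_snd).pow_const _

theorem kernA_exp_neg (hn : 3 ≤ n) : (2 : ℝ) - n < 0 := by
  have : (3 : ℝ) ≤ n := by exact_mod_cast hn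
  linarith

theorem kernel_lt_top (hn : 3 ≤ n) {x y : Sp n} (h : x ≠ y) : kernel x y < ⊤ := by
  unfold kernel
  rw [lt_top_iff_ne_top]
  intro hc
  rw [ENNReal.rpow_eq_top_iff] at hc
  rcases hc with ⟨h0, -⟩ | ⟨h1, h2⟩
  · exact h (edist_eq_zero.1 h0)
  · have := kernA_exp_neg hn
    linarith

theorem kernel_self (hn : 3 ≤ n) (x : Sp n) : kernel x x = ⊤ := by
  unfold kernel
  rw [edist_self, ENNReal.zero_rpow_of_neg (kernA_exp_neg hn)]

/-- the profile `(4πt)^(-n/2) e^(-1/(4t))`, bounded -/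
theorem kernA_bound (n : ℕ) {t : ℝ} (ht : 0 < t) :
    (4 * Real.pi * t) ^ (-(n : ℝ) / 2) * Real.exp (-1 / (4 * t)) ≤
      (n.factorial : ℝ) * Real.exp 1 := by
  have hpi := Real.pi_pos
  have h4 : (0 : ℝ) < 4 * Real.pi * t := by positivity
  set u : ℝ := 1 / (4 * t) with hu
  have hu0 : 0 < u := by positivity
  have h1 : (4 * Real.pi * t) ^ (-(n : ℝ) / 2) = ((4 * Real.pi * t)⁻¹) ^ ((n : ℝ) / 2) := by
    rw [Real.inv_rpow h4.le, ← Real.rpow_neg h4.le]
    congr 1; ring
  have hv : (4 * Real.pi * t)⁻¹ ≤ u := by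
    rw [hu, one_div]
    apply inv_anti₀ (by positivity)
    have : 1 ≤ Real.pi := by linarith [Real.pi_gt_three]
    nlinarith
  have hv0 : 0 ≤ (4 * Real.pi * t)⁻¹ := by positivity
  have h2 : ((4 * Real.pi * t)⁻¹) ^ ((n : ℝ) / 2) ≤ (1 + u) ^ n := by
    calc ((4 * Real.pi * t)⁻¹) ^ ((n : ℝ) / 2) ≤ (1 + u) ^ ((n : ℝ) / 2) :=
          Real.rpow_le_rpow hv0 (by linarith) (by positivity)
      _ ≤ (1 + u) ^ (n : ℝ) := by
          apply Real.rpow_le_rpow_of_exponent_le (by linarith)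
          have : (0 : ℝ) ≤ n := Nat.cast_nonneg n
          linarith
      _ = (1 + u) ^ n := Real.rpow_natCast _ _
  have h3 : (1 + u) ^ n ≤ (n.factorial : ℝ) * Real.exp (1 + u) := by
    have := Real.pow_div_factorial_le_exp (1 + u) (by positivity) n
    rw [div_le_iff₀ (by positivity)] at this
    linarith
  have h4' : Real.exp (-1 / (4 * t)) = Real.exp (-u) := by
    congr 1; rw [hu]; ring
  rw [h1, h4']
  calc ((4 * Real.pi * t)⁻¹) ^ ((n : ℝ) / 2) * Real.exp (-u)
      ≤ ((n.factorial : ℝ) * Real.exp (1 + u)) * Real.exp (-u) :=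
        mul_le_mul_of_nonneg_right (h2.trans h3) (Real.exp_pos _).le
    _ = (n.factorial : ℝ) * Real.exp 1 := by
        rw [mul_assoc, ← Real.exp_add]; congr 2; ring

theorem kernA_int_ne_top (hn : 3 ≤ n) : (∫⁻ t in Ioi (0 : ℝ), ENNReal.ofReal
    ((4 * Real.pi * t) ^ (-(n : ℝ) / 2) * Real.exp (-1 / (4 * t)))) ≠ ⊤ := by
  have hpi := Real.pi_pos
  have hsplit : Ioi (0 : ℝ) = Ioc 0 1 ∪ Ioi 1 := (Ioc_union_Ioi_eq_Ioi zero_le_one).symm
  have h1 : (∫⁻ t in Ioc (0 : ℝ) 1, ENNReal.ofReal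
      ((4 * Real.pi * t) ^ (-(n : ℝ) / 2) * Real.exp (-1 / (4 * t)))) < ⊤ := by
    calc (∫⁻ t in Ioc (0 : ℝ) 1, ENNReal.ofReal
        ((4 * Real.pi * t) ^ (-(n : ℝ) / 2) * Real.exp (-1 / (4 * t))))
        ≤ ∫⁻ t in Ioc (0 : ℝ) 1, ENNReal.ofReal ((n.factorial : ℝ) * Real.exp 1) := by
          apply setLIntegral_mono' measurableSet_Ioc
          intro t ht
          exact ENNReal.ofReal_le_ofReal (kernA_bound n ht.1)
      _ < ⊤ := by
          rw [setLIntegral_const]
          apply ENNReal.mul_lt_top ENNReal.ofReal_lt_top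
          rw [Real.volume_Ioc]; exact ENNReal.ofReal_lt_top
  have h2 : (∫⁻ t in Ioi (1 : ℝ), ENNReal.ofReal
      ((4 * Real.pi * t) ^ (-(n : ℝ) / 2) * Real.exp (-1 / (4 * t)))) < ⊤ := by
    have hn' : -(n : ℝ) / 2 < -1 := by
      have : (3 : ℝ) ≤ n := by exact_mod_cast hn
      linarith
    have hint := integrableOn_Ioi_rpow_of_lt hn' zero_lt_one
    calc (∫⁻ t in Ioi (1 : ℝ), ENNReal.ofReal
        ((4 * Real.pi * t) ^ (-(n : ℝ) / 2) * Real.exp (-1 / (4 * t))))
        ≤ ∫⁻ t in Ioi (1 : ℝ), ENNReal.ofReal (t ^ (-(n : ℝ) / 2)) := by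
          apply setLIntegral_mono' measurableSet_Ioi
          intro t ht
          have ht1 : (1 : ℝ) < t := ht
          have ht0 : 0 < t := by linarith
          apply ENNReal.ofReal_le_ofReal
          have e1 : Real.exp (-1 / (4 * t)) ≤ 1 := by
            rw [Real.exp_le_one_iff]
            apply div_nonpos_of_nonpos_of_nonneg <;> linarith
          have e2 : (4 * Real.pi * t) ^ (-(n : ℝ) / 2) ≤ t ^ (-(n : ℝ) / 2) := by
            apply Real.rpow_le_rpow_of_nonpos ht0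
            · nlinarith [Real.pi_gt_three]
            · linarith
          calc (4 * Real.pi * t) ^ (-(n : ℝ) / 2) * Real.exp (-1 / (4 * t))
              ≤ (4 * Real.pi * t) ^ (-(n : ℝ) / 2) * 1 := by
                apply mul_le_mul_of_nonneg_left e1 (by positivity)
            _ ≤ t ^ (-(n : ℝ) / 2) := by rw [mul_one]; exact e2
      _ < ⊤ := by
          have := hint.lintegral_lt_top
          exact this
  rw [hsplit]
  exact ((lintegral_union_le _ _ _).trans_lt (ENNReal.add_lt_top.2 ⟨h1, h2⟩)).ne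

theorem kernA_int_ne_zero (n : ℕ) : (∫⁻ t in Ioi (0 : ℝ), ENNReal.ofReal
    ((4 * Real.pi * t) ^ (-(n : ℝ) / 2) * Real.exp (-1 / (4 * t)))) ≠ 0 := by
  have hpi := Real.pi_pos
  have hm : Measurable (fun t : ℝ => ENNReal.ofReal
      ((4 * Real.pi * t) ^ (-(n : ℝ) / 2) * Real.exp (-1 / (4 * t)))) := by
    apply Measurable.ennreal_ofReal
    fun_prop
  have := (setLIntegral_pos_iff (μ := volume) (s := Ioi (0 : ℝ)) hm).2 (by
    have hsub : Ioi (0 : ℝ) ⊆ (Function.support (fun t : ℝ => ENNReal.ofReal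
      ((4 * Real.pi * t) ^ (-(n : ℝ) / 2) * Real.exp (-1 / (4 * t)))) ∩ Ioi 0) := by
      intro t ht
      refine ⟨?_, ht⟩
      rw [Function.mem_support]
      have ht0 : (0 : ℝ) < t := ht
      exact (ENNReal.ofReal_pos.2 (by positivity)).ne'
    refine lt_of_lt_of_le ?_ (measure_mono hsub)
    rw [Real.volume_Ioi]; exact ENNReal.zero_lt_top)
  exact this.ne'

theorem cN_ne_zero (hn : 3 ≤ n) : cN n ≠ 0 := by
  unfold cN
  exact ENNReal.inv_ne_zero.2 (kernA_int_ne_top hn)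

theorem cN_ne_top (hn : 3 ≤ n) : cN n ≠ ⊤ := by
  unfold cN
  exact ENNReal.inv_ne_top.2 (kernA_int_ne_zero n)

theorem cN_toReal_pos (hn : 3 ≤ n) : 0 < (cN n).toReal :=
  ENNReal.toReal_pos (cN_ne_zero hn) (cN_ne_top hn)

/-- scaling of the heat kernel profile -/
theorem kernA_scale (n : ℕ) {r t : ℝ} (hr : 0 < r) (ht : 0 < t) :
    (4 * Real.pi * (r ^ 2 * t)) ^ (-(n : ℝ) / 2) * Real.exp (-r ^ 2 / (4 * (r ^ 2 * t))) =
      r ^ (-(n : ℝ)) * ((4 * Real.pi * t) ^ (-(n : ℝ) / 2) * Real.exp (-1 / (4 * t))) := by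
  have hpi := Real.pi_pos
  have h1 : -r ^ 2 / (4 * (r ^ 2 * t)) = -1 / (4 * t) := by
    field_simp
  have h2 : 4 * Real.pi * (r ^ 2 * t) = r ^ 2 * (4 * Real.pi * t) := by ring
  rw [h1, h2, Real.mul_rpow (by positivity) (by positivity), ← mul_assoc]
  congr 2
  rw [← Real.rpow_natCast r 2, ← Real.rpow_mul hr.le]
  congr 1; push_cast; ring

/-- scaling `t = |x-y|² τ`. -/
theorem kernel_eq (hn : 3 ≤ n) (x y : Sp n) :
    kernel x y = cN n * ∫⁻ t in Ioi (0 : ℝ), hkE t (x - y) := by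
  have hpi := Real.pi_pos
  rcases eq_or_ne x y with rfl | hxy
  · rw [kernel_self hn, sub_self]
    have htop : (∫⁻ t in Ioi (0 : ℝ), hkE t (0 : Sp n)) = ⊤ := by
      by_contra hne
      have hlt : (∫⁻ t in Ioi (0 : ℝ), hkE t (0 : Sp n)) < ⊤ := lt_top_iff_ne_top.2 hne
      have hc : (0 : ℝ) < (4 * Real.pi) ^ (-(n : ℝ) / 2) := by positivity
      have heq : (∫⁻ t in Ioi (0 : ℝ), hkE t (0 : Sp n)) =
          ENNReal.ofReal ((4 * Real.pi) ^ (-(n : ℝ) / 2)) *
            ∫⁻ t in Ioi (0 : ℝ), ENNReal.ofReal (t ^ (-(n : ℝ) / 2)) := by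
        rw [← lintegral_const_mul' _ _ ENNReal.ofReal_ne_top]
        apply setLIntegral_congr_fun measurableSet_Ioi
        intro t ht
        have ht0 : (0 : ℝ) < t := ht
        simp only [hkE, hk, norm_zero]
        rw [← ENNReal.ofReal_mul hc.le, ← Real.mul_rpow (by positivity) ht0.le]
        congr 1
        simp
      rw [heq] at hlt
      have h2 : (∫⁻ t in Ioi (0 : ℝ), ENNReal.ofReal (t ^ (-(n : ℝ) / 2))) < ⊤ := by
        rcases ENNReal.mul_lt_top_iff.1 hlt with h | h | h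
        · exact h.2
        · exact absurd h (ENNReal.ofReal_pos.2 hc).ne'
        · rw [h]; exact ENNReal.zero_lt_top
      apply not_integrableOn_Ioi_rpow (-(n : ℝ) / 2)
      refine ⟨?_, ?_⟩
      · exact (measurable_id.pow_const _).aestronglyMeasurable
      · rw [hasFiniteIntegral_iff_ofReal]
        · exact h2
        · refine (ae_restrict_iff' measurableSet_Ioi).2 (Eventually.of_forall fun t ht => ?_)
          have ht0 : (0 : ℝ) < t := ht
          exact (Real.rpow_nonneg ht0.le _)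
    rw [htop, ENNReal.mul_top (cN_ne_zero hn)]
  · set r : ℝ := ‖x - y‖ with hr
    have hr0 : 0 < r := norm_pos_iff.2 (sub_ne_zero.2 hxy)
    have hk1 : kernel x y = ENNReal.ofReal (r ^ ((2 : ℝ) - n)) := by
      unfold kernel
      rw [edist_dist, dist_eq_norm, ← hr, ENNReal.ofReal_rpow_of_pos hr0]
    have himg : (fun t : ℝ => r ^ 2 * t) '' Ioi 0 = Ioi 0 := by
      ext t
      constructor
      · rintro ⟨u, hu, rfl⟩
        have hu0 : (0 : ℝ) < u := hu
        exact (by positivity : (0 : ℝ) < r ^ 2 * u)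
      · intro ht
        have ht0 : (0 : ℝ) < t := ht
        refine ⟨t / r ^ 2, (by positivity : (0 : ℝ) < t / r ^ 2), ?_⟩
        field_simp
    have hcv := lintegral_image_eq_lintegral_abs_deriv_mul (s := Ioi (0 : ℝ))
      (f := fun t : ℝ => r ^ 2 * t) (f' := fun _ => r ^ 2) measurableSet_Ioi
      (fun t _ => by
        simpa using ((hasDerivAt_id t).const_mul (r ^ 2)).hasDerivWithinAt)
      (fun a _ b _ hab => by
        have hr2 : r ^ 2 ≠ 0 := by positivity
        exact mul_left_cancel₀ hr2 hab) (fun t => hkE t (x - y))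
    rw [himg] at hcv
    have hint : (∫⁻ t in Ioi (0 : ℝ), hkE t (x - y)) =
        ENNReal.ofReal (r ^ ((2 : ℝ) - n)) * ∫⁻ t in Ioi (0 : ℝ), ENNReal.ofReal
          ((4 * Real.pi * t) ^ (-(n : ℝ) / 2) * Real.exp (-1 / (4 * t))) := by
      rw [hcv, ← lintegral_const_mul' _ _ ENNReal.ofReal_ne_top]
      apply setLIntegral_congr_fun measurableSet_Ioi
      intro t ht
      have ht0 : (0 : ℝ) < t := ht
      simp only [hkE, hk]
      rw [← hr, kernA_scale n hr0 ht0, ← ENNReal.ofReal_mul (by positivity),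
        ← ENNReal.ofReal_mul (by positivity), abs_of_pos (by positivity), ← mul_assoc]
      congr 2
      rw [← Real.rpow_natCast r 2, ← Real.rpow_add hr0]
      congr 1
    rw [hk1, hint]
    unfold cN
    rw [mul_comm (ENNReal.ofReal _) _, ← mul_assoc,
      ENNReal.inv_mul_cancel (kernA_int_ne_zero n) (kernA_int_ne_top hn), one_mul]

end TM291
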