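import Pool.Agent.Lib.MP_291eb9_an.Gauss

open MeasureTheory Set Filter Topology
open scoped ENNReal NNReal

namespace TM291

variable {n : ℕ}

theorem KK_neg (s : ℝ) (y : Sp n) : KK s (-y) = KK s y := by
  unfold KK hkE
  simp only [hk_neg]

theorem KK_sub_comm (s : ℝ) (y z : Sp n) : KK s (y - z) = KK s (z - y) := by
  rw [← KK_neg, neg_sub]

theorem measurable_KK_uncurry : Measurable (fun p : ℝ × Sp n => KK p.1 p.2) := by
  have hset : MeasurableSet {q : (ℝ × Sp n) × ℝ | q.2 ∈ Ioc (0 : ℝ) q.1.1} := by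
    have h1 : MeasurableSet {q : (ℝ × Sp n) × ℝ | (0 : ℝ) < q.2} :=
      measurableSet_lt measurable_const measurable_snd
    have h2 : MeasurableSet {q : (ℝ × Sp n) × ℝ | q.2 ≤ q.1.1} :=
      measurableSet_le measurable_snd (measurable_fst.comp measurable_fst)
    exact h1.inter h2
  have hf : Measurable (fun q : (ℝ × Sp n) × ℝ => hkE q.2 q.1.2) :=
    measurable_hkE_uncurry.comp (measurable_snd.prodMk (measurable_snd.comp measurable_fst))
  have hg := hf.indicator hset
  have h := hg.lintegral_prod_right' (ν := (volume : Measure ℝ))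
  have hEq : (fun p : ℝ × Sp n => KK p.1 p.2) = fun p : ℝ × Sp n =>
      ∫⁻ t, {q : (ℝ × Sp n) × ℝ | q.2 ∈ Ioc (0 : ℝ) q.1.1}.indicator
        (fun q : (ℝ × Sp n) × ℝ => hkE q.2 q.1.2) (p, t) := by
    funext p
    unfold KK
    rw [← lintegral_indicator measurableSet_Ioc]
    apply lintegral_congr
    intro t
    by_cases ht : t ∈ Ioc (0 : ℝ) p.1
    · rw [indicator_of_mem (s := Ioc (0 : ℝ) p.1) ht]
      exact (indicator_of_mem (s := {q : (ℝ × Sp n) × ℝ | q.2 ∈ Ioc (0 : ℝ) q.1.1})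
        (a := (p, t)) ht (fun q : (ℝ × Sp n) × ℝ => hkE q.2 q.1.2)).symm
    · rw [indicator_of_notMem (s := Ioc (0 : ℝ) p.1) ht]
      exact (indicator_of_notMem (s := {q : (ℝ × Sp n) × ℝ | q.2 ∈ Ioc (0 : ℝ) q.1.1})
        (a := (p, t)) ht (fun q : (ℝ × Sp n) × ℝ => hkE q.2 q.1.2)).symm
  rw [hEq]
  exact h

theorem measurable_KK (s : ℝ) : Measurable (KK s : Sp n → ℝ≥0∞) :=
  measurable_KK_uncurry.comp (measurable_const.prodMk measurable_id)

/-- Tonelli for `K_s` -/
theorem kernB_tonelli (s : ℝ) (μ : Measure (Sp n)) [SFinite μ] (g : Sp n → ℝ≥0∞)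
    (hg : Measurable g) (v : Sp n) :
    ∫⁻ y, g y * KK s (y - v) ∂μ = ∫⁻ t in Ioc (0 : ℝ) s, ∫⁻ y, g y * hkE t (y - v) ∂μ := by
  have hm : Measurable (fun q : Sp n × ℝ => g q.1 * hkE q.2 (q.1 - v)) :=
    (hg.comp measurable_fst).mul (measurable_hkE_uncurry.comp
      (measurable_snd.prodMk (measurable_fst.sub measurable_const)))
  have h1 : ∀ y, g y * KK s (y - v) = ∫⁻ t in Ioc (0 : ℝ) s, g y * hkE t (y - v) := by
    intro y
    unfold KK
    rw [lintegral_const_mul]
    exact measurable_hkE_uncurry.comp (measurable_id.prodMk measurable_const)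
  simp only [h1]
  rw [lintegral_lintegral_swap hm.aemeasurable]

theorem lintegral_KK {s : ℝ} (hs : 0 < s) : ∫⁻ y : Sp n, KK s y = ENNReal.ofReal s := by
  have h := kernB_tonelli s (volume : Measure (Sp n)) (fun _ => 1) measurable_const 0
  simp only [one_mul, sub_zero] at h
  rw [h]
  have h2 : ∫⁻ t in Ioc (0 : ℝ) s, ∫⁻ y : Sp n, hkE t y = ∫⁻ t in Ioc (0 : ℝ) s, 1 := by
    apply setLIntegral_congr_fun measurableSet_Ioc
    intro t ht
    exact lintegral_hkE ht.1
  rw [h2, setLIntegral_const, one_mul, Real.volume_Ioc, sub_zero]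

/-- the profile `(4πt)^(-n/2) e^(-1/(4t))`, bounded -/
theorem kernB_bound (n : ℕ) {t : ℝ} (ht : 0 < t) :
    (4 * Real.pi * t) ^ (-(n : ℝ) / 2) * Real.exp (-1 / (4 * t)) ≤
      (n.factorial : ℝ) * Real.exp 1 := by
  have hpi := Real.pi_pos
  have h4 : (0 : ℝ) < 4 * Real.pi * t := by positivity
  set u : ℝ := 1 / (4 * t) with hu
  have hu0 : 0 < u := by positivity
  have h1 : (4 * Real.pi * t) ^ (-(n : ℝ) / 2) = ((4 * Real.pi * t)⁻¹) ^ ((n : ℝ) / 2) := by
    rw [Real.inv_rpow h4.le, ← Real.rpow_neg h4.le]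
    congr 1; ring
  have hv : (4 * Real.pi * t)⁻¹ ≤ u := by
    rw [hu, one_div]
    apply inv_anti₀ (by positivity)
    have : 1 ≤ Real.pi := by linarith [Real.pi_gt_three]
    nlinarith
  have hv0 : 0 ≤ (4 * Real.pi * t)⁻¹ := by positivity
  have h2 : ((4 * Real.pi * t)⁻¹) ^ ((n : ℝ) / 2) ≤ (1 + u) ^ n := by
    calc ((4 * Real.pi * t)⁻¹) ^ ((n : ℝ) / 2) ≤ (1 + u) ^ ((n : ℝ) / 2) :=
          Real.rpow_le_rpow hv0 (by linarith) (by positivity)
      _ ≤ (1 + u) ^ (n : ℝ) := by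
          apply Real.rpow_le_rpow_of_exponent_le (by linarith)
          have : (0 : ℝ) ≤ n := Nat.cast_nonneg n
          linarith
      _ = (1 + u) ^ n := Real.rpow_natCast _ _
  have h3 : (1 + u) ^ n ≤ (n.factorial : ℝ) * Real.exp (1 + u) := by
    have := Real.pow_div_factorial_le_exp (1 + u) (by positivity) n
    rw [div_le_iff₀ (by positivity)] at this
    linarith
  have h4' : Real.exp (-1 / (4 * t)) = Real.exp (-u) := by
    congr 1; rw [hu]; ring
  rw [h1, h4']
  calc ((4 * Real.pi * t)⁻¹) ^ ((n : ℝ) / 2) * Real.exp (-u)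
      ≤ ((n.factorial : ℝ) * Real.exp (1 + u)) * Real.exp (-u) :=
        mul_le_mul_of_nonneg_right (h2.trans h3) (Real.exp_pos _).le
    _ = (n.factorial : ℝ) * Real.exp 1 := by
        rw [mul_assoc, ← Real.exp_add]; congr 2; ring

/-- off the origin the heat kernel is bounded uniformly in `t > 0` -/
theorem kernB_hk_bound {y : Sp n} (hy : y ≠ 0) {t : ℝ} (ht : 0 < t) :
    hk t y ≤ ‖y‖ ^ (-(n : ℝ)) * ((n.factorial : ℝ) * Real.exp 1) := by
  have hpi := Real.pi_pos
  have hr : 0 < ‖y‖ := norm_pos_iff.2 hy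
  set r := ‖y‖ with hrdef
  have hτ : 0 < t / r ^ 2 := by positivity
  have hb := kernB_bound n hτ
  have h1 : hk t y = r ^ (-(n : ℝ)) *
      ((4 * Real.pi * (t / r ^ 2)) ^ (-(n : ℝ) / 2) * Real.exp (-1 / (4 * (t / r ^ 2)))) := by
    unfold hk
    rw [← hrdef, ← mul_assoc]
    congr 1
    · have h2 : 4 * Real.pi * t = r ^ 2 * (4 * Real.pi * (t / r ^ 2)) := by field_simp
      rw [h2, Real.mul_rpow (by positivity) (by positivity)]
      congr 1
      rw [← Real.rpow_natCast r 2, ← Real.rpow_mul hr.le]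
      congr 1; push_cast; ring
    · congr 1
      field_simp
  rw [h1]
  exact mul_le_mul_of_nonneg_left hb (by positivity)

theorem KK_lt_top (s : ℝ) {y : Sp n} (hy : y ≠ 0) : KK s y < ⊤ := by
  unfold KK
  calc ∫⁻ t in Ioc (0 : ℝ) s, hkE t y
      ≤ ∫⁻ t in Ioc (0 : ℝ) s,
          ENNReal.ofReal (‖y‖ ^ (-(n : ℝ)) * ((n.factorial : ℝ) * Real.exp 1)) := by
        apply setLIntegral_mono' measurableSet_Ioc
        intro t ht
        exact ENNReal.ofReal_le_ofReal (kernB_hk_bound hy ht.1)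
    _ < ⊤ := by
        rw [setLIntegral_const, Real.volume_Ioc]
        exact ENNReal.mul_lt_top ENNReal.ofReal_lt_top ENNReal.ofReal_lt_top

theorem KK_mono {s t : ℝ} (h : s ≤ t) (y : Sp n) : KK s y ≤ KK t y := by
  unfold KK
  exact lintegral_mono_set (Ioc_subset_Ioc_right h)

theorem kernB_exp_tendsto {a b : ℝ} (hb : 0 < b) :
    Tendsto (fun s : ℝ => ENNReal.ofReal (a * Real.exp (-b / (8 * s)))) (𝓝[>] 0) (𝓝 0) := by
  have h1 : Tendsto (fun s : ℝ => -b / (8 * s)) (𝓝[>] 0) atBot := by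
    have h2 : Tendsto (fun s : ℝ => (b / 8) * s⁻¹) (𝓝[>] 0) atTop :=
      tendsto_inv_nhdsGT_zero.const_mul_atTop (by positivity)
    have h3 := tendsto_neg_atTop_atBot.comp h2
    refine h3.congr' ?_
    filter_upwards [self_mem_nhdsWithin] with s hs
    have hs0 : (0 : ℝ) < s := hs
    simp only [Function.comp]
    field_simp
  have h2 : Tendsto (fun s : ℝ => a * Real.exp (-b / (8 * s))) (𝓝[>] 0) (𝓝 (a * 0)) :=
    (Real.tendsto_exp_atBot.comp h1).const_mul a
  rw [mul_zero] at h2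
  have h3 := ENNReal.tendsto_ofReal h2
  rwa [ENNReal.ofReal_zero] at h3

/-- mass of `K_s/s` away from the origin tends to `0`. -/
theorem KK_tail {ρ : ℝ} (hρ : 0 < ρ) :
    Tendsto (fun s : ℝ => (∫⁻ y in {y : Sp n | ρ ≤ ‖y‖}, KK s y) / ENNReal.ofReal s)
      (𝓝[>] 0) (𝓝 0) := by
  have hlim := kernB_exp_tendsto (a := 2 ^ ((n : ℝ) / 2)) (b := ρ ^ 2) (by positivity)
  refine tendsto_of_tendsto_of_tendsto_of_le_of_le' tendsto_const_nhds hlim
    (Eventually.of_forall fun _ => bot_le) ?_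
  filter_upwards [self_mem_nhdsWithin] with s hs
  have hs0 : (0 : ℝ) < s := hs
  have h := kernB_tonelli s (volume.restrict {y : Sp n | ρ ≤ ‖y‖}) (fun _ => 1)
    measurable_const 0
  simp only [one_mul, sub_zero] at h
  rw [h]
  apply ENNReal.div_le_of_le_mul
  calc ∫⁻ t in Ioc (0 : ℝ) s, ∫⁻ y in {y : Sp n | ρ ≤ ‖y‖}, hkE t y
      ≤ ∫⁻ t in Ioc (0 : ℝ) s,
          ENNReal.ofReal (2 ^ ((n : ℝ) / 2) * Real.exp (-ρ ^ 2 / (8 * s))) := by
        apply setLIntegral_mono' measurableSet_Ioc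
        intro t ht
        refine (hk_tail ht.1 hρ.le).trans (ENNReal.ofReal_le_ofReal ?_)
        apply mul_le_mul_of_nonneg_left _ (by positivity)
        apply Real.exp_le_exp.2
        rw [neg_div, neg_div, neg_le_neg_iff]
        apply div_le_div_of_nonneg_left (by positivity)
        · have := ht.1; positivity
        · linarith [ht.2]
    _ = ENNReal.ofReal (2 ^ ((n : ℝ) / 2) * Real.exp (-ρ ^ 2 / (8 * s))) *
          ENNReal.ofReal s := by
        rw [setLIntegral_const, Real.volume_Ioc, sub_zero]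

/-- pointwise decay off the origin. -/
theorem KK_point {y : Sp n} (hy : y ≠ 0) :
    Tendsto (fun s : ℝ => KK s y / ENNReal.ofReal s) (𝓝[>] 0) (𝓝 0) := by
  have hr : 0 < ‖y‖ := norm_pos_iff.2 hy
  set C : ℝ := ‖y‖ ^ (-(n : ℝ)) * ((n.factorial : ℝ) * Real.exp 1) with hC
  have hlim := kernB_exp_tendsto (a := 2 ^ ((n : ℝ) / 2) * C) (b := ‖y‖ ^ 2) (by positivity)
  refine tendsto_of_tendsto_of_tendsto_of_le_of_le' tendsto_const_nhds hlim
    (Eventually.of_forall fun _ => bot_le) ?_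
  filter_upwards [self_mem_nhdsWithin] with s hs
  have hs0 : (0 : ℝ) < s := hs
  apply ENNReal.div_le_of_le_mul
  unfold KK
  calc ∫⁻ t in Ioc (0 : ℝ) s, hkE t y
      ≤ ∫⁻ t in Ioc (0 : ℝ) s,
          ENNReal.ofReal (2 ^ ((n : ℝ) / 2) * C * Real.exp (-‖y‖ ^ 2 / (8 * s))) := by
        apply setLIntegral_mono' measurableSet_Ioc
        intro t ht
        apply ENNReal.ofReal_le_ofReal
        rw [hk_eq_double ht.1 y]
        have h2t : (0 : ℝ) < 2 * t := by linarith [ht.1]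
        apply mul_le_mul
        · exact mul_le_mul_of_nonneg_left (kernB_hk_bound hy h2t) (by positivity)
        · apply Real.exp_le_exp.2
          rw [neg_div, neg_div, neg_le_neg_iff]
          apply div_le_div_of_nonneg_left (by positivity)
          · have := ht.1; positivity
          · linarith [ht.2]
        · exact (Real.exp_pos _).le
        · positivity
    _ = ENNReal.ofReal (2 ^ ((n : ℝ) / 2) * C * Real.exp (-‖y‖ ^ 2 / (8 * s))) *
          ENNReal.ofReal s := by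
        rw [setLIntegral_const, Real.volume_Ioc, sub_zero]

/-- `K_s ≥ c s^{1-n/2}` on the ball of radius `√s`. -/
theorem KK_lower : ∃ c : ℝ, 0 < c ∧ ∀ s : ℝ, 0 < s → ∀ y : Sp n, ‖y‖ ^ 2 ≤ s →
    ENNReal.ofReal (c * s ^ (1 - (n : ℝ) / 2)) ≤ KK s y := by
  have hpi := Real.pi_pos
  refine ⟨(1 / 2) * (4 * Real.pi) ^ (-(n : ℝ) / 2) * Real.exp (-1 / 2), by positivity, ?_⟩
  intro s hs y hy
  unfold KK
  have hsub : Ioc (s / 2) s ⊆ Ioc (0 : ℝ) s := Ioc_subset_Ioc_left (by positivity)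
  refine le_trans ?_ (lintegral_mono_set hsub)
  have hconst : ENNReal.ofReal ((4 * Real.pi * s) ^ (-(n : ℝ) / 2) * Real.exp (-1 / 2)) *
      ENNReal.ofReal (s / 2) ≤ ∫⁻ t in Ioc (s / 2) s, hkE t y := by
    have : ∫⁻ t in Ioc (s / 2) s,
        ENNReal.ofReal ((4 * Real.pi * s) ^ (-(n : ℝ) / 2) * Real.exp (-1 / 2)) =
        ENNReal.ofReal ((4 * Real.pi * s) ^ (-(n : ℝ) / 2) * Real.exp (-1 / 2)) *
          ENNReal.ofReal (s / 2) := by
      rw [setLIntegral_const, Real.volume_Ioc]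
      congr 2; ring
    rw [← this]
    apply setLIntegral_mono' measurableSet_Ioc
    intro t ht
    have ht0 : 0 < t := by linarith [ht.1]
    apply ENNReal.ofReal_le_ofReal
    unfold hk
    apply mul_le_mul
    · apply Real.rpow_le_rpow_of_nonpos (by positivity)
      · have := ht.2; nlinarith
      · have : (0 : ℝ) ≤ n := Nat.cast_nonneg n
        linarith
    · apply Real.exp_le_exp.2
      rw [neg_div, neg_div, neg_le_neg_iff, div_le_div_iff₀ (by positivity) (by norm_num)]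
      have := ht.1
      nlinarith
    · exact (Real.exp_pos _).le
    · positivity
  refine le_trans (le_of_eq ?_) hconst
  rw [← ENNReal.ofReal_mul (by positivity)]
  congr 1
  rw [Real.mul_rpow (by positivity) hs.le, Real.rpow_sub hs, Real.rpow_one, neg_div,
    Real.rpow_neg hs.le]
  field_simp

/-- `p_s * K_r ≤ K_{s+r}` (used in the singularity lemma). -/
theorem PP_KK_le {s r : ℝ} (hs : 0 < s) (hr : 0 < r) (x y : Sp n) :
    ∫⁻ z, hkE s (y - z) * KK r (z - x) ≤ KK (s + r) (y - x) := by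
  have hm : Measurable (fun z : Sp n => hkE s (y - z)) :=
    measurable_hkE_uncurry.comp (measurable_const.prodMk (measurable_const.sub measurable_id))
  rw [kernB_tonelli r volume (fun z => hkE s (y - z)) hm x]
  have h1 : ∫⁻ t in Ioc (0 : ℝ) r, ∫⁻ z, hkE s (y - z) * hkE t (z - x) =
      ∫⁻ t in Ioc (0 : ℝ) r, hkE (s + t) (y - x) := by
    apply setLIntegral_congr_fun measurableSet_Ioc
    intro t ht
    exact hkE_semigroup hs ht.1 y x
  rw [h1]
  have h2 : ∫⁻ t in Ioc (0 : ℝ) r, hkE (s + t) (y - x) =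
      ∫⁻ t in Ioc s (s + r), hkE t (y - x) := by
    rw [← lintegral_indicator measurableSet_Ioc, ← lintegral_indicator measurableSet_Ioc]
    rw [← lintegral_add_left_eq_self (μ := volume)
      ((Ioc s (s + r)).indicator fun t => hkE t (y - x)) s]
    apply lintegral_congr
    intro t
    by_cases ht : t ∈ Ioc (0 : ℝ) r
    · have ht' : s + t ∈ Ioc s (s + r) := ⟨by linarith [ht.1], by linarith [ht.2]⟩
      rw [indicator_of_mem ht, indicator_of_mem ht']
    · have ht' : s + t ∉ Ioc s (s + r) := fun h => ht ⟨by linarith [h.1], by linarith [h.2]⟩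
      rw [indicator_of_notMem ht, indicator_of_notMem ht']
  rw [h2]
  unfold KK
  exact lintegral_mono_set (Ioc_subset_Ioc_left hs.le)

end TM291
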