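import Pool.Agent.Lib.MP_291eb9_an.KernA
import Pool.Agent.Lib.MP_291eb9_an.KernB

open MeasureTheory Set Filter Topology
open scoped ENNReal NNReal

namespace TM291

variable {n : ℕ}

theorem measurable_pot (μ : Measure (Sp n)) [SFinite μ] : Measurable (pot μ) :=
  Measurable.lintegral_prod_right' (f := fun p : Sp n × Sp n => kernel p.1 p.2)
    measurable_kernel_uncurry

theorem measurable_KK_sub (s : ℝ) : Measurable (fun p : Sp n × Sp n => KK s (p.1 - p.2)) :=
  (measurable_KK s).comp (measurable_fst.sub measurable_snd)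

theorem measurable_KM (s : ℝ) (μ : Measure (Sp n)) [SFinite μ] : Measurable (KM s μ) :=
  Measurable.lintegral_prod_right' (f := fun p : Sp n × Sp n => KK s (p.1 - p.2))
    (measurable_KK_sub s)

theorem measurable_kernel_right (y : Sp n) : Measurable (fun z : Sp n => kernel y z) := by
  unfold kernel
  exact (measurable_const.edist measurable_id).pow_const _

theorem measurable_kernel_left (z : Sp n) : Measurable (fun y : Sp n => kernel y z) := by
  unfold kernel
  exact (measurable_id.edist measurable_const).pow_const _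

theorem pot_dirac (x y : Sp n) : pot (Measure.dirac x) y = kernel x y := by
  unfold pot
  rw [lintegral_dirac' x (measurable_kernel_right y), kernel_comm]

theorem pot_add (μ ν : Measure (Sp n)) (y : Sp n) : pot (μ + ν) y = pot μ y + pot ν y := by
  unfold pot
  rw [lintegral_add_measure]

theorem pot_translate (μ : Measure (Sp n)) (v y : Sp n) :
    pot (μ.map (fun z => z - v)) y = pot μ (y + v) := by
  unfold pot
  rw [lintegral_map (measurable_kernel_right y) (measurable_sub_const v)]
  refine lintegral_congr fun z => ?_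
  unfold kernel
  congr 1
  rw [edist_eq_enorm_sub, edist_eq_enorm_sub]
  congr 1
  abel

/-- the part of the kernel after time `s`. -/
noncomputable def KL {n : ℕ} (s : ℝ) (y : Sp n) : ℝ≥0∞ := ∫⁻ t in Ioi s, hkE t y

theorem measurable_hkE_t (y : Sp n) : Measurable (fun t : ℝ => hkE t y) :=
  measurable_hkE_uncurry.comp (measurable_id.prodMk measurable_const)

theorem measurable_hkE (s : ℝ) : Measurable (hkE s : Sp n → ℝ≥0∞) :=
  measurable_hkE_uncurry.comp (measurable_const.prodMk measurable_id)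

theorem measurable_hkE_sub (s : ℝ) (y : Sp n) : Measurable (fun z : Sp n => hkE s (y - z)) :=
  (measurable_hkE s).comp (measurable_const.sub measurable_id)

theorem measurable_hkE_sub' (s : ℝ) (y : Sp n) : Measurable (fun z : Sp n => hkE s (z - y)) :=
  (measurable_hkE s).comp (measurable_id.sub measurable_const)

theorem measurable_KL (s : ℝ) : Measurable (KL s : Sp n → ℝ≥0∞) := by
  have h : Measurable (fun p : Sp n × ℝ => hkE p.2 p.1) :=
    measurable_hkE_uncurry.comp (measurable_snd.prodMk measurable_fst)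
  exact Measurable.lintegral_prod_right' (f := fun p : Sp n × ℝ => hkE p.2 p.1) h

theorem KK_add_KL {s : ℝ} (hs : 0 < s) (y : Sp n) :
    KK s y + KL s y = ∫⁻ t in Ioi (0 : ℝ), hkE t y := by
  unfold KK KL
  rw [← Ioc_union_Ioi_eq_Ioi hs.le, lintegral_union measurableSet_Ioi]
  rw [Set.disjoint_left]
  intro t ht ht'
  exact absurd ht.2 (not_le.2 ht')

/-- heat semigroup applied to the kernel. -/
theorem PP_kernel (hn : 3 ≤ n) {s : ℝ} (hs : 0 < s) (y z : Sp n) :
    ∫⁻ w, hkE s (y - w) * kernel w z = cN n * KL s (y - z) := by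
  have h1 : ∀ w : Sp n, hkE s (y - w) * kernel w z
      = cN n * ∫⁻ t in Ioi (0 : ℝ), hkE s (y - w) * hkE t (w - z) := by
    intro w
    rw [kernel_eq hn, lintegral_const_mul _ (measurable_hkE_t (w - z))]
    ring
  simp_rw [h1]
  have hm : Measurable (fun p : Sp n × ℝ => hkE s (y - p.1) * hkE p.2 (p.1 - z)) := by
    have h1 : Measurable (fun p : Sp n × ℝ => hkE s (y - p.1)) :=
      (measurable_hkE_sub s y).comp measurable_fst
    have h2 : Measurable (fun p : Sp n × ℝ => (p.2, p.1 - z)) :=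
      measurable_snd.prodMk (measurable_fst.sub measurable_const)
    exact h1.mul (measurable_hkE_uncurry.comp h2)
  rw [lintegral_const_mul _ (Measurable.lintegral_prod_right' (f := fun p : Sp n × ℝ =>
    hkE s (y - p.1) * hkE p.2 (p.1 - z)) hm)]
  congr 1
  rw [lintegral_lintegral_swap hm.aemeasurable]
  have h2 : ∫⁻ t in Ioi (0 : ℝ), ∫⁻ w, hkE s (y - w) * hkE t (w - z)
      = ∫⁻ t in Ioi (0 : ℝ), hkE (s + t) (y - z) := by
    refine setLIntegral_congr_fun measurableSet_Ioi fun t ht => ?_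
    exact hkE_semigroup hs ht y z
  rw [h2]
  unfold KL
  have h3 : ∫⁻ t in Ioi (0 : ℝ), hkE (s + t) (y - z)
      = ∫⁻ t, (Ioi s).indicator (fun t => hkE t (y - z)) (s + t) := by
    rw [← lintegral_indicator measurableSet_Ioi]
    refine lintegral_congr fun t => ?_
    by_cases ht : t ∈ Ioi (0 : ℝ)
    · rw [indicator_of_mem ht, indicator_of_mem]
      simpa using ht
    · rw [indicator_of_notMem ht, indicator_of_notMem]
      simpa using ht
  rw [h3, lintegral_add_left_eq_self, lintegral_indicator measurableSet_Ioi]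

theorem PP_pot_eq (hn : 3 ≤ n) (μ : Measure (Sp n)) [IsFiniteMeasure μ] {s : ℝ} (hs : 0 < s)
    (y : Sp n) : PP s (pot μ) y = cN n * ∫⁻ z, KL s (y - z) ∂μ := by
  unfold PP pot
  have h1 : ∀ w : Sp n, hkE s (y - w) * ∫⁻ z, kernel w z ∂μ
      = ∫⁻ z, hkE s (y - w) * kernel w z ∂μ := by
    intro w
    rw [lintegral_const_mul _ (measurable_kernel_right w)]
  simp_rw [h1]
  rw [lintegral_lintegral_swap]
  · simp_rw [PP_kernel hn hs]
    rw [lintegral_const_mul]
    exact (measurable_KL s).comp (measurable_const.sub measurable_id)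
  · refine Measurable.aemeasurable ?_
    exact ((measurable_hkE_sub s y).comp measurable_fst).mul measurable_kernel_uncurry

/-- `P_s pot μ + c K_s * μ = pot μ`. -/
theorem PP_pot_add (hn : 3 ≤ n) (μ : Measure (Sp n)) [IsFiniteMeasure μ] {s : ℝ} (hs : 0 < s)
    (y : Sp n) : PP s (pot μ) y + cN n * KM s μ y = pot μ y := by
  rw [PP_pot_eq hn μ hs, ← mul_add]
  unfold KM
  rw [← lintegral_add_left]
  · unfold pot
    rw [← lintegral_const_mul]
    · refine lintegral_congr fun z => ?_
      rw [kernel_eq hn y z, ← KK_add_KL hs, add_comm]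
    · exact ((measurable_KL s).comp (measurable_const.sub measurable_id)).add
        ((measurable_KK s).comp (measurable_const.sub measurable_id))
  · exact (measurable_KL s).comp (measurable_const.sub measurable_id)

theorem PP_pot_le (hn : 3 ≤ n) (μ : Measure (Sp n)) [IsFiniteMeasure μ] {s : ℝ} (hs : 0 < s)
    (y : Sp n) : PP s (pot μ) y ≤ pot μ y := by
  rw [← PP_pot_add hn μ hs y]
  exact le_self_add

theorem KL_bdd (hn : 3 ≤ n) {s : ℝ} (hs : 0 < s) :
    ∃ M : ℝ≥0∞, M ≠ ⊤ ∧ ∀ y : Sp n, KL s y ≤ M := by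
  refine ⟨∫⁻ t in Ioi s, ENNReal.ofReal ((4 * Real.pi * t) ^ (-(n : ℝ) / 2)), ?_, ?_⟩
  · have h3 : (3 : ℝ) ≤ n := by exact_mod_cast hn
    have hlt : -(n : ℝ) / 2 < -1 := by linarith
    have h1 : IntegrableOn (fun t : ℝ => t ^ (-(n : ℝ) / 2)) (Ioi s) :=
      integrableOn_Ioi_rpow_of_lt hlt hs
    have h2 : IntegrableOn (fun t : ℝ => (4 * Real.pi * t) ^ (-(n : ℝ) / 2)) (Ioi s) := by
      have := h1.const_mul ((4 * Real.pi) ^ (-(n : ℝ) / 2))
      refine IntegrableOn.congr_fun this (fun t ht => ?_) measurableSet_Ioi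
      have ht' : 0 < t := lt_trans hs ht
      have : (0 : ℝ) ≤ 4 * Real.pi := by positivity
      rw [Real.mul_rpow this ht'.le]
    exact h2.lintegral_lt_top.ne
  · intro y
    unfold KL
    refine setLIntegral_mono_ae' measurableSet_Ioi (Eventually.of_forall fun t ht => ?_)
    exact ENNReal.ofReal_le_ofReal (hk_le (lt_trans hs ht) y)

/-- `P_s pot μ` is bounded. -/
theorem PP_pot_bdd (hn : 3 ≤ n) (μ : Measure (Sp n)) [IsFiniteMeasure μ] {s : ℝ} (hs : 0 < s) :
    ∃ M : ℝ≥0∞, M ≠ ⊤ ∧ ∀ y, PP s (pot μ) y ≤ M := by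
  obtain ⟨M, hM, hle⟩ := KL_bdd hn hs
  refine ⟨cN n * (M * μ univ), ?_, fun y => ?_⟩
  · exact ENNReal.mul_ne_top (cN_ne_top hn) (ENNReal.mul_ne_top hM (measure_ne_top μ _))
  · rw [PP_pot_eq hn μ hs]
    gcongr
    calc ∫⁻ z, KL s (y - z) ∂μ ≤ ∫⁻ _, M ∂μ := lintegral_mono fun z => hle _
      _ = M * μ univ := by rw [lintegral_const]

theorem continuous_kernel_left (z : Sp n) : Continuous (fun y : Sp n => kernel y z) := by
  unfold kernel
  exact ENNReal.continuous_rpow_const.comp (continuous_id.edist continuous_const)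

/-- Fatou. -/
theorem lsc_pot (hn : 3 ≤ n) (μ : Measure (Sp n)) [IsFiniteMeasure μ] :
    LowerSemicontinuous (pot μ) := by
  rw [lowerSemicontinuous_iff_le_liminf]
  intro x
  calc pot μ x = ∫⁻ z, liminf (fun y => kernel y z) (𝓝 x) ∂μ := by
        unfold pot
        refine lintegral_congr fun z => ?_
        exact ((continuous_kernel_left z).tendsto x).liminf_eq.symm
    _ ≤ liminf (fun y => ∫⁻ z, kernel y z ∂μ) (𝓝 x) :=
        lintegral_liminf_le fun y => measurable_kernel_right y
    _ = liminf (pot μ) (𝓝 x) := rfl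

/-- total mass of `K_s * μ`. -/
theorem lintegral_KM (μ : Measure (Sp n)) [IsFiniteMeasure μ] {s : ℝ} (hs : 0 < s) :
    ∫⁻ y, KM s μ y = ENNReal.ofReal s * μ univ := by
  unfold KM
  rw [lintegral_lintegral_swap (measurable_KK_sub s).aemeasurable]
  have h : ∀ z : Sp n, ∫⁻ y, KK s (y - z) = ENNReal.ofReal s := by
    intro z
    rw [lintegral_sub_right_eq_self (fun y => KK s y) z, lintegral_KK hs]
  simp_rw [h]
  rw [lintegral_const]

theorem lintegral_pot_ball_lt_top (hn : 3 ≤ n) (μ : Measure (Sp n)) [IsFiniteMeasure μ] (R : ℝ) :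
    ∫⁻ y in Metric.ball (0 : Sp n) R, pot μ y < ⊤ := by
  obtain ⟨M, hM, hle⟩ := PP_pot_bdd hn μ one_pos
  have h1 : ∀ y, pot μ y ≤ M + cN n * KM 1 μ y := by
    intro y
    rw [← PP_pot_add hn μ one_pos y]
    gcongr
    exact hle y
  have h2 : ∫⁻ y in Metric.ball (0 : Sp n) R, cN n * KM 1 μ y < ⊤ := by
    refine lt_of_le_of_lt (setLIntegral_le_lintegral _ _) ?_
    rw [lintegral_const_mul _ (measurable_KM 1 μ), lintegral_KM μ one_pos]
    exact ENNReal.mul_lt_top (cN_ne_top hn).lt_top
      (ENNReal.mul_lt_top ENNReal.ofReal_lt_top (measure_lt_top μ _))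
  calc ∫⁻ y in Metric.ball (0 : Sp n) R, pot μ y
      ≤ ∫⁻ y in Metric.ball (0 : Sp n) R, (M + cN n * KM 1 μ y) := lintegral_mono fun y => h1 y
    _ = (∫⁻ _ in Metric.ball (0 : Sp n) R, M)
        + ∫⁻ y in Metric.ball (0 : Sp n) R, cN n * KM 1 μ y :=
        lintegral_add_left measurable_const _
    _ < ⊤ := by
        refine ENNReal.add_lt_top.2 ⟨?_, h2⟩
        rw [setLIntegral_const]
        exact ENNReal.mul_lt_top hM.lt_top measure_ball_lt_top

theorem pot_ae_lt_top (hn : 3 ≤ n) (μ : Measure (Sp n)) [IsFiniteMeasure μ] :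
    ∀ᵐ y : Sp n, pot μ y < ⊤ := by
  have h : ∀ k : ℕ, ∀ᵐ y : Sp n, y ∈ Metric.ball (0 : Sp n) k → pot μ y < ⊤ := by
    intro k
    have := ae_lt_top (measurable_pot μ) (lintegral_pot_ball_lt_top hn μ k).ne
    exact (ae_restrict_iff' measurableSet_ball).1 this
  have h' := ae_all_iff.2 h
  filter_upwards [h'] with y hy
  obtain ⟨k, hk⟩ := exists_nat_gt ‖y‖
  exact hy k (by simpa using hk)

/-- `∫ K_s(y-z) pot μ(y) dy ≤ s pot μ(z)`. -/
theorem lintegral_KK_pot_le (hn : 3 ≤ n) (μ : Measure (Sp n)) [IsFiniteMeasure μ] {s : ℝ}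
    (hs : 0 < s) (z : Sp n) :
    ∫⁻ y, KK s (y - z) * pot μ y ≤ ENNReal.ofReal s * pot μ z := by
  have h1 : ∀ y : Sp n, KK s (y - z) * pot μ y
      = ∫⁻ t in Ioc (0 : ℝ) s, hkE t (y - z) * pot μ y := by
    intro y
    unfold KK
    rw [lintegral_mul_const _ (measurable_hkE_t (y - z))]
  simp_rw [h1]
  rw [lintegral_lintegral_swap]
  · calc ∫⁻ t in Ioc (0 : ℝ) s, ∫⁻ y, hkE t (y - z) * pot μ y
        ≤ ∫⁻ _ in Ioc (0 : ℝ) s, pot μ z := by
          refine setLIntegral_mono_ae' measurableSet_Ioc (Eventually.of_forall fun t ht => ?_)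
          refine le_trans (le_of_eq ?_) (PP_pot_le hn μ ht.1 z)
          unfold PP
          refine lintegral_congr fun y => ?_
          congr 1
          unfold hkE
          rw [hk_sub_comm]
      _ = ENNReal.ofReal s * pot μ z := by
          rw [setLIntegral_const, Real.volume_Ioc, sub_zero, mul_comm]
  · refine Measurable.aemeasurable ?_
    have h1 : Measurable (fun p : Sp n × ℝ => (p.2, p.1 - z)) :=
      measurable_snd.prodMk (measurable_fst.sub measurable_const)
    have h2 : Measurable (fun p : Sp n × ℝ => pot μ p.1) := (measurable_pot μ).comp measurable_fst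
    exact (measurable_hkE_uncurry.comp h1).mul h2

end TM291
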