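import Pool.Agent.Lib.MP_291eb9_an.Defs

open MeasureTheory Set Filter Topology
open scoped ENNReal NNReal

namespace TM291

variable {n : ℕ}

theorem exists_sets {α : Type*} [MeasurableSpace α] (ω : Fin 3 → Measure α)
    (hf : ∀ j, IsFiniteMeasure (ω j)) (h : ω 0 ⊓ ω 1 ⊓ ω 2 = 0) :
    ∃ S : Fin 3 → Set α, (∀ j, MeasurableSet (S j)) ∧ (∀ j, ω j (S j)ᶜ = 0) ∧
      ⋂ j, S j = ∅ := by
  set μ : Measure α := ω 0 + ω 1 + ω 2 with hμ
  have i0 := hf 0
  have i1 := hf 1
  have i2 := hf 2
  have hfμ : IsFiniteMeasure μ := by rw [hμ]; infer_instance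
  have hle : ∀ j, ω j ≤ μ := by
    intro j
    fin_cases j
    · exact (Measure.le_add_right (Measure.le_add_right le_rfl))
    · exact (Measure.le_add_right (Measure.le_add_left le_rfl))
    · exact (Measure.le_add_left le_rfl)
  have hac : ∀ j, ω j ≪ μ := fun j => Measure.absolutelyContinuous_of_le (hle j)
  set f : Fin 3 → α → ℝ≥0∞ := fun j => (ω j).rnDeriv μ with hfdef
  have hfm : ∀ j, Measurable (f j) := fun j => Measure.measurable_rnDeriv _ _
  have hwd : ∀ j, μ.withDensity (f j) = ω j := fun j => by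
    have := hf j
    exact Measure.withDensity_rnDeriv_eq _ _ (hac j)
  set g : α → ℝ≥0∞ := fun a => min (f 0 a) (min (f 1 a) (f 2 a)) with hg
  have hgm : Measurable g := (hfm 0).min ((hfm 1).min (hfm 2))
  have hgle : ∀ j a, g a ≤ f j a := by
    intro j a
    fin_cases j
    · exact min_le_left _ _
    · exact (min_le_right _ _).trans (min_le_left _ _)
    · exact (min_le_right _ _).trans (min_le_right _ _)
  have hg0 : μ.withDensity g = 0 := by
    have h1 : ∀ j, μ.withDensity g ≤ ω j := fun j => by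
      rw [← hwd j]
      exact withDensity_mono (Eventually.of_forall fun a => hgle j a)
    have h2 : μ.withDensity g ≤ ω 0 ⊓ ω 1 ⊓ ω 2 := le_inf (le_inf (h1 0) (h1 1)) (h1 2)
    rw [h] at h2
    exact le_antisymm h2 (Measure.zero_le _)
  have hgae : g =ᵐ[μ] 0 := withDensity_eq_zero hgm.aemeasurable hg0
  refine ⟨fun j => {a | f j a ≠ 0} ∩ {a | g a = 0}, fun j => ?_, fun j => ?_, ?_⟩
  · exact ((hfm j) (measurableSet_singleton 0).compl).inter (hgm (measurableSet_singleton 0))
  · have hsub : ({a | f j a ≠ 0} ∩ {a | g a = 0})ᶜ ⊆ {a | f j a = 0} ∪ {a | g a ≠ 0} := by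
      intro a ha
      by_cases h1 : f j a = 0
      · exact Or.inl h1
      · by_cases h2 : g a = 0
        · exact absurd ⟨h1, h2⟩ ha
        · exact Or.inr h2
    refine measure_mono_null hsub (measure_union_null ?_ ?_)
    · have hms : MeasurableSet {a | f j a = 0} := (hfm j) (measurableSet_singleton 0)
      rw [← hwd j, withDensity_apply _ hms]
      rw [setLIntegral_congr_fun hms (g := fun _ => 0) (fun a ha => ha)]
      simp
    · exact hac j (ae_iff.1 hgae)
  · ext a
    simp only [mem_iInter, mem_inter_iff, mem_ofPred_eq, mem_empty_iff_false, iff_false]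
    intro hall
    have h0 := (hall 0).1
    have h1 := (hall 1).1
    have h2 := (hall 2).1
    have hga := (hall 0).2
    simp only [hg] at hga
    rcases min_eq_iff.1 hga with ⟨h, -⟩ | ⟨h, -⟩
    · exact h0 h
    · rcases min_eq_iff.1 h with ⟨h, -⟩ | ⟨h, -⟩
      · exact h1 h
      · exact h2 h

end TM291
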