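import Pool.Agent.Lib.MP_291eb9_an.Pot

open MeasureTheory Set Filter Topology
open scoped ENNReal NNReal

namespace TM291

variable {n : ℕ}

private theorem sa_measurable_kernel_left (x : Sp n) : Measurable (fun z : Sp n => kernel x z) := by
  unfold kernel
  have h : Measurable (fun z : Sp n => edist x z) := measurable_edist_right
  exact h.pow_const _

private theorem sa_measurable_hkE_sub (s : ℝ) (y : Sp n) :
    Measurable (fun z : Sp n => hkE s (y - z)) := by
  have h : Measurable (fun z : Sp n => ((s, y - z) : ℝ × Sp n)) :=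
    measurable_const.prodMk (measurable_const.sub measurable_id)
  exact measurable_hkE_uncurry.comp h

private theorem measurable_E (x : Sp n) (ω : Measure (Sp n)) [SFinite ω] :
    Measurable (fun z : Sp n => kernel x z - pot ω z) :=
  (sa_measurable_kernel_left x).sub (measurable_pot ω)

/-- `E`-valued Green function and the identity `P_s g + c K_s(·-x) = g + c K_s * ω`. -/
theorem green_identity (hn : 3 ≤ n) {x : Sp n} {ω : Measure (Sp n)} (hp : Pair x ω) {s : ℝ}
    (hs : 0 < s) (y : Sp n) :
    PP s (fun z => kernel x z - pot ω z) y + cN n * KK s (y - x) =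
      (kernel x y - pot ω y) + cN n * KM s ω y := by
  have := hp.fin
  have hfin : PP s (pot ω) y ≠ ⊤ := by
    obtain ⟨M, hM, hb⟩ := PP_pot_bdd hn ω hs
    exact ne_top_of_le_ne_top hM (hb y)
  have h1 : PP s (fun z => kernel x z - pot ω z) y + PP s (pot ω) y =
      PP s (pot (Measure.dirac x)) y := by
    unfold PP
    have hm : Measurable fun z => hkE s (y - z) * pot ω z :=
      (sa_measurable_hkE_sub s y).mul (measurable_pot ω)
    rw [← lintegral_add_right _ hm]
    refine lintegral_congr fun z => ?_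
    rw [← mul_add, tsub_add_cancel_of_le (hp.pot_le z), pot_dirac]
  have h2 := PP_pot_add hn (Measure.dirac x) hs y
  have h3 := PP_pot_add hn ω hs y
  have h4 : KM s (Measure.dirac x) y = KK s (y - x) := by
    unfold KM
    exact lintegral_dirac' x
      ((measurable_KK s).comp (measurable_const.sub measurable_id))
  rw [h4, pot_dirac, ← h1] at h2
  have h5 : (kernel x y - pot ω y) + pot ω y = kernel x y :=
    tsub_add_cancel_of_le (hp.pot_le y)
  have h6 : PP s (pot ω) y + (PP s (fun z => kernel x z - pot ω z) y + cN n * KK s (y - x)) =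
      PP s (pot ω) y + ((kernel x y - pot ω y) + cN n * KM s ω y) := by
    calc _ = kernel x y := by rw [← h2]; ring
      _ = (kernel x y - pot ω y) + pot ω y := h5.symm
      _ = (kernel x y - pot ω y) + (PP s (pot ω) y + cN n * KM s ω y) := by rw [h3]
      _ = _ := by ring
  exact (ENNReal.add_right_inj hfin).1 h6

private theorem hk_mul_exp {s : ℝ} (hs : 0 < s) (y : Sp n) :
    hk s y * Real.exp (‖y‖ ^ 2 / (16 * s)) = (4 / 3) ^ ((n : ℝ) / 2) * hk (4 * s / 3) y := by
  unfold hk
  have h1 : (4 * Real.pi * (4 * s / 3)) ^ (-(n : ℝ) / 2) =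
      (4 / 3) ^ (-(n : ℝ) / 2) * (4 * Real.pi * s) ^ (-(n : ℝ) / 2) := by
    rw [← Real.mul_rpow (by norm_num) (by positivity)]
    congr 1
    ring
  have h2 : ((4 : ℝ) / 3) ^ ((n : ℝ) / 2) * (4 / 3) ^ (-(n : ℝ) / 2) = 1 := by
    rw [← Real.rpow_add (by norm_num)]
    have : (n : ℝ) / 2 + -(n : ℝ) / 2 = 0 := by ring
    rw [this, Real.rpow_zero]
  rw [h1, mul_assoc, ← Real.exp_add]
  have h3 : -‖y‖ ^ 2 / (4 * s) + ‖y‖ ^ 2 / (16 * s) = -‖y‖ ^ 2 / (4 * (4 * s / 3)) := by
    field_simp
    ring
  rw [h3]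
  calc _ = 1 * (4 * Real.pi * s) ^ (-(n : ℝ) / 2) *
        Real.exp (-‖y‖ ^ 2 / (4 * (4 * s / 3))) := by ring
    _ = _ := by rw [← h2]; ring

/-- one step: `P_s g(y) ≤ C (∫_{g>0} p_{4s/3}(y-z)dz) P_{8s} g(y) + c K_{5s}(y-x)`. -/
theorem green_step (hn : 3 ≤ n) {x : Sp n} {ω : Measure (Sp n)} (hp : Pair x ω) :
    ∃ C : ℝ≥0∞, C ≠ ⊤ ∧ ∀ s : ℝ, 0 < s → ∀ y : Sp n,
      PP s (fun z => kernel x z - pot ω z) y ≤
        C * (∫⁻ z in {z | kernel x z - pot ω z ≠ 0}, hkE (4 * s / 3) (y - z)) *
          PP (8 * s) (fun z => kernel x z - pot ω z) y + cN n * KK (5 * s) (y - x) := by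
  have := hp.fin
  set E : Sp n → ℝ≥0∞ := fun z => kernel x z - pot ω z with hE
  have hEm : Measurable E := measurable_E x ω
  have hSm : MeasurableSet {z | E z ≠ 0} := (hEm (measurableSet_singleton 0)).compl
  refine ⟨ENNReal.ofReal ((2 : ℝ) ^ ((n : ℝ) / 2) * (4 / 3) ^ ((n : ℝ) / 2)),
    ENNReal.ofReal_ne_top, fun s hs y => ?_⟩
  have h4s : 0 < 4 * s := by linarith
  -- pointwise bound on `E`
  have hb : ∀ z, E z ≤ PP (4 * s) E z + cN n * KK (4 * s) (z - x) := fun z => by
    rw [green_identity hn hp h4s z]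
    exact le_self_add
  -- Harnack
  have hh : ∀ z, PP (4 * s) E z ≤
      ENNReal.ofReal (2 ^ ((n : ℝ) / 2) * Real.exp (‖y - z‖ ^ 2 / (16 * s))) *
        PP (8 * s) E y := fun z => by
    unfold PP
    have hm : Measurable fun z => hkE (8 * s) (y - z) * E z :=
      (sa_measurable_hkE_sub _ _).mul hEm
    rw [← lintegral_const_mul _ hm]
    refine lintegral_mono fun u => ?_
    rw [← mul_assoc]
    refine mul_le_mul_left ?_ _
    unfold hkE
    rw [← ENNReal.ofReal_mul (by positivity)]
    refine ENNReal.ofReal_le_ofReal ?_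
    calc _ ≤ _ := hk_harnack hs y z u
      _ = _ := by ring
  have h1 : PP s E y = ∫⁻ z in {z | E z ≠ 0}, hkE s (y - z) * E z := by
    unfold PP
    rw [← lintegral_indicator hSm]
    refine lintegral_congr fun z => ?_
    by_cases hz : E z = 0
    · simp [indicator, hz]
    · rw [indicator_of_mem (by exact hz)]
  have hmK : Measurable fun z => hkE s (y - z) * KK (4 * s) (z - x) := by
    refine (sa_measurable_hkE_sub _ _).mul ?_
    exact (measurable_KK (4 * s)).comp (measurable_id.sub measurable_const)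
  rw [h1]
  calc ∫⁻ z in {z | E z ≠ 0}, hkE s (y - z) * E z
      ≤ ∫⁻ z in {z | E z ≠ 0}, (hkE s (y - z) *
          (ENNReal.ofReal (2 ^ ((n : ℝ) / 2) * Real.exp (‖y - z‖ ^ 2 / (16 * s))) *
            PP (8 * s) E y) + cN n * (hkE s (y - z) * KK (4 * s) (z - x))) := by
        refine lintegral_mono fun z => ?_
        calc hkE s (y - z) * E z
            ≤ hkE s (y - z) * (ENNReal.ofReal (2 ^ ((n : ℝ) / 2) *
                Real.exp (‖y - z‖ ^ 2 / (16 * s))) * PP (8 * s) E y +
                cN n * KK (4 * s) (z - x)) :=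
              mul_le_mul_right ((hb z).trans (add_le_add_left (hh z) _)) _
          _ = _ := by ring
    _ = (∫⁻ z in {z | E z ≠ 0}, hkE s (y - z) *
          (ENNReal.ofReal (2 ^ ((n : ℝ) / 2) * Real.exp (‖y - z‖ ^ 2 / (16 * s))) *
            PP (8 * s) E y)) +
          ∫⁻ z in {z | E z ≠ 0}, cN n * (hkE s (y - z) * KK (4 * s) (z - x)) := by
        refine lintegral_add_right _ ?_
        exact measurable_const.mul hmK
    _ ≤ _ := by
        refine add_le_add ?_ ?_
        · have : ∀ z : Sp n, hkE s (y - z) *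
              (ENNReal.ofReal (2 ^ ((n : ℝ) / 2) * Real.exp (‖y - z‖ ^ 2 / (16 * s))) *
                PP (8 * s) E y) =
              (ENNReal.ofReal ((2 : ℝ) ^ ((n : ℝ) / 2) * (4 / 3) ^ ((n : ℝ) / 2)) *
                PP (8 * s) E y) * hkE (4 * s / 3) (y - z) := fun z => by
            have e1 : hkE s (y - z) *
                ENNReal.ofReal (2 ^ ((n : ℝ) / 2) * Real.exp (‖y - z‖ ^ 2 / (16 * s))) =
                ENNReal.ofReal ((2 : ℝ) ^ ((n : ℝ) / 2) * (4 / 3) ^ ((n : ℝ) / 2)) *
                  hkE (4 * s / 3) (y - z) := by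
              unfold hkE
              rw [← ENNReal.ofReal_mul (hk_pos hs _).le,
                ← ENNReal.ofReal_mul (by positivity)]
              congr 1
              calc _ = 2 ^ ((n : ℝ) / 2) *
                    (hk s (y - z) * Real.exp (‖y - z‖ ^ 2 / (16 * s))) := by ring
                _ = _ := by rw [hk_mul_exp hs]; ring
            rw [← mul_assoc, e1]
            ring
          simp_rw [this]
          rw [lintegral_const_mul _ (sa_measurable_hkE_sub _ _)]
          apply le_of_eq
          ring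
        · rw [lintegral_const_mul _ hmK]
          refine mul_le_mul_right ?_ _
          calc _ ≤ ∫⁻ z, hkE s (y - z) * KK (4 * s) (z - x) := setLIntegral_le_lintegral _ _
            _ ≤ KK (s + 4 * s) (y - x) := PP_KK_le hs h4s x y
            _ = _ := by congr 1; ring

end TM291
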