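import Pool.Agent.Lib.MP_291eb9_an.SingA

open MeasureTheory Set Filter Topology
open scoped ENNReal NNReal

namespace TM291

variable {n : ℕ}

/-- recursion `a_{m+1} ≤ e_m a_m + d_m` with `e, d → 0`. -/
theorem singB_rec {a e d : ℕ → ℝ≥0∞} (ha : ∀ m, a m ≠ ⊤)
    (h : ∀ m, a (m + 1) ≤ e m * a m + d m) (he : Tendsto e atTop (𝓝 0))
    (hd : Tendsto d atTop (𝓝 0)) : Tendsto a atTop (𝓝 0) := by
  rw [ENNReal.tendsto_atTop_zero] at he hd ⊢
  intro ε hε
  have hδ : 0 < ε / 4 := ENNReal.div_pos hε.ne' (by norm_num)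
  obtain ⟨N₁, hN₁⟩ := he 2⁻¹ (by norm_num)
  obtain ⟨N₂, hN₂⟩ := hd (ε / 4) hδ
  set N := max N₁ N₂ with hN
  have hclaim : ∀ k, a (N + k) ≤ 2 * (ε / 4) + 2⁻¹ ^ k * a N := by
    intro k
    induction k with
    | zero => simp
    | succ k ih =>
      have h1 : e (N + k) ≤ 2⁻¹ := hN₁ _ (le_trans (le_max_left _ _) (Nat.le_add_right _ _))
      have h2 : d (N + k) ≤ ε / 4 := hN₂ _ (le_trans (le_max_right _ _) (Nat.le_add_right _ _))
      calc a (N + (k + 1)) = a (N + k + 1) := by rw [Nat.add_assoc]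
        _ ≤ e (N + k) * a (N + k) + d (N + k) := h _
        _ ≤ 2⁻¹ * (2 * (ε / 4) + 2⁻¹ ^ k * a N) + ε / 4 := by gcongr
        _ = (2⁻¹ * 2) * (ε / 4) + ε / 4 + 2⁻¹ ^ (k + 1) * a N := by ring
        _ = 2 * (ε / 4) + 2⁻¹ ^ (k + 1) * a N := by
            rw [ENNReal.inv_mul_cancel (by norm_num) (by norm_num), one_mul, two_mul]
  have ht : Tendsto (fun k : ℕ => (2⁻¹ : ℝ≥0∞) ^ k * a N) atTop (𝓝 0) := by
    have h1 : Tendsto (fun k : ℕ => (2⁻¹ : ℝ≥0∞) ^ k) atTop (𝓝 0) :=
      ENNReal.tendsto_pow_atTop_nhds_zero_of_lt_one (by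
        rw [ENNReal.inv_lt_one]; norm_num)
    simpa using ENNReal.Tendsto.mul_const h1 (Or.inr (ha N))
  rw [ENNReal.tendsto_atTop_zero] at ht
  obtain ⟨K, hK⟩ := ht (2 * (ε / 4)) (by positivity)
  refine ⟨N + K, fun m hm => ?_⟩
  obtain ⟨k, rfl⟩ := Nat.exists_eq_add_of_le (le_trans (Nat.le_add_right N K) hm)
  have hk : K ≤ k := by omega
  calc a (N + k) ≤ 2 * (ε / 4) + 2⁻¹ ^ k * a N := hclaim k
    _ ≤ 2 * (ε / 4) + 2 * (ε / 4) := add_le_add le_rfl (hK k hk)
    _ = 4 * (ε / 4) := by ring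
    _ = ε := ENNReal.mul_div_cancel (by norm_num) (by norm_num)

/-- density point estimate: if `z ∉ S` has Lebesgue density `0` at `y` then
`∫_{Sᶜ} p_{τ}(y-z) dz → 0`. -/
theorem gauss_density {T : Set (Sp n)} (hT : MeasurableSet T) {y : Sp n}
    (hd : Tendsto (fun r => volume (T ∩ Metric.closedBall y r) / volume (Metric.closedBall y r))
      (𝓝[>] 0) (𝓝 0)) :
    Tendsto (fun τ : ℝ => ∫⁻ z in T, hkE τ (y - z)) (𝓝[>] 0) (𝓝 0) := by
  have hmeas : ∀ τ : ℝ, Measurable (fun z : Sp n => hkE τ (y - z)) := by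
    intro τ
    have h1 : Measurable (hk τ : Sp n → ℝ) := (continuous_hk τ).measurable
    unfold hkE
    fun_prop
  -- main estimate
  have hmain : ∀ L : ℝ, 0 < L → ∀ τ : ℝ, 0 < τ →
      ∫⁻ z in T, hkE τ (y - z) ≤
        ENNReal.ofReal ((4 * Real.pi) ^ (-(n : ℝ) / 2) * L ^ n) *
          volume (Metric.closedBall (0 : Sp n) 1) *
          (volume (T ∩ Metric.closedBall y (L * √τ)) / volume (Metric.closedBall y (L * √τ))) +
        ENNReal.ofReal (2 ^ ((n : ℝ) / 2) * Real.exp (-L ^ 2 / 8)) := by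
    intro L hL τ hτ
    have hsq : 0 < √τ := Real.sqrt_pos.2 hτ
    have hr : 0 < L * √τ := by positivity
    have hsub : T ⊆ (T ∩ Metric.closedBall y (L * √τ)) ∪ {z | L * √τ ≤ ‖y - z‖} := by
      intro z hz
      by_cases h : dist z y ≤ L * √τ
      · left; exact ⟨hz, h⟩
      · right
        rw [dist_eq_norm, norm_sub_rev] at h
        exact (not_le.1 h).le
    have h1 : ∫⁻ z in T, hkE τ (y - z) ≤
        (∫⁻ z in T ∩ Metric.closedBall y (L * √τ), hkE τ (y - z)) +
          ∫⁻ z in {z | L * √τ ≤ ‖y - z‖}, hkE τ (y - z) :=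
      (lintegral_mono_set hsub).trans (lintegral_union_le _ _ _)
    have h2 : ∫⁻ z in T ∩ Metric.closedBall y (L * √τ), hkE τ (y - z) ≤
        ENNReal.ofReal ((4 * Real.pi * τ) ^ (-(n : ℝ) / 2)) *
          volume (T ∩ Metric.closedBall y (L * √τ)) := by
      calc ∫⁻ z in T ∩ Metric.closedBall y (L * √τ), hkE τ (y - z)
          ≤ ∫⁻ _z in T ∩ Metric.closedBall y (L * √τ),
              ENNReal.ofReal ((4 * Real.pi * τ) ^ (-(n : ℝ) / 2)) := by
            apply lintegral_mono
            intro z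
            exact ENNReal.ofReal_le_ofReal (hk_le hτ _)
        _ = _ := by rw [setLIntegral_const]
    have h3 : ∫⁻ z in {z | L * √τ ≤ ‖y - z‖}, hkE τ (y - z) ≤
        ENNReal.ofReal (2 ^ ((n : ℝ) / 2) * Real.exp (-L ^ 2 / 8)) := by
      have e1 : ∫⁻ z in {z | L * √τ ≤ ‖y - z‖}, hkE τ (y - z) =
          ∫⁻ z in {z : Sp n | L * √τ ≤ ‖z‖}, hkE τ z := by
        have hm : MeasurableSet {z : Sp n | L * √τ ≤ ‖z‖} :=
          measurableSet_le measurable_const measurable_norm
        have hm' : MeasurableSet {z : Sp n | L * √τ ≤ ‖y - z‖} :=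
          measurableSet_le measurable_const (by fun_prop)
        rw [← lintegral_indicator hm, ← lintegral_indicator hm']
        rw [← lintegral_sub_left_eq_self
          (fun z : Sp n => {z : Sp n | L * √τ ≤ ‖z‖}.indicator (fun z => hkE τ z) z) y]
        refine lintegral_congr fun z => ?_
        by_cases h : L * √τ ≤ ‖y - z‖
        · rw [indicator_of_mem (by exact h), indicator_of_mem (by exact h)]
        · rw [indicator_of_notMem (by exact h), indicator_of_notMem (by exact h)]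
      rw [e1]
      refine (hk_tail hτ hr.le).trans (le_of_eq ?_)
      congr 3
      rw [mul_pow, Real.sq_sqrt hτ.le]
      field_simp
    have h4 : ENNReal.ofReal ((4 * Real.pi * τ) ^ (-(n : ℝ) / 2)) *
          volume (T ∩ Metric.closedBall y (L * √τ)) =
        ENNReal.ofReal ((4 * Real.pi) ^ (-(n : ℝ) / 2) * L ^ n) *
          volume (Metric.closedBall (0 : Sp n) 1) *
          (volume (T ∩ Metric.closedBall y (L * √τ)) / volume (Metric.closedBall y (L * √τ))) := by
      have hvol : volume (Metric.closedBall y (L * √τ)) =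
          ENNReal.ofReal ((L * √τ) ^ n) * volume (Metric.closedBall (0 : Sp n) 1) := by
        rw [Measure.addHaar_closedBall' volume y hr.le, finrank_euclideanSpace_fin]
      have hv0 : volume (Metric.closedBall (0 : Sp n) 1) ≠ 0 :=
        (Metric.measure_closedBall_pos volume _ one_pos).ne'
      have hvt : volume (Metric.closedBall (0 : Sp n) 1) ≠ ⊤ := measure_closedBall_lt_top.ne
      have hB0 : volume (Metric.closedBall y (L * √τ)) ≠ 0 :=
        (Metric.measure_closedBall_pos volume _ hr).ne'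
      have hBt : volume (Metric.closedBall y (L * √τ)) ≠ ⊤ := measure_closedBall_lt_top.ne
      have hreal : (4 * Real.pi) ^ (-(n : ℝ) / 2) * L ^ n =
          (4 * Real.pi * τ) ^ (-(n : ℝ) / 2) * (L * √τ) ^ n := by
        have hpi : (0 : ℝ) ≤ 4 * Real.pi := by positivity
        rw [Real.mul_rpow hpi hτ.le, mul_pow]
        have hsn : √τ ^ n = τ ^ ((n : ℝ) / 2) := by
          rw [Real.sqrt_eq_rpow, ← Real.rpow_natCast, ← Real.rpow_mul hτ.le]
          congr 1; ring
        have hinv : τ ^ (-(n : ℝ) / 2) * τ ^ ((n : ℝ) / 2) = 1 := by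
          rw [← Real.rpow_add hτ]
          have : -(n : ℝ) / 2 + (n : ℝ) / 2 = 0 := by ring
          rw [this, Real.rpow_zero]
        rw [hsn]
        calc (4 * Real.pi) ^ (-(n : ℝ) / 2) * L ^ n
            = (4 * Real.pi) ^ (-(n : ℝ) / 2) * L ^ n *
              (τ ^ (-(n : ℝ) / 2) * τ ^ ((n : ℝ) / 2)) := by rw [hinv, mul_one]
          _ = _ := by ring
      rw [hreal, ENNReal.ofReal_mul (by positivity)]
      calc ENNReal.ofReal ((4 * Real.pi * τ) ^ (-(n : ℝ) / 2)) *
            volume (T ∩ Metric.closedBall y (L * √τ))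
          = ENNReal.ofReal ((4 * Real.pi * τ) ^ (-(n : ℝ) / 2)) *
            (volume (Metric.closedBall y (L * √τ)) *
              (volume (T ∩ Metric.closedBall y (L * √τ)) /
                volume (Metric.closedBall y (L * √τ)))) := by
            rw [ENNReal.mul_div_cancel hB0 hBt]
        _ = _ := by
            nth_rewrite 1 [hvol]
            ring
    calc ∫⁻ z in T, hkE τ (y - z) ≤ _ := h1
      _ ≤ _ := add_le_add (h2.trans (le_of_eq h4)) h3
  -- conclusion
  rw [ENNReal.tendsto_nhds_zero]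
  intro ε hε
  -- choose L
  have hLlim : Tendsto (fun L : ℝ => ENNReal.ofReal (2 ^ ((n : ℝ) / 2) * Real.exp (-L ^ 2 / 8)))
      atTop (𝓝 0) := by
    have h1 : Tendsto (fun L : ℝ => 2 ^ ((n : ℝ) / 2) * Real.exp (-L ^ 2 / 8)) atTop
        (𝓝 (2 ^ ((n : ℝ) / 2) * 0)) := by
      refine Tendsto.const_mul _ ?_
      refine Real.tendsto_exp_atBot.comp ?_
      have h2 : Tendsto (fun L : ℝ => L ^ 2 / 8) atTop atTop :=
        (tendsto_pow_atTop (by norm_num)).atTop_div_const (by norm_num)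
      have h3 := tendsto_neg_atTop_atBot.comp h2
      refine h3.congr fun L => ?_
      simp only [Function.comp]
      ring
    rw [mul_zero] at h1
    have := ENNReal.tendsto_ofReal h1
    simpa using this
  have hε2 : 0 < ε / 2 := ENNReal.half_pos hε.ne'
  rw [ENNReal.tendsto_nhds_zero] at hLlim
  obtain ⟨L, hL1, hL2⟩ := ((hLlim (ε / 2) hε2).and (eventually_gt_atTop 0)).exists
  have hrad : Tendsto (fun τ : ℝ => L * √τ) (𝓝[>] 0) (𝓝[>] 0) := by
    refine tendsto_nhdsWithin_iff.2 ⟨?_, ?_⟩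
    · have : Tendsto (fun τ : ℝ => L * √τ) (𝓝 0) (𝓝 (L * √0)) :=
        (continuous_const.mul Real.continuous_sqrt).tendsto 0
      rw [Real.sqrt_zero, mul_zero] at this
      exact this.mono_left nhdsWithin_le_nhds
    · filter_upwards [self_mem_nhdsWithin] with τ hτ
      exact mul_pos hL2 (Real.sqrt_pos.2 hτ)
  have hlim : Tendsto (fun τ : ℝ => ENNReal.ofReal ((4 * Real.pi) ^ (-(n : ℝ) / 2) * L ^ n) *
          volume (Metric.closedBall (0 : Sp n) 1) *
          (volume (T ∩ Metric.closedBall y (L * √τ)) / volume (Metric.closedBall y (L * √τ))))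
      (𝓝[>] 0) (𝓝 0) := by
    have h1 := hd.comp hrad
    have h2 := ENNReal.Tendsto.const_mul (a := ENNReal.ofReal
      ((4 * Real.pi) ^ (-(n : ℝ) / 2) * L ^ n) * volume (Metric.closedBall (0 : Sp n) 1)) h1
      (Or.inr (ENNReal.mul_ne_top ENNReal.ofReal_ne_top measure_closedBall_lt_top.ne))
    simpa [Function.comp_def] using h2
  rw [ENNReal.tendsto_nhds_zero] at hlim
  filter_upwards [hlim (ε / 2) hε2, self_mem_nhdsWithin] with τ h1 hτ
  calc ∫⁻ z in T, hkE τ (y - z) ≤ _ := hmain L hL2 τ hτ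
    _ ≤ ε / 2 + ε / 2 := add_le_add h1 hL1
    _ = ε := ENNReal.add_halves ε

/-- `g` decays like `o(s)` at density points of `{g = 0}` along `s = 8^{-m}`. -/
theorem green_decay (hn : 3 ≤ n) {x : Sp n} {ω : Measure (Sp n)} (hp : Pair x ω) {y : Sp n}
    (hyx : y ≠ x)
    (hd : Tendsto (fun r => volume ({z | kernel x z - pot ω z ≠ 0} ∩ Metric.closedBall y r) /
      volume (Metric.closedBall y r)) (𝓝[>] 0) (𝓝 0)) :
    Tendsto (fun m : ℕ => PP ((1 / 8 : ℝ) ^ m) (fun z => kernel x z - pot ω z) y /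
      ENNReal.ofReal ((1 / 8 : ℝ) ^ m)) atTop (𝓝 0) := by
  have := hp.fin
  have hkm : Measurable (fun z => kernel x z) :=
    (measurable_kernel_uncurry (n := n)).of_uncurry_left
  have hgm : Measurable (fun z => kernel x z - pot ω z) := hkm.fun_sub (measurable_pot ω)
  have hTm : MeasurableSet {z | kernel x z - pot ω z ≠ 0} :=
    (hgm (measurableSet_singleton 0)).compl
  obtain ⟨C, hC, hstep⟩ := green_step hn hp
  have hgd := gauss_density hTm hd
  have hpt := KK_point (n := n) (y := y - x) (sub_ne_zero.2 hyx)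
  have hspos : ∀ m : ℕ, (0 : ℝ) < (1 / 8 : ℝ) ^ m := fun m => by positivity
  have hslim : Tendsto (fun m : ℕ => (1 / 8 : ℝ) ^ (m + 1)) atTop (𝓝 0) :=
    (tendsto_pow_atTop_nhds_zero_of_lt_one (by norm_num) (by norm_num)).comp (tendsto_add_atTop_nat 1)
  refine singB_rec (e := fun m => 8 * C * (∫⁻ z in {z | kernel x z - pot ω z ≠ 0},
      hkE (4 * (1 / 8 : ℝ) ^ (m + 1) / 3) (y - z)))
    (d := fun m => 5 * cN n * (KK (5 * (1 / 8 : ℝ) ^ (m + 1)) (y - x) /
      ENNReal.ofReal (5 * (1 / 8 : ℝ) ^ (m + 1)))) ?_ ?_ ?_ ?_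
  · intro m
    refine (ENNReal.div_lt_top ?_ ?_).ne
    · refine (lt_of_le_of_lt ?_ (kernel_lt_top hn hyx.symm)).ne
      calc PP ((1 / 8 : ℝ) ^ m) (fun z => kernel x z - pot ω z) y
          ≤ PP ((1 / 8 : ℝ) ^ m) (pot (Measure.dirac x)) y := by
            unfold PP
            refine lintegral_mono fun z => ?_
            simp only [pot_dirac]
            gcongr
            exact tsub_le_self
        _ ≤ pot (Measure.dirac x) y := PP_pot_le hn _ (hspos m) y
        _ = kernel x y := pot_dirac x y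
    · exact (ENNReal.ofReal_pos.2 (hspos m)).ne'
  · intro m
    set s : ℝ := (1 / 8 : ℝ) ^ (m + 1) with hs
    have hs0 : 0 < s := hspos (m + 1)
    have h8 : (1 / 8 : ℝ) ^ m = 8 * s := by rw [hs, pow_succ]; ring
    rw [h8]
    have hS0 : ENNReal.ofReal s ≠ 0 := (ENNReal.ofReal_pos.2 hs0).ne'
    have hSt : ENNReal.ofReal s ≠ ⊤ := ENNReal.ofReal_ne_top
    have e8 : ENNReal.ofReal (8 * s) = 8 * ENNReal.ofReal s := by
      rw [ENNReal.ofReal_mul (by norm_num)]; norm_num
    have e5 : ENNReal.ofReal (5 * s) = 5 * ENNReal.ofReal s := by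
      rw [ENNReal.ofReal_mul (by norm_num)]; norm_num
    rw [e8, e5]
    have hst := hstep s hs0 y
    generalize (∫⁻ z in {z | kernel x z - pot ω z ≠ 0}, hkE (4 * s / 3) (y - z)) = A at hst ⊢
    calc PP s (fun z => kernel x z - pot ω z) y / ENNReal.ofReal s
        ≤ (C * A *
          PP (8 * s) (fun z => kernel x z - pot ω z) y + cN n * KK (5 * s) (y - x)) /
            ENNReal.ofReal s := ENNReal.div_le_div_right hst _
      _ = _ := by
          rw [ENNReal.add_div]
          congr 1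
          · simp only [div_eq_mul_inv]
            rw [ENNReal.mul_inv (Or.inr hSt) (Or.inr hS0)]
            have : (8 : ℝ≥0∞) * 8⁻¹ = 1 := ENNReal.mul_inv_cancel (by norm_num) (by norm_num)
            calc _ = C * A *
                  PP (8 * s) (fun z => kernel x z - pot ω z) y * (ENNReal.ofReal s)⁻¹ * 1 := by
                    rw [mul_one]
              _ = _ := by rw [← this]; ring
          · simp only [div_eq_mul_inv]
            rw [ENNReal.mul_inv (Or.inr hSt) (Or.inr hS0)]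
            have : (5 : ℝ≥0∞) * 5⁻¹ = 1 := ENNReal.mul_inv_cancel (by norm_num) (by norm_num)
            calc _ = cN n * KK (5 * s) (y - x) * (ENNReal.ofReal s)⁻¹ * 1 := by rw [mul_one]
              _ = _ := by rw [← this]; ring
  · have hrad : Tendsto (fun m : ℕ => 4 * (1 / 8 : ℝ) ^ (m + 1) / 3) atTop (𝓝[>] 0) := by
      refine tendsto_nhdsWithin_iff.2 ⟨?_, Eventually.of_forall fun m => ?_⟩
      · have := (hslim.const_mul 4).div_const 3
        simpa using this
      · have := hspos (m + 1)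
        exact mem_Ioi.2 (by positivity)
    have h1 := hgd.comp hrad
    have h2 := ENNReal.Tendsto.const_mul (a := 8 * C) h1
      (Or.inr (ENNReal.mul_ne_top (by norm_num) hC))
    simpa [Function.comp_def] using h2
  · have hrad : Tendsto (fun m : ℕ => 5 * (1 / 8 : ℝ) ^ (m + 1)) atTop (𝓝[>] 0) := by
      refine tendsto_nhdsWithin_iff.2 ⟨?_, Eventually.of_forall fun m => ?_⟩
      · have := hslim.const_mul 5
        simpa using this
      · have := hspos (m + 1)
        exact mem_Ioi.2 (by positivity)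
    have h1 := hpt.comp hrad
    have h2 := ENNReal.Tendsto.const_mul (a := 5 * cN n) h1
      (Or.inr (ENNReal.mul_ne_top (by norm_num) (cN_ne_top hn)))
    simpa [Function.comp_def] using h2

end TM291
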